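import Pool.Agent.MP_3ee8cb_gt.DNB2.Spec

/-! Segments towards far points of a geodesic. -/

namespace Pool.Agent.MP_3ee8cb_gt.DNB2

open DN (Dim dm)

variable [Dim]

open Set Filter Topology Asymptotics Real DN DNC0
open scoped RealInnerProductSpace ContDiff

noncomputable section

namespace RSeg

variable {m : MF} {lg : W → V} {Γ : Type} [Group Γ] [MulAction Γ V] {O : Γ → V → V ≃ₗᵢ[ℝ] V}
  {a b : ℝ}

theorem len (N : NV m lg Γ O a b) (B : Bs m lg Γ) (z : W) (y : V) (T : ℝ) (hz : ‖z.2‖ = 1)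
    (hT : 0 ≤ T) : |‖lg (y, (m.Z T z).1)‖ - T| ≤ ‖lg (z.1, y)‖ := by
  have h1 := B.geo z 0 T
  rw [N.ok.zero, hz, zero_sub, abs_neg, abs_of_nonneg hT, mul_one] at h1
  have h2 := N.had.tri z.1 y (m.Z T z).1
  have h3 := N.had.tri y z.1 (m.Z T z).1
  rw [B.symm y z.1] at h3
  rw [abs_le]
  constructor <;> linarith

theorem unit {v : V} (hv : v ≠ 0) : ‖‖v‖⁻¹ • v‖ = 1 := by
  rw [norm_smul, norm_inv, norm_norm, inv_mul_cancel₀ (norm_ne_zero_iff.2 hv)]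

theorem hit (N : NV m lg Γ O a b) (y x : V) (hv : lg (y, x) ≠ 0) :
    (m.Z ‖lg (y, x)‖ (nz (y, lg (y, x)))).1 = x := by
  have h := N.jac.scale 1 ‖lg (y, x)‖ y (‖lg (y, x)‖⁻¹ • lg (y, x))
  rw [smul_inv_smul₀ (norm_ne_zero_iff.2 hv), mul_one] at h
  have h2 := N.had.ex y x
  rw [h] at h2
  exact h2

theorem sgt (N : NV m lg Γ O a b) (T : ℕ) (z : W) (y : V) (t : ℝ) :
    m.Z t (sg m lg T z y) =
      m.Z (t + (‖lg (y, (m.Z T z).1)‖ - T)) (nz (y, lg (y, (m.Z T z).1))) := by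
  rw [N.ok.add]; rfl

theorem ne (N : NV m lg Γ O a b) (B : Bs m lg Γ) (z : W) (y : V) (T : ℝ) (hz : ‖z.2‖ = 1)
    (hT : ‖lg (z.1, y)‖ < T) : lg (y, (m.Z T z).1) ≠ 0 := by
  have h := len N B z y T hz ((norm_nonneg _).trans hT.le)
  intro h0
  rw [h0, norm_zero, abs_le] at h
  linarith [h.1]

theorem meet (N : NV m lg Γ O a b) (T : ℕ) (z : W) (y : V) (hv : lg (y, (m.Z T z).1) ≠ 0) :
    (m.Z T z).1 = (m.Z T (sg m lg T z y)).1 := by
  rw [sgt N, add_sub_cancel, hit N y _ hv]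

theorem nq (N : NV m lg Γ O a b) (T : ℕ) (z : W) (y : V) (hv : lg (y, (m.Z T z).1) ≠ 0) :
    ‖(sg m lg T z y).2‖ = 1 := by
  unfold sg
  rw [N.jac.norm]
  exact unit hv

theorem back (N : NV m lg Γ O a b) (B : Bs m lg Γ) (z q : W) (T s : ℝ)
    (h : (m.Z T z).1 = (m.Z T q).1) :
    df m lg ((m.Z T z).1, -(m.Z T z).2) ((m.Z T z).1, -(m.Z T q).2) s = df m lg z q (T - s) := by
  have e1 : (((m.Z T z).1, -(m.Z T z).2) : W) = fl (m.Z T z) := rfl
  have e2 : (((m.Z T z).1, -(m.Z T q).2) : W) = fl (m.Z T q) := by rw [h]; rfl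
  unfold df
  rw [e1, e2, B.flip, B.flip, ← N.ok.add, ← N.ok.add, show -s + T = T - s by ring]
  rfl

theorem close (N : NV m lg Γ O a b) (B : Bs m lg Γ) (J : Jf m lg a b) (A : ℝ) :
    ∃ C : ℝ, 0 ≤ C ∧ ∀ (z : W) (y : V) (T : ℕ), ‖z.2‖ = 1 → ‖lg (z.1, y)‖ ≤ A → A < T →
      ∀ t ∈ Icc (0 : ℝ) T, df m lg z (sg m lg T z y) t ≤ C * ‖lg (z.1, y)‖ * exp (-(a * t)) := by
  obtain ⟨C, hC, h⟩ := J.thin (2 * A)
  refine ⟨2 * C, by linarith, fun z y T hz hy hT t ht => ?_⟩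
  have hv := ne N B z y T hz (hy.trans_lt hT)
  have hm := meet N T z y hv
  have h0 : df m lg z (sg m lg T z y) 0 ≤ 2 * ‖lg (z.1, y)‖ := by
    have g1 := B.geo (nz (y, lg (y, (m.Z T z).1))) 0 (‖lg (y, (m.Z T z).1)‖ - T)
    have g2 : ‖(nz (y, lg (y, (m.Z T z).1))).2‖ = 1 := unit hv
    rw [N.ok.zero, g2, zero_sub, abs_neg, mul_one] at g1
    have g3 := len N B z y T hz (Nat.cast_nonneg T)
    have g4 := N.had.tri z.1 y (sg m lg T z y).1
    unfold df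
    rw [N.ok.zero, N.ok.zero]
    have g5 : ‖lg (y, (sg m lg T z y).1)‖ = |‖lg (y, (m.Z T z).1)‖ - T| := g1
    linarith
  have h1 := h (m.Z T z).1 (-(m.Z T z).2) (-(m.Z T (sg m lg T z y)).2)
    (by rw [norm_neg, N.jac.norm, hz]) (by rw [norm_neg, N.jac.norm, nq N T z y hv]) T t ht.1 ht.2
    (by rw [back N B z _ T T hm, sub_self]; linarith)
  rw [back N B z _ T T hm, back N B z _ T _ hm, sub_self, sub_sub_cancel] at h1
  have h2 : 0 ≤ C * exp (-(a * t)) := by positivity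
  calc _ ≤ _ := h1
    _ ≤ C * exp (-(a * t)) * (2 * ‖lg (z.1, y)‖) := mul_le_mul_of_nonneg_left h0 h2
    _ = _ := by ring

end RSeg

open RSeg in
theorem seg : SSEG := by
  intro m lg Γ _ _ O a b N B J A hA
  obtain ⟨c, hc, h⟩ := close N B J A
  obtain ⟨C, hC, h'⟩ := J.thin (2 * (c * A))
  have hK : 0 ≤ (2 * C + 1) * (c * A) := by positivity
  refine ⟨c + (2 * C + 1) * (c * A), by positivity, fun z y T hz hy hT => ?_⟩
  have hv := ne N B z y T hz (hy.trans_lt hT)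
  have k1 : ∀ t ∈ Icc (0 : ℝ) T, df m lg z (sg m lg T z y) t ≤
      (c + (2 * C + 1) * (c * A)) * ‖lg (z.1, y)‖ * exp (-(a * t)) := fun t ht =>
    (h z y T hz hy hT t ht).trans (by gcongr; linarith)
  refine ⟨hv, ⟨hz, nq N T z y hv, fun j hj => k1 j ⟨Nat.cast_nonneg j, by exact_mod_cast hj⟩,
    meet N T z y hv⟩, k1, fun T' hT' t ht => ?_⟩
  have hTT : (T : ℝ) ≤ T' := by exact_mod_cast hT'
  have hv' := ne N B z y T' hz (hy.trans_lt (hT.trans_le hTT))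
  have hη := h z y T' hz hy (hT.trans_le hTT) T ⟨Nat.cast_nonneg T, hTT⟩
  have l1 := abs_le.1 (len N B z y T hz (Nat.cast_nonneg T))
  have l2 := abs_le.1 (len N B z y T' hz (Nat.cast_nonneg T'))
  have hx := hit N y _ hv
  have he : exp (-(a * T)) ≤ 1 := exp_le_one_iff.2 (by
    have := mul_nonneg N.a0.le (Nat.cast_nonneg (α := ℝ) T); linarith)
  have he0 := (exp_pos (-(a * T))).le
  have hη' : df m lg z (sg m lg T' z y) T ≤ c * A * exp (-(a * T)) := hη.trans (by gcongr)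
  have hη'' : c * A * exp (-(a * T)) ≤ c * A := mul_le_of_le_one_right (by positivity) he
  unfold df at hη' ⊢
  rw [sgt N] at hη'
  rw [sgt N, sgt N]
  have u1 : ‖(nz (y, lg (y, (m.Z T z).1))).2‖ = 1 := unit hv
  have u2 : ‖(nz (y, lg (y, (m.Z T' z).1))).2‖ = 1 := unit hv'
  have th := h' y (nz (y, lg (y, (m.Z T z).1))).2 (nz (y, lg (y, (m.Z T' z).1))).2 u1 u2
    ‖lg (y, (m.Z T z).1)‖ (T - t) (by linarith [ht.2]) (by linarith [ht.1])
  have p1 : ((y, (nz (y, lg (y, (m.Z T z).1))).2) : W) = nz (y, lg (y, (m.Z T z).1)) := rfl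
  have p2 : ((y, (nz (y, lg (y, (m.Z T' z).1))).2) : W) = nz (y, lg (y, (m.Z T' z).1)) := rfl
  have p3 : (nz (y, lg (y, (m.Z T' z).1))).1 = y := rfl
  rw [p1, p2] at th
  unfold df at th
  rw [hx] at th
  generalize nz (y, lg (y, (m.Z T z).1)) = n at *
  generalize nz (y, lg (y, (m.Z T' z).1)) = n' at *
  generalize hL' : ‖lg (y, (m.Z T' z).1)‖ = L' at *
  generalize (m.Z T z).1 = x at *
  have g0 := B.geo n' 0 (T + (L' - T'))
  rw [N.ok.zero, u2, p3, zero_sub, abs_neg, mul_one, abs_of_nonneg (by linarith)] at g0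
  have t1 := N.had.tri y x (m.Z (T + (L' - T')) n').1
  have t2 := N.had.tri y (m.Z (T + (L' - T')) n').1 x
  rw [B.symm (m.Z (T + (L' - T')) n').1 x] at t2
  have g1 := B.geo n' (T + (L' - T')) ‖lg (y, x)‖
  have g2 := B.geo n' (‖lg (y, x)‖ - (T - t)) (t + (L' - T'))
  rw [u2, mul_one] at g1 g2
  have t3 := N.had.tri x (m.Z (T + (L' - T')) n').1 (m.Z ‖lg (y, x)‖ n').1
  have t4 := N.had.tri (m.Z (‖lg (y, x)‖ - (T - t)) n).1 (m.Z (‖lg (y, x)‖ - (T - t)) n').1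
    (m.Z (t + (L' - T')) n').1
  have a1 : |T + (L' - T') - ‖lg (y, x)‖| ≤ c * A * exp (-(a * T)) := by
    rw [abs_le]; constructor <;> linarith
  have a2 : |‖lg (y, x)‖ - (T - t) - (t + (L' - T'))| ≤ c * A * exp (-(a * T)) := by
    rw [abs_le]; constructor <;> linarith
  have a3 : ‖lg (x, (m.Z ‖lg (y, x)‖ n').1)‖ ≤ 2 * (c * A * exp (-(a * T))) := by linarith
  have th2 := th (by linarith)
  have he2 : exp (-(a * (T - t))) ≤ 1 := exp_le_one_iff.2 (by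
    have := mul_nonneg N.a0.le (sub_nonneg.2 ht.2); linarith)
  have th3 : C * exp (-(a * (T - t))) * ‖lg (x, (m.Z ‖lg (y, x)‖ n').1)‖ ≤
      C * 1 * (2 * (c * A * exp (-(a * T)))) := by gcongr
  rw [show t + (‖lg (y, x)‖ - T) = ‖lg (y, x)‖ - (T - t) by ring]
  have := mul_nonneg hc he0
  nlinarith

end

end Pool.Agent.MP_3ee8cb_gt.DNB2
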