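import Pool.Agent.MP_3ee8cb_gt.DNB2.Spec
import Pool.Agent.MP_3ee8cb_gt.DNC0.RBr
import Pool.Agent.MP_3ee8cb_gt.DNC0.RNear

/-! Busemann functions in frames. -/

namespace Pool.Agent.MP_3ee8cb_gt.DNB2

open DN (Dim dm)

variable [Dim]

open Set Filter Topology Real DN DNC0
open CR (Met UT dd ng bus)
open scoped RealInnerProductSpace

theorem bz : SBZ := by
  intro g C Γ _ _ Φ q _ m lg a o _ l _ dl ha hc
  have hi : LV.Hinge g Φ a := fun p p' e s t hs ht => by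
    have := TB.hinge dm g Γ Φ a q.rp ha hc p p' e s t hs ht
    rwa [mul_assoc] at this
  obtain ⟨mh, i2⟩ := LV.hm dm g Γ Φ q a ha hi
  have th := LV.th dm g Γ Φ q a ha mh i2
  have bp := LV.bp dm g Γ Φ q mh
  have lb := LV.lb dm g Γ Φ q a ha hi bp
  have lp := LV.lp1 dm g Γ Φ q a ha mh i2
  have un : ∀ p : UT g, ‖(fz m p).2‖ = 1 := fun p => by
    have := l.orth p.1.1 (m.S p.1.1 p.1.2) (m.S p.1.1 p.1.2)
    rw [o.RS, p.2, real_inner_self_eq_norm_sq] at this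
    exact (pow_eq_one_iff_of_nonneg (norm_nonneg _) two_ne_zero).1 this.symm
  have c1 : Continuous fun p : UT g => p.1.1 := continuous_fst.comp continuous_subtype_val
  have on : ∀ z : W, ‖z.2‖ = 1 → ∃ p : UT g, fz m p = z := fun z hz =>
    (br_unit o l z hz).imp fun _ h => h.1
  have ne : ∀ p : UT g, fz m (ng p) = fl (fz m p) := fun p =>
    Prod.ext rfl (map_neg (m.S p.1.1) p.1.2)
  have fw : ∀ t (p : UT g), m.Z t (fz m p) = fz m (Φ t p) := l.flow
  have k : ∀ (p p' : UT g) t, df m lg (fz m p) (fz m p') t = dd g (Φ t p).1.1 (Φ t p').1.1 :=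
    fun p p' t => by rw [df, dl, br_ft l, br_ft l]
  obtain ⟨β, hβ⟩ : ∃ β : W → V → ℝ, ∀ (p : UT g) (y : V), bus g Φ p y = β (fz m p) y :=
    ⟨fun z y => ⨅ t : ℝ, (‖lg (y, (m.Z t z).1)‖ - t), fun p y =>
      iInf_congr fun t => by rw [dl, br_ft l]⟩
  refine ⟨β, ⟨c1.prodMk ((o.cS.continuous.comp c1).clm_apply
    (continuous_snd.comp continuous_subtype_val)), un, on, ne, fw, dl, hβ⟩, fun z y hz => ?_,
    fun z x y hz => ?_, fun z t hz => ?_, fun z t y hz => ?_, fun z z' hz hz' H y => ?_,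
    fun z y hz => ?_, fun z y hz => ?_, fun η hη => ?_⟩
  · obtain ⟨p, rfl⟩ := on z hz
    rw [← hβ]
    refine ((bp.lim p y).comp tendsto_natCast_atTop_atTop).congr fun T => ?_
    have e : nz (fz m p) = fz m p := by rw [nz, un, inv_one, one_smul]
    rw [bt, e, dl, br_ft l]
    rfl
  · obtain ⟨p, rfl⟩ := on z hz
    rw [← hβ, ← hβ, dl]
    exact bp.lip p x y
  · obtain ⟨p, rfl⟩ := on z hz
    rw [← hβ, br_ft l]
    exact bp.self p t
  · obtain ⟨p, rfl⟩ := on z hz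
    rw [fw, ← hβ, ← hβ]
    exact bp.shift p t y
  · obtain ⟨p, rfl⟩ := on z hz
    obtain ⟨p', rfl⟩ := on z' hz'
    rw [← hβ, ← hβ]
    exact bp.top p p' (Tendsto.congr (k p p') H) y
  · obtain ⟨p, rfl⟩ := on z hz
    rw [← ne, ← hβ, ← hβ]
    exact bp.opp p y
  · obtain ⟨p, rfl⟩ := on z hz
    rw [← ne, ← hβ, ← hβ, dl]
    obtain ⟨u, h1, h2⟩ := q.rp.hr p.1.1 y
    have h0 : 0 ≤ dd g p.1.1 y := q.rp.db.nonneg _ _
    have a1 := lb p u h1.symm _ h0
    have a2 := lb (ng p) u h1.symm _ h0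
    have e : g (ng p).1.1 (ng p).1.2 u.1.2 = -g p.1.1 p.1.2 u.1.2 := by simp [ng]
    rw [h2] at a1 a2
    rw [e] at a2
    have sh : 0 ≤ sinh (a * dd g p.1.1 y) := sinh_nonneg_iff.2 (by positivity)
    change cosh (a * dd g p.1.1 y) ≤ _
    rcases le_total (g p.1.1 p.1.2 u.1.2) 0 with h | h
    · exact le_max_of_le_left (by nlinarith)
    · exact le_max_of_le_right (by nlinarith)
  · obtain ⟨δ, hδ, H⟩ := RNear.uni q ha mh th lp hη
    refine ⟨δ, hδ, fun z z' hz hz' h0 h1 => ?_⟩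
    obtain ⟨p, rfl⟩ := on z hz
    obtain ⟨p', rfl⟩ := on z' hz'
    rw [k] at h1
    rw [df, o.zero, o.zero, dl] at h0
    obtain ⟨u, t₀, b0, b1, b2⟩ := H p p' h0 h1
    refine ⟨fz m u, t₀, un u, fun T hT => ?_, Tendsto.congr (fun t => (k u p t).symm) b1, ?_⟩
    · rw [k]
      exact b0 T hT
    · rw [fw]
      exact Tendsto.congr (fun t => (k _ p' t).symm) b2

end Pool.Agent.MP_3ee8cb_gt.DNB2
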