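import Pool.Agent.MP_3ee8cb_gt.DNC0.Spec
import Pool.Agent.MP_3ee8cb_gt.DNC0.H38Step

/-! The telescoped estimate without pinching; truncation of Busemann functions. -/

namespace Pool.Agent.MP_3ee8cb_gt.DNB2.H23

open DN (Dim dm)

variable [Dim]

open Set Filter Topology Real DN DNC0
open scoped RealInnerProductSpace

variable {m : MF} {lg : W → V} {Γ : Type} [Group Γ] [MulAction Γ V] {O : Γ → V → V ≃ₗᵢ[ℝ] V}
  {a b : ℝ}

/-- The core estimate, stopped at time `T`. -/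
theorem telS (ok : m.OK) (act : Act m Γ O) (a0 : 0 < a) (bs : Bs m lg Γ)
    (jf : Jf m lg a b) (st : Step m O b) (mv : Mov m lg O a b) (R A : ℝ) :
    ∃ C : ℝ, 0 ≤ C ∧ ∀ (T : ℕ) (z q ξ : W) (ε : ℝ), ‖z‖ ≤ R → 0 ≤ ε → ε ≤ A → Cl m lg a ε T z q →
      |en m T z ξ q - om m z ξ (q - z)| ≤
        C * (∑ j ∈ Finset.range T, exp (b - 2 * a) ^ j) * nn m b z ξ * ε ^ 2 := by
  obtain ⟨K, hK, hK'⟩ := act.cpt
  obtain ⟨R₀, hR₀⟩ := hK.isBounded.exists_norm_le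
  set R₁ := max R (max R₀ 1) with hR₁
  obtain ⟨R₂, hR₂⟩ := bs.bdd (max R₁ A)
  obtain ⟨c, c0, hc⟩ := st (max R₁ R₂)
  obtain ⟨d, d0, hd⟩ := bs.del (max R₁ R₂)
  set θ := exp (b - 2 * a) with hθ
  have θ0 : 0 < θ := exp_pos _
  set C := c * exp b * (2 * d) ^ 2 with hC
  have C0 : 0 ≤ C := by positivity
  have ea : exp (-(a * ((1 : ℕ) : ℝ))) ≤ 1 := Real.exp_le_one_iff.2 (by
    rw [Nat.cast_one]
    linarith)
  refine ⟨C, C0, fun T => ?_⟩
  suffices h : ∀ (z q ξ : W) (ε : ℝ), ‖z‖ ≤ R₁ → 0 ≤ ε → ε ≤ A → Cl m lg a ε T z q →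
      |en m T z ξ q - om m z ξ (q - z)| ≤
        C * (∑ j ∈ Finset.range T, θ ^ j) * nn m b z ξ * ε ^ 2 from
    fun z q ξ ε hz => h z q ξ ε (le_max_of_le_left hz)
  induction T with
  | zero =>
    intro z q ξ ε _ _ _ cl
    have h1 := cl.meet
    simp only [Nat.cast_zero, ok.zero] at h1
    have e : q - z = (0, q.2 - z.2) := Prod.ext (by simp [h1]) rfl
    have : en m 0 z ξ q = om m z ξ (q - z) := by
      rw [e]
      simp [en, om, MF.J, ok.zero, H38.z_zero ok, MF.hor, MF.ver, -map_sub]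
    rw [this, sub_self, abs_zero]
    simp
  | succ T ih =>
    intro z q ξ ε hz ε0 εA cl
    obtain ⟨γ, hγ⟩ := hK' (m.Z 1 z).1
    obtain ⟨m1, -, m3⟩ := mv γ 1 z ξ
    obtain ⟨m4, m5⟩ := m3 q ε T cl
    have hγ' : ‖γ • (m.Z 1 z).1‖ ≤ R₁ := le_max_of_le_right (le_max_of_le_left (hR₀ _ hγ))
    have n1 : ‖ac O γ (m.Z 1 z)‖ ≤ R₁ := by
      rw [Prod.norm_def]
      refine max_le hγ' ?_
      have := m4.nz
      rw [Nat.cast_one] at this
      rw [this]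
      exact le_max_of_le_right (le_max_right _ _)
    have l0 : df m lg z q 0 ≤ ε := by simpa using cl.le 0 (Nat.zero_le _)
    have l1 : df m lg z q 1 ≤ ε := by
      have := (cl.le 1 (Nat.le_add_left 1 T)).trans (mul_le_of_le_one_right ε0 ea)
      rwa [Nat.cast_one] at this
    have hq : ‖q‖ ≤ max R₁ R₂ := by
      rw [Prod.norm_def]
      refine max_le (le_max_of_le_right (hR₂ z.1 q.1
        (le_max_of_le_left ((norm_fst_le z).trans hz)) (le_max_of_le_right ?_))) ?_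
      · have := l0.trans εA
        simpa only [df, ok.zero] using this
      · rw [cl.nq]
        exact le_max_of_le_left (le_max_of_le_right (le_max_right _ _))
    have i1 := ih _ _ (fderiv ℝ (ac O γ) (m.Z (1 : ℕ) z) (fderiv ℝ (m.Z (1 : ℕ)) z ξ)) _
      (by rwa [Nat.cast_one]) (by positivity) ((mul_le_of_le_one_right ε0 ea).trans εA) m4
    rw [m5, m1] at i1
    simp only [Nat.cast_one, mul_one] at i1
    have i2 := hc γ z q ξ (le_max_of_le_left hz) hq (le_max_of_le_left hγ')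
    have i3 := jf.grow z ξ 1 cl.nz zero_le_one
    rw [mul_one] at i3
    have i4 : ‖q - z‖ ≤ 2 * d * ε := by
      have := hd z q (le_max_of_le_left hz) hq
      have h2 := mul_le_mul_of_nonneg_left (add_le_add l0 l1) d0
      linarith
    have i5 : ‖q - z‖ ^ 2 ≤ (2 * d * ε) ^ 2 := by gcongr
    have n0 : 0 ≤ nn m b z ξ := Real.sqrt_nonneg _
    have S0 : 0 ≤ C * ∑ j ∈ Finset.range T, θ ^ j :=
      mul_nonneg C0 (Finset.sum_nonneg fun j _ => pow_nonneg θ0.le j)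
    have j1 := i1.trans (mul_le_mul_of_nonneg_right (mul_le_mul_of_nonneg_left i3 S0)
      (sq_nonneg _))
    have j2 := i2.trans (mul_le_mul (mul_le_mul_of_nonneg_left i3 c0) i5 (sq_nonneg _)
      (by positivity))
    have e : exp b * exp (-a) ^ 2 = θ := by
      rw [hθ, sq, ← Real.exp_add, ← Real.exp_add]
      congr 1
      ring
    calc _ ≤ _ := abs_sub_le _ _ _
      _ ≤ _ := add_le_add j1 j2
      _ = (C * (∑ j ∈ Finset.range T, θ ^ j) * (exp b * exp (-a) ^ 2) +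
          c * exp b * (2 * d) ^ 2) * nn m b z ξ * ε ^ 2 := by ring
      _ = _ := by
        rw [e, geom_sum_succ, ← hC]
        ring

/-- Half the square of the distance is of class `C²`. -/
theorem sq_c2 (ok : m.OK) (had : m.Had lg) : ContDiff ℝ 2 fun q : W => ‖lg q‖ ^ 2 / 2 := by
  have h1 : ContDiff ℝ 1 fun q : W => ‖lg q‖ ^ 2 / 2 := (had.c1.norm_sq ℝ).div_const 2
  have e : fderiv ℝ (fun q : W => ‖lg q‖ ^ 2 / 2) = fun q =>
      -((innerSL ℝ (lg q)).comp ((m.S q.1).comp (ContinuousLinearMap.fst ℝ V V))) -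
      (innerSL ℝ (lg q.swap)).comp ((m.S q.2).comp (ContinuousLinearMap.snd ℝ V V)) := by
    funext q
    refine ContinuousLinearMap.ext fun ξ => ?_
    rw [had.grad]
    simp
  have cS : ContDiff ℝ 1 m.S := ok.cS.of_le (by norm_num)
  have i1 : ContDiff ℝ 1 fun v : V => innerSL ℝ v := (innerSL ℝ (E := V)).contDiff
  refine (contDiff_succ_iff_fderiv (n := 1)).2 ⟨h1.differentiable one_ne_zero, by simp, ?_⟩
  rw [e]
  exact ((i1.comp had.c1).clm_comp ((cS.comp contDiff_fst).clm_comp contDiff_const)).neg.sub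
    ((i1.comp (had.c1.comp (contDiff_snd.prodMk contDiff_fst))).clm_comp
      ((cS.comp contDiff_snd).clm_comp contDiff_const))

/-- The excess of a point close to the middle of a segment of length two. -/
theorem exc (ok : m.OK) (jac : m.Jac) (had : m.Had lg) (act : Act m Γ O) (bs : Bs m lg Γ)
    (A : ℝ) : ∃ C : ℝ, 0 ≤ C ∧ ∀ (w : W) (x : V), ‖w.2‖ = 1 → ‖lg (w.1, x)‖ ≤ A →
      ‖lg (x, (m.Z (-1) w).1)‖ + ‖lg (x, (m.Z 1 w).1)‖ - 2 ≤ C * ‖lg (w.1, x)‖ ^ 2 := by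
  obtain ⟨K, hK, hK'⟩ := act.cpt
  obtain ⟨R₀, hR₀⟩ := hK.isBounded.exists_norm_le
  obtain ⟨R₁, hR₁⟩ := bs.bdd (max R₀ (max A 1))
  obtain ⟨c, c0, hc⟩ := H38.tay_ball (sq_c2 ok had) (max R₀ R₁)
  obtain ⟨d, d0, hd⟩ := bs.euc (max R₀ R₁)
  refine ⟨2 * c * d ^ 2, by positivity, fun w x hw hx => ?_⟩
  obtain ⟨γ, hγ⟩ := hK' w.1
  have k : ∀ t, γ • (m.Z t w).1 = (m.Z t (ac O γ w)).1 := fun t =>
    (congrArg Prod.fst (act.flow γ t w)).symm
  have n2 : ‖(ac O γ w).2‖ = 1 := by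
    change ‖O γ w.1 w.2‖ = 1
    rw [LinearIsometryEquiv.norm_map, hw]
  have n1 : ‖(ac O γ w).1‖ ≤ R₀ := hR₀ _ hγ
  have e0 : ‖lg (w.1, x)‖ = ‖lg ((ac O γ w).1, γ • x)‖ := (bs.eqv γ _ _).symm
  rw [← bs.eqv γ x, ← bs.eqv γ x, k, k, e0]
  rw [e0] at hx
  generalize ac O γ w = u at *
  generalize γ • x = y at *
  have hy : ‖y‖ ≤ R₁ := hR₁ _ _ (le_max_of_le_left n1)
    (le_max_of_le_right (le_max_of_le_left hx))
  have l1 : lg (u.1, (m.Z 1 u).1) = u.2 := had.xe u.1 u.2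
  have l2 : lg (u.1, (m.Z (-1) u).1) = -u.2 := by
    have h1 := jac.scale 1 (-1) u.1 u.2
    have h2 := had.xe u.1 ((-1 : ℝ) • u.2)
    rw [h1] at h2
    simpa using h2
  have hp : ∀ p : V, ‖lg (u.1, p)‖ = 1 → ‖lg (y, p)‖ ^ 2 / 2 ≤
      1 / 2 - ⟪lg (u.1, p), m.S u.1 (y - u.1)⟫ + c * ‖y - u.1‖ ^ 2 := by
    intro p h1
    have h2 : ‖p‖ ≤ R₁ := hR₁ _ _ (le_max_of_le_left n1)
      (le_max_of_le_right (le_max_of_le_right h1.le))
    have h3 := hc (u.1, p) (y, p)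
      (by rw [Prod.norm_def]; exact max_le_max n1 h2)
      (by rw [Prod.norm_def]; exact max_le (le_max_of_le_right hy) (le_max_of_le_right h2))
    have h4 : ((y, p) : W) - (u.1, p) = (y - u.1, 0) := by simp
    rw [h4, had.grad, h1, Real.norm_eq_abs] at h3
    have h5 : ‖((y - u.1, 0) : W)‖ = ‖y - u.1‖ := by simp [Prod.norm_def]
    rw [h5] at h3
    simp only [map_zero, inner_zero_right] at h3
    linarith [(abs_le.1 h3).2]
  have p1 := hp (m.Z 1 u).1 (by rw [l1, n2])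
  have p2 := hp (m.Z (-1) u).1 (by rw [l2, norm_neg, n2])
  rw [l1] at p1
  rw [l2, inner_neg_left] at p2
  have q1 := (hd u.1 y (le_max_of_le_left n1) (le_max_of_le_right hy)).1
  have q2 : ‖y - u.1‖ ^ 2 ≤ (d * ‖lg (u.1, y)‖) ^ 2 := by gcongr
  have q3 := mul_le_mul_of_nonneg_left q2 c0
  nlinarith [sq_nonneg (‖lg (y, (m.Z 1 u).1)‖ - 1), sq_nonneg (‖lg (y, (m.Z (-1) u).1)‖ - 1)]

end Pool.Agent.MP_3ee8cb_gt.DNB2.H23
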