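import Pool.Agent.MP_3ee8cb_gt.DNC0.RDer
import Pool.Agent.MP_3ee8cb_gt.DNB2.H23Tel

/-! Small estimates on the distance, the direction map and the symplectic form. -/

namespace Pool.Agent.MP_3ee8cb_gt.DNB2.H23

open DN (Dim dm)

variable [Dim]

open Set Filter Topology Real DN DNC0
open scoped RealInnerProductSpace

variable {m : MF} {lg : W → V} {Γ : Type} [Group Γ] [MulAction Γ V] {O : Γ → V → V ≃ₗᵢ[ℝ] V}
  {a b : ℝ}

/-- The distance is at most the length. -/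
theorem len_le (had : m.Had lg) (bs : Bs m lg Γ) {c c' : ℝ → V} {M : ℝ}
    (hc : ∀ r ∈ Icc (0 : ℝ) 1, HasDerivAt c (c' r) r ∧ ‖m.S (c r) (c' r)‖ ≤ M) {t : ℝ}
    (ht : t ∈ Icc (0 : ℝ) 1) : ‖lg (c t, c 0)‖ ≤ M := by
  have M0 : 0 ≤ M := (norm_nonneg _).trans (hc 0 (by simp)).2
  have h1 : Differentiable ℝ fun q : W => ‖lg q‖ ^ 2 / 2 :=
    ((had.c1.norm_sq ℝ).div_const 2).differentiable one_ne_zero
  refine le_of_forall_pos_le_add fun ε hε => ?_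
  have pos : ∀ r, 0 < 2 * (‖lg (c r, c 0)‖ ^ 2 / 2) + ε ^ 2 := fun r => by positivity
  have hd : ∀ r ∈ Icc (0 : ℝ) 1, ∃ d, HasDerivWithinAt
      (fun r => √(2 * (‖lg (c r, c 0)‖ ^ 2 / 2) + ε ^ 2)) d (Icc 0 1) r ∧ ‖d‖ ≤ M := by
    intro r hr
    have h2 := (h1 (c r, c 0)).hasFDerivAt.comp_hasDerivAt r
      ((hc r hr).1.prodMk (hasDerivAt_const r (c 0)))
    rw [had.grad] at h2
    have h3 := ((h2.const_mul 2).add_const (ε ^ 2)).sqrt (pos r).ne'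
    refine ⟨_, h3.hasDerivWithinAt, ?_⟩
    have h4 : ‖lg (c r, c 0)‖ ≤ √(2 * (‖lg (c r, c 0)‖ ^ 2 / 2) + ε ^ 2) :=
      le_sqrt_of_sq_le (by nlinarith [sq_nonneg ε])
    have h5 := (abs_real_inner_le_norm (lg (c r, c 0)) (m.S (c r) (c' r))).trans
      (mul_le_mul h4 (hc r hr).2 (norm_nonneg _) (sqrt_nonneg _))
    have h6 := sqrt_pos.2 (pos r)
    simp only [map_zero, inner_zero_right, sub_zero, Function.comp_apply, Real.norm_eq_abs]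
    rw [abs_div, abs_mul, abs_neg, abs_mul, abs_two, abs_of_pos h6, div_le_iff₀ (by positivity)]
    nlinarith
  choose! d h1 h2 using hd
  have h3 := (convex_Icc (0 : ℝ) 1).norm_image_sub_le_of_norm_hasDerivWithin_le h1 h2
    (left_mem_Icc.2 zero_le_one) ht
  rw [bs.self, norm_zero, Real.norm_eq_abs, Real.norm_eq_abs, sub_zero t, abs_of_nonneg ht.1] at h3
  have h4 : √(2 * ((0 : ℝ) ^ 2 / 2) + ε ^ 2) = ε := by
    rw [show 2 * ((0 : ℝ) ^ 2 / 2) + ε ^ 2 = ε ^ 2 by ring, sqrt_sq hε.le]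
  have h5 : ‖lg (c t, c 0)‖ ≤ √(2 * (‖lg (c t, c 0)‖ ^ 2 / 2) + ε ^ 2) :=
    le_sqrt_of_sq_le (by nlinarith [sq_nonneg ε])
  rw [h4] at h3
  nlinarith [(abs_le.1 h3).2, mul_le_mul_of_nonneg_left ht.2 M0]

/-- The direction map on a short chord. -/
theorem chord {z p : W} {s t : ℝ} (hz : ‖z.2‖ = 1) (hp : ‖p.2‖ = 1) (hs : ‖p - z‖ ≤ s)
    (s1 : s ≤ 1 / 2) (ht : t ∈ Icc (0 : ℝ) 1) : (z + t • (p - z)).2 ≠ 0 ∧
      ‖nz (z + t • (p - z)) - z‖ ≤ 2 * s ∧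
      ‖fderiv ℝ nz (z + t • (p - z)) (p - z) - (p - z)‖ ≤ 6 * s ^ 2 := by
  have s0 : 0 ≤ s := (norm_nonneg _).trans hs
  have hp' : p.2 = z.2 + (p - z).2 := by simp
  generalize p - z = ξ at *
  have x1 : ‖ξ.1‖ ≤ s := (norm_fst_le ξ).trans hs
  have x2 : ‖ξ.2‖ ≤ s := (norm_snd_le ξ).trans hs
  have e2 : (z + t • ξ).2 = z.2 + t • ξ.2 := rfl
  have n1 : ‖t • ξ.2‖ ≤ s := by
    rw [norm_smul, Real.norm_of_nonneg ht.1]
    nlinarith [ht.1, ht.2, norm_nonneg ξ.2]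
  have n2 : |‖z.2 + t • ξ.2‖ - 1| ≤ s := by
    have := abs_norm_sub_norm_le (z.2 + t • ξ.2) z.2
    rw [hz, add_sub_cancel_left] at this
    exact this.trans n1
  have n3 : |⟪z.2 + t • ξ.2, ξ.2⟫| ≤ s ^ 2 := by
    have h1 : ‖z.2 + ξ.2‖ ^ 2 = 1 := by rw [← hp', hp, one_pow]
    rw [norm_add_sq_real, hz] at h1
    have h2 : ‖ξ.2‖ ^ 2 ≤ s ^ 2 := by gcongr
    rw [inner_add_left, real_inner_smul_left, real_inner_self_eq_norm_sq, abs_le]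
    constructor <;> nlinarith [ht.1, ht.2, sq_nonneg ‖ξ.2‖]
  have ne : (z + t • ξ).2 ≠ 0 := by
    rw [e2, ← norm_pos_iff]
    linarith [(abs_le.1 n2).1]
  refine ⟨ne, ?_, ?_⟩
  · rw [Prod.norm_def]
    refine max_le ?_ ?_
    · have : (nz (z + t • ξ) - z).1 = t • ξ.1 := by simp [nz]
      rw [this, norm_smul, Real.norm_of_nonneg ht.1]
      nlinarith [ht.1, ht.2, norm_nonneg ξ.1]
    · have : (nz (z + t • ξ) - z).2 = (‖z.2 + t • ξ.2‖⁻¹ - 1) • (z.2 + t • ξ.2) + t • ξ.2 := by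
        change ‖z.2 + t • ξ.2‖⁻¹ • (z.2 + t • ξ.2) - z.2 = _
        rw [sub_smul, one_smul]
        abel
      rw [this]
      refine (norm_add_le _ _).trans ?_
      have v0 : 0 < ‖z.2 + t • ξ.2‖ := norm_pos_iff.2 ne
      have : ‖(‖z.2 + t • ξ.2‖⁻¹ - 1) • (z.2 + t • ξ.2)‖ = |‖z.2 + t • ξ.2‖ - 1| := by
        rw [norm_smul, Real.norm_eq_abs, ← abs_of_pos v0, ← abs_mul, abs_of_pos v0, abs_sub_comm]
        congr 1
        field_simp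
      linarith
  · rw [(RDer.d_nz ne).2, e2]
    have v0 : 0 < ‖z.2 + t • ξ.2‖ := norm_pos_iff.2 ne
    generalize z.2 + t • ξ.2 = v at *
    have i1 : ‖v‖⁻¹ ≤ 2 := inv_le_of_inv_le₀ two_pos (by linarith [(abs_le.1 n2).1])
    have i0 : 0 < ‖v‖⁻¹ := inv_pos.2 v0
    have e : ((ξ.1, ‖v‖⁻¹ • ξ.2 - (‖v‖⁻¹ ^ 3 * ⟪v, ξ.2⟫) • v) : W) - ξ =
        (0, (‖v‖⁻¹ - 1) • ξ.2 - (‖v‖⁻¹ ^ 3 * ⟪v, ξ.2⟫) • v) := by
      refine Prod.ext (by simp) ?_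
      simp only [Prod.snd_sub, sub_smul, one_smul]
      abel
    rw [e, Prod.norm_def, norm_zero]
    refine max_le (by positivity) ((norm_sub_le _ _).trans ?_)
    have a1 : |‖v‖⁻¹ - 1| ≤ 2 * s := by
      have : ‖v‖⁻¹ - 1 = -(‖v‖⁻¹ * (‖v‖ - 1)) := by field_simp; ring
      rw [this, abs_neg, abs_mul, abs_of_pos i0]
      gcongr
    have a2 : ‖(‖v‖⁻¹ - 1) • ξ.2‖ ≤ 2 * s * s := by
      rw [norm_smul, Real.norm_eq_abs]
      gcongr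
    have a3 : ‖(‖v‖⁻¹ ^ 3 * ⟪v, ξ.2⟫) • v‖ ≤ 2 ^ 2 * s ^ 2 := by
      have : ‖(‖v‖⁻¹ ^ 3 * ⟪v, ξ.2⟫) • v‖ = ‖v‖⁻¹ ^ 2 * |⟪v, ξ.2⟫| := by
        rw [norm_smul, Real.norm_eq_abs, abs_mul, abs_of_pos (pow_pos i0 3)]
        field_simp
      rw [this]
      gcongr
    nlinarith

theorem hor_le (b0 : 0 < b) (z ξ : W) : ‖m.hor z ξ‖ ≤ b⁻¹ * nn m b z ξ := by
  rw [le_inv_mul_iff₀ b0]
  exact le_sqrt_of_sq_le (by nlinarith [sq_nonneg ‖m.ver z ξ‖])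

/-- Geodesics with close initial vectors diverge at most exponentially. -/
theorem spread (ok : m.OK) (had : m.Had lg) (bs : Bs m lg Γ) (jf : Jf m lg a b) (b0 : 0 < b)
    (R : ℝ) : ∃ C : ℝ, 0 ≤ C ∧ ∀ (z p : W) (s k : ℝ), ‖z‖ ≤ R → ‖z.2‖ = 1 → ‖p.2‖ = 1 →
      ‖p - z‖ ≤ s → s ≤ 1 / 2 → 0 ≤ k → ∀ t ∈ Icc (0 : ℝ) 1,
        df m lg (nz (z + t • (p - z))) z k ≤ C * s * exp (b * k) := by
  obtain ⟨c, c0, hc⟩ := jf.omb (R + 1)
  refine ⟨b⁻¹ * (c * 4), by positivity, fun z p s k hR hz hp hs s1 k0 t ht => ?_⟩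
  have s0 : 0 ≤ s := (norm_nonneg _).trans hs
  have h := len_le had bs (c := fun r => (m.Z k (nz (z + r • (p - z)))).1)
    (c' := fun r => (fderiv ℝ (m.Z k) (nz (z + r • (p - z)))
      (fderiv ℝ nz (z + r • (p - z)) (p - z))).1) (M := b⁻¹ * (c * 4) * s * exp (b * k))
    (fun r hr => ?_) ht
  · simpa only [df, zero_smul, add_zero, RDer.nz_eq hz] using h
  obtain ⟨ne, h1, h2⟩ := chord hz hp hs s1 hr
  have d0 : HasDerivAt (fun r : ℝ => z + r • (p - z)) (p - z) r := by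
    simpa using ((hasDerivAt_id r).smul_const (p - z)).const_add z
  have d1 := (RDer.d_nz ne).1.hasFDerivAt.comp_hasDerivAt r d0
  have d2 := (H38.z_diff ok k _).hasFDerivAt.comp_hasDerivAt r d1
  refine ⟨(ContinuousLinearMap.fst ℝ V V).hasFDerivAt.comp_hasDerivAt r d2, ?_⟩
  have n1 : ‖nz (z + r • (p - z))‖ ≤ R + 1 := by
    have := norm_le_insert' (nz (z + r • (p - z))) z
    linarith
  have n2 : ‖fderiv ℝ nz (z + r • (p - z)) (p - z)‖ ≤ 4 * s := by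
    have := norm_le_insert' (fderiv ℝ nz (z + r • (p - z)) (p - z)) (p - z)
    nlinarith
  have g := jf.grow _ (fderiv ℝ nz (z + r • (p - z)) (p - z)) k (RDer.unit ne) k0
  have g2 := (hc _ (fderiv ℝ nz (z + r • (p - z)) (p - z)) 0 n1).2.trans
    (mul_le_mul_of_nonneg_left n2 c0)
  refine (hor_le b0 _ _).trans ?_
  calc _ ≤ b⁻¹ * (exp (b * k) * (c * (4 * s))) := mul_le_mul_of_nonneg_left
        (g.trans (mul_le_mul_of_nonneg_left g2 (exp_pos _).le)) (by positivity)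
    _ = _ := by ring

/-- Two rays from one point that are close at a later time. -/
theorem rays (ok : m.OK) (jac : m.Jac) (had : m.Had lg) (B : ℝ) : ∃ C : ℝ, 0 ≤ C ∧
    ∀ (y n n' : V) (τ τ' k η : ℝ), ‖y‖ ≤ B → ‖n‖ = 1 → ‖n'‖ = 1 → |τ| ≤ 1 → |τ'| ≤ 1 →
      2 ≤ k → ‖lg ((m.Z (k + τ) (y, n)).1, (m.Z (k + τ') (y, n')).1)‖ ≤ η →
      ‖m.Z τ (y, n) - m.Z τ' (y, n')‖ ≤ C * η := by
  obtain ⟨c, c0, hc⟩ := H38.lip_ball ok.cZ (max B 1)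
  refine ⟨2 * c, by positivity, fun y n n' τ τ' k η hy hn hn' h1 h2 hk h => ?_⟩
  have η0 : 0 ≤ η := (norm_nonneg _).trans h
  have g := had.hinge y ((k + τ) • n) ((k + τ') • n')
  rw [jac.scale, jac.scale, mul_one, mul_one] at g
  replace g := g.trans h
  have p1 : 1 ≤ k + τ := by linarith [(abs_le.1 h1).1]
  have p2 : 1 ≤ k + τ' := by linarith [(abs_le.1 h2).1]
  have a1 : |τ - τ'| ≤ η := by
    have := (abs_norm_sub_norm_le _ _).trans g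
    rwa [norm_smul, norm_smul, hn, hn', mul_one, mul_one, Real.norm_of_nonneg (by linarith),
      Real.norm_of_nonneg (by linarith), add_sub_add_left_eq_sub] at this
  have a2 : ‖n - n'‖ ≤ 2 * η := by
    have e : (k + τ) • (n - n') = ((k + τ) • n - (k + τ') • n') - (τ - τ') • n' := by
      simp only [smul_sub, add_smul, sub_smul]
      abel
    have := norm_sub_le ((k + τ) • n - (k + τ') • n') ((τ - τ') • n')
    rw [← e, norm_smul, norm_smul, hn', mul_one, Real.norm_of_nonneg (by linarith),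
      Real.norm_eq_abs] at this
    nlinarith [norm_nonneg (n - n')]
  have nb : ∀ (σ : ℝ) (v : V), |σ| ≤ 1 → ‖v‖ = 1 → ‖((σ, y, v) : ℝ × W)‖ ≤ max B 1 :=
    fun σ v h3 h4 => by
      rw [Prod.norm_def, Prod.norm_def]
      exact max_le (le_max_of_le_right h3) (max_le_max hy h4.le)
  have a3 : ‖((τ, y, n) : ℝ × W) - (τ', y, n')‖ ≤ 2 * η := by
    rw [Prod.norm_def, Prod.norm_def]
    refine max_le (le_trans a1 (by linarith)) (max_le (by simp; linarith) a2)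
  have a4 := (hc _ _ (nb τ' n' h2 hn') (nb τ n h1 hn)).trans (mul_le_mul_of_nonneg_left a3 c0)
  linarith

/-- The contact form and the symplectic form depend in a Lipschitz way on their arguments. -/
theorem bil (ok : m.OK) (R : ℝ) : ∃ C : ℝ, 0 ≤ C ∧ ∀ w z ζ ξ η η' : W, ‖w‖ ≤ R → ‖z‖ ≤ R →
    |⟪m.hor w ζ, w.2⟫ - ⟪m.hor z ξ, z.2⟫| ≤ C * (‖w - z‖ * ‖ξ‖ + ‖ζ - ξ‖) ∧
    |om m w ζ η - om m z ξ η'| ≤
      C * ((‖w - z‖ * ‖ξ‖ + ‖ζ - ξ‖) * ‖η‖ + ‖ξ‖ * ‖η - η'‖) := by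
  have h1 : ContDiff ℝ 1 m.hor :=
    ((ok.cS.of_le (by norm_num)).comp contDiff_fst).clm_comp contDiff_const
  have h2 : ContDiff ℝ 1 m.ver := by
    refine contDiff_const.add (ContDiff.clm_comp ?_ contDiff_const)
    exact (((ContinuousLinearMap.flipₗᵢ ℝ V V V).contDiff.comp
      (ok.com.comp contDiff_fst))).clm_apply contDiff_snd
  obtain ⟨A₁, A1, hA₁⟩ := H38.bdd_ball h1.continuous R
  obtain ⟨A₂, A2, hA₂⟩ := H38.bdd_ball h2.continuous R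
  obtain ⟨A₃, A3, hA₃⟩ := H38.lip_ball h1 R
  obtain ⟨A₄, A4, hA₄⟩ := H38.lip_ball h2 R
  have R0 := abs_nonneg R
  obtain ⟨D, hD⟩ : ∃ D, D = A₁ + A₂ + A₃ + A₄ + |R| := ⟨_, rfl⟩
  have D0 : 0 ≤ D := by rw [hD]; positivity
  have key : ∀ F : W → W →L[ℝ] V, (∀ p, ‖p‖ ≤ R → ‖F p‖ ≤ D) →
      (∀ p q, ‖p‖ ≤ R → ‖q‖ ≤ R → ‖F q - F p‖ ≤ D * ‖q - p‖) → ∀ w z ζ ξ : W, ‖w‖ ≤ R →
      ‖z‖ ≤ R → ‖F w ζ - F z ξ‖ ≤ D * (‖w - z‖ * ‖ξ‖ + ‖ζ - ξ‖) ∧ ‖F z ξ‖ ≤ D * ‖ξ‖ := by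
    intro F f1 f2 w z ζ ξ hw hz
    have e : F w ζ - F z ξ = (F w - F z) ξ + F w (ζ - ξ) := by
      rw [map_sub, sub_apply]
      abel
    have a1 := (F w - F z).le_of_opNorm_le (f2 z w hz hw) ξ
    have a2 := (F w).le_of_opNorm_le (f1 w hw) (ζ - ξ)
    refine ⟨?_, (F z).le_of_opNorm_le (f1 z hz) ξ⟩
    rw [e]
    linarith [norm_add_le ((F w - F z) ξ) (F w (ζ - ξ))]
  have kh := key m.hor (fun p hp => (hA₁ p hp).trans (by linarith)) fun p q hp hq =>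
    (hA₃ p q hp hq).trans (mul_le_mul_of_nonneg_right (by linarith) (norm_nonneg _))
  have kv := key m.ver (fun p hp => (hA₂ p hp).trans (by linarith)) fun p q hp hq =>
    (hA₄ p q hp hq).trans (mul_le_mul_of_nonneg_right (by linarith) (norm_nonneg _))
  have inn : ∀ (x x' y y' : V) (α β γ δ : ℝ), ‖x - x'‖ ≤ α → ‖y‖ ≤ β → ‖x'‖ ≤ γ → ‖y - y'‖ ≤ δ →
      |⟪x, y⟫ - ⟪x', y'⟫| ≤ α * β + γ * δ := by
    intro x x' y y' α β γ δ h1 h2 h3 h4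
    have e : ⟪x, y⟫ - ⟪x', y'⟫ = ⟪x - x', y⟫ + ⟪x', y - y'⟫ := by
      rw [inner_sub_left, inner_sub_right]
      ring
    rw [e]
    exact (abs_add_le _ _).trans (add_le_add ((abs_real_inner_le_norm _ _).trans
      (mul_le_mul h1 h2 (norm_nonneg _) ((norm_nonneg _).trans h1)))
      ((abs_real_inner_le_norm _ _).trans
        (mul_le_mul h3 h4 (norm_nonneg _) ((norm_nonneg _).trans h3))))
  refine ⟨4 * D ^ 2 + D, by positivity, fun w z ζ ξ η η' hw hz => ?_⟩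
  obtain ⟨a1, a2⟩ := kh w z ζ ξ hw hz
  obtain ⟨a3, a4⟩ := kv w z ζ ξ hw hz
  have n1 := norm_nonneg (w - z)
  have n2 := norm_nonneg ξ
  have n3 := norm_nonneg (ζ - ξ)
  have n4 := norm_nonneg η
  have n5 := norm_nonneg (η - η')
  have n6 := mul_nonneg n1 n2
  constructor
  · have b1 : ‖w.2‖ ≤ D := ((norm_snd_le w).trans hw).trans ((le_abs_self R).trans (by linarith))
    have b2 := inn _ _ _ _ _ _ _ _ a1 b1 a2 (norm_snd_le (w - z))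
    refine b2.trans ?_
    nlinarith [mul_nonneg (sq_nonneg D) (add_nonneg n6 n3), mul_nonneg D0 n3]
  · obtain ⟨c1, -⟩ := kh w z η η' hw hz
    obtain ⟨c3, -⟩ := kv w z η η' hw hz
    have c2 := (kh w w η η hw hw).2
    have c4 := (kv w w η η hw hw).2
    have c5 : ‖η'‖ ≤ ‖η‖ + ‖η - η'‖ := norm_le_insert η η'
    have c6 : ‖m.hor w η - m.hor z η'‖ ≤ D * (‖w - z‖ * ‖η‖ + ‖η - η'‖) := by
      have := (kh z w η' η hz hw).1
      rwa [norm_sub_rev (m.hor z η'), norm_sub_rev z, norm_sub_rev η'] at this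
    have c7 : ‖m.ver w η - m.ver z η'‖ ≤ D * (‖w - z‖ * ‖η‖ + ‖η - η'‖) := by
      have := (kv z w η' η hz hw).1
      rwa [norm_sub_rev (m.ver z η'), norm_sub_rev z, norm_sub_rev η'] at this
    have b1 := inn _ _ _ _ _ _ _ _ a1 c4 a2 c7
    have b2 := inn _ _ _ _ _ _ _ _ a3 c2 a4 c6
    have e : om m w ζ η - om m z ξ η' = (⟪m.hor w ζ, m.ver w η⟫ - ⟪m.hor z ξ, m.ver z η'⟫) -
        (⟪m.ver w ζ, m.hor w η⟫ - ⟪m.ver z ξ, m.hor z η'⟫) := by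
      unfold om
      ring
    rw [e]
    refine (abs_sub _ _).trans ((add_le_add b1 b2).trans ?_)
    nlinarith [mul_nonneg (sq_nonneg D) (mul_nonneg n3 n4),
      mul_nonneg (sq_nonneg D) (mul_nonneg n2 n5),
      mul_nonneg D0 (add_nonneg (mul_nonneg (add_nonneg n6 n3) n4) (mul_nonneg n2 n5))]

end Pool.Agent.MP_3ee8cb_gt.DNB2.H23
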