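import Pool.Agent.MP_3ee8cb_gt.DNB2.Spec
import Pool.Agent.MP_3ee8cb_gt.DNB2.H23Kit

/-! Rows CLO and E1. -/

namespace Pool.Agent.MP_3ee8cb_gt.DNB2

open DN (Dim dm)

variable [Dim]

open Set Filter Topology Real DN DNC0
open scoped RealInnerProductSpace

namespace RE1

omit [Dim] in
theorem mix {s l κ : ℝ} (s0 : 0 < s) (sl : s ≤ l) (k0 : 0 ≤ κ) (k1 : κ ≤ 1) :
    s ≤ s ^ κ * l ^ (1 - κ) ∧ s ^ κ * l ^ (1 - κ) ≤ l := by
  have l0 : 0 < l := s0.trans_le sl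
  constructor
  · calc s = s ^ κ * s ^ (1 - κ) := by rw [← rpow_add s0, add_sub_cancel, rpow_one]
      _ ≤ _ := by gcongr
  · calc _ ≤ l ^ κ * l ^ (1 - κ) := by gcongr
      _ = l := by rw [← rpow_add l0, add_sub_cancel, rpow_one]

omit [Dim] in
theorem rate {a b s l K : ℝ} (a0 : 0 < a) (b0 : 0 < b) (s0 : 0 < s) (sl : s ≤ l) (l1 : l ≤ 1)
    (l2 : l ≤ exp (-(b * 2))) (hK : 1 ≤ s * exp (b * K)) : 2 ≤ K ∧ ∃ j, 2 ≤ j ∧ j ≤ K ∧
      l * exp (-(a * j)) ≤ s ^ (a / (a + b)) * l ^ (1 - a / (a + b)) ∧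
      s * exp (b * j) ≤ exp (b * 2) * (s ^ (a / (a + b)) * l ^ (1 - a / (a + b))) := by
  have l0 : 0 < l := s0.trans_le sl
  have K2 : (2 : ℝ) ≤ K := by
    have h' := hK.trans (mul_le_mul_of_nonneg_right (sl.trans l2) (exp_pos _).le)
    rw [← exp_add, one_le_exp_iff] at h'
    nlinarith
  have ab : 0 < a + b := by linarith
  obtain ⟨k, hk⟩ : ∃ k, k = (log l - log s) / (a + b) := ⟨_, rfl⟩
  have lg1 : log s ≤ log l := log_le_log s0 sl
  have k0 : 0 ≤ k := hk ▸ div_nonneg (by linarith) ab.le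
  have kK : k ≤ K := by
    have h := log_nonneg hK
    rw [log_mul s0.ne' (exp_pos _).ne', log_exp] at h
    have h' : log l ≤ 0 := log_nonpos l0.le l1
    rw [hk, div_le_iff₀ ab]
    nlinarith
  obtain ⟨η, hη⟩ : ∃ η, η = s ^ (a / (a + b)) * l ^ (1 - a / (a + b)) := ⟨_, rfl⟩
  have e0 : η = exp (log s * (a / (a + b)) + log l * (1 - a / (a + b))) := by
    rw [hη, rpow_def_of_pos s0, rpow_def_of_pos l0, exp_add]
  have e1 : l * exp (-(a * k)) = η := by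
    rw [e0, ← exp_log l0, ← exp_add, log_exp, hk]
    congr 1
    field_simp
    ring
  have e2 : s * exp (b * k) = η := by
    rw [e0, ← exp_log s0, ← exp_add, log_exp, hk]
    congr 1
    field_simp
    ring
  rw [← hη]
  have x1 : exp (-(a * max k 2)) ≤ exp (-(a * k)) :=
    exp_le_exp.2 (by nlinarith [le_max_left k 2])
  have x2 : exp (b * max k 2) ≤ exp (b * 2) * exp (b * k) := by
    rw [← exp_add]
    exact exp_le_exp.2 (by nlinarith [max_le (by linarith : k ≤ k + 2) (by linarith : 2 ≤ k + 2)])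
  refine ⟨K2, max k 2, le_max_right _ _, max_le kK K2, e1 ▸ mul_le_mul_of_nonneg_left x1 l0.le,
    (mul_le_mul_of_nonneg_left x2 s0.le).trans (le_of_eq ?_)⟩
  rw [← e2]
  ring

omit [Dim] in
theorem pick {a b s σ : ℝ} (b0 : 0 < b) (s0 : 0 < s) (s1 : s ≤ 1) (σ0 : 0 < σ) (σ1 : σ ≤ 1)
    (σ2 : b * σ < 2 * a) : ∃ K : ℕ, 1 ≤ 2 * s * exp (b * K) ∧
      s * exp (b * (1 - σ) * K) ≤ exp b * s ^ σ ∧ exp (-(2 * a * K)) ≤ s ^ σ := by
  have ls : log s ≤ 0 := log_nonpos s0.le s1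
  obtain ⟨K, hK⟩ : ∃ K : ℕ, K = ⌈-log s / b⌉₊ := ⟨_, rfl⟩
  have K1 : -log s ≤ b * K := by
    rw [← div_le_iff₀' b0, hK]
    exact Nat.le_ceil _
  have K2 : b * K ≤ -log s + b := by
    have := (Nat.ceil_lt_add_one (div_nonneg (neg_nonneg.2 ls) b0.le)).le
    rw [← hK] at this
    have h := mul_le_mul_of_nonneg_left this b0.le
    rwa [mul_add, mul_one, mul_div_cancel₀ _ b0.ne'] at h
  refine ⟨K, ?_, ?_, ?_⟩
  · have : 1 ≤ s * exp (b * K) := by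
      rw [← exp_log s0, ← exp_add]
      exact one_le_exp (by linarith)
    linarith
  · rw [rpow_def_of_pos s0, ← exp_add]
    nth_rewrite 1 [← exp_log s0]
    rw [← exp_add]
    exact exp_le_exp.2 (by nlinarith [mul_le_mul_of_nonneg_left K2 (sub_nonneg.2 σ1)])
  · rw [rpow_def_of_pos s0]
    exact exp_le_exp.2 (by nlinarith [mul_le_mul_of_nonneg_left K1 σ0.le,
      mul_le_mul_of_nonneg_right σ2.le (Nat.cast_nonneg (α := ℝ) K)])

omit [Dim] in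
theorem alg {s l η c x y u v : ℝ} (s0 : 0 < s) (l2 : l ≤ 1 / 2) (c0 : 0 ≤ c) (η1 : s ≤ η)
    (η2 : η ≤ l) (y0 : 0 ≤ y) (hx : x ≤ 2 * s) (hy : y ≤ s) (hu : u ≤ 6 * s ^ 2)
    (hv : v ≤ (c * 2 + 2) * η + l) : x * y + u ≤ 8 * (s * η) ∧ v ≤ c * 2 + 3 ∧
      y + u ≤ 4 * s ∧ 0 ≤ s * η := by
  have h1 := mul_le_mul hx hy y0 (by linarith)
  have h2 := mul_le_mul_of_nonneg_left η1 s0.le
  have h3 : c * η ≤ c * 1 := mul_le_mul_of_nonneg_left (by linarith) c0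
  refine ⟨by nlinarith, by nlinarith, by nlinarith, by nlinarith⟩

theorem lip {m : MF} {lg : W → V} {Γ : Type} [Group Γ] [MulAction Γ V] (had : m.Had lg)
    (bs : Bs m lg Γ) (R : ℝ) : ∃ L : ℝ, 0 ≤ L ∧ ∀ z p : W, ‖z‖ ≤ R → ‖p‖ ≤ R →
      ‖lg (z.1, p.1)‖ ≤ L * ‖p - z‖ := by
  obtain ⟨L, L0, hL⟩ := H38.lip_ball had.c1 R
  refine ⟨L, L0, fun z p hz hp => ?_⟩
  have z1 := (norm_fst_le z).trans hz
  have := hL (z.1, z.1) (z.1, p.1) (by rw [Prod.norm_def]; exact max_le z1 z1)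
    (by rw [Prod.norm_def]; exact max_le z1 ((norm_fst_le p).trans hp))
  rw [bs.self, sub_zero] at this
  refine this.trans (mul_le_mul_of_nonneg_left ?_ L0)
  rw [Prod.norm_def]
  exact max_le (by simp) (norm_fst_le (p - z))

end RE1

open RE1

theorem clo : SCLO := by
  intro m lg Γ _ _ O a b N β bs jf sgm asy grw R
  have a0 := N.a0
  have b0 : 0 < b := a0.trans_le N.ab
  obtain ⟨L, L0, hL⟩ := lip N.had bs (R + 1)
  obtain ⟨c₁, c1, h1⟩ := sgm 1 zero_le_one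
  obtain ⟨c₂, c2, h2⟩ := grw R
  obtain ⟨c₃, c3, h3⟩ := asy.dec 1
  obtain ⟨B, hB⟩ := bs.bdd (max (R + 1) 1)
  obtain ⟨c₄, c4, h4⟩ := H23.rays N.ok N.jac N.had B
  refine ⟨2 * L + 1 + c₄ * (c₁ * (2 * L + 1) + c₂ * exp (b * 2) + c₃ * L),
    min (min (2 * L + 1)⁻¹ (1 / 2)) (exp (-(b * 2))), by positivity, by positivity,
    fun z p u s l τ K hR hz hp hu fw s0 sl l1 hs hl hτ hK => ?_⟩
  have l0 : 0 < l := s0.trans_le sl
  have l2 : l ≤ 1 / 2 := l1.trans ((min_le_left _ _).trans (min_le_right _ _))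
  have l3 : (2 * L + 1) * l ≤ 1 := by
    have := l1.trans ((min_le_left _ _).trans (min_le_left _ _))
    rwa [le_inv_comm₀ l0 (by positivity), le_inv_comm₀ (by positivity) l0, ← one_div,
      le_div_iff₀' (by positivity)] at this
  obtain ⟨K2, j, j2, jK, x1, x2⟩ := rate a0 b0 s0 sl (by linarith) (l1.trans (min_le_right _ _)) hK
  generalize s ^ (a / (a + b)) * l ^ (1 - a / (a + b)) = η at x1 x2 ⊢
  have np : ‖p‖ ≤ R + 1 := by linarith [norm_le_insert' p z]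
  have nu : ‖u‖ ≤ R + 1 := by linarith [norm_le_insert' u z]
  have d1 := (hL z p (by linarith) np).trans (mul_le_mul_of_nonneg_left (hs.trans sl) L0)
  have d2 := (hL z u (by linarith) nu).trans (mul_le_mul_of_nonneg_left hl L0)
  have d3 := bs.geo u 0 τ
  rw [N.ok.zero, hu, mul_one, zero_sub, abs_neg] at d3
  have d4 : ‖lg (p.1, (m.Z τ u).1)‖ ≤ (2 * L + 1) * l := by
    have t1 := N.had.tri p.1 z.1 (m.Z τ u).1
    have t2 := N.had.tri z.1 u.1 (m.Z τ u).1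
    rw [bs.symm p.1 z.1] at t1
    linarith
  have q0 : 0 ≤ c₄ * (c₁ * (2 * L + 1) + c₂ * exp (b * 2) + c₃ * L) := by positivity
  refine ⟨by exact_mod_cast (show (1 : ℝ) < K by linarith), d4.trans l3,
    d4.trans (mul_le_mul_of_nonneg_right (le_add_of_nonneg_right q0) l0.le), ?_⟩
  obtain ⟨ne, -, cd, -⟩ := h1 p (m.Z τ u).1 K hp (d4.trans l3) (by linarith)
  have η0 : 0 ≤ η := le_trans (by positivity) x1
  have j0 : 0 ≤ j := by linarith
  have f1 : df m lg p (sg m lg K p (m.Z τ u).1) j ≤ c₁ * (2 * L + 1) * η :=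
    (cd _ ⟨j0, jK⟩).trans (by
      calc _ ≤ c₁ * ((2 * L + 1) * l) * exp (-(a * j)) := by gcongr
        _ = c₁ * (2 * L + 1) * (l * exp (-(a * j))) := by ring
        _ ≤ _ := by gcongr)
  have f2 : df m lg z p j ≤ c₂ * exp (b * 2) * η :=
    (h2 z p _ hR hz hp (by linarith) j0).trans (by
      calc _ ≤ c₂ * s * exp (b * j) := by gcongr
        _ = c₂ * (s * exp (b * j)) := by ring
        _ ≤ c₂ * (exp (b * 2) * η) := by gcongr
        _ = _ := by ring)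
  have f0 : df m lg z u 0 ≤ L * l := by
    unfold df
    rwa [N.ok.zero, N.ok.zero]
  have f3 : df m lg z u j ≤ c₃ * L * η :=
    (h3 z u hz hu fw (by linarith [mul_nonneg L0 l0.le]) _ j0).trans (by
      calc _ ≤ c₃ * (L * l) * exp (-(a * j)) := by gcongr
        _ = c₃ * L * (l * exp (-(a * j))) := by ring
        _ ≤ _ := by gcongr)
  have ny : ‖(m.Z τ u).1‖ ≤ B := hB p.1 _ (le_max_of_le_left ((norm_fst_le p).trans np))
    (le_max_of_le_right (d4.trans l3))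
  have g1 := bs.geo p 0 K
  rw [N.ok.zero, hp, zero_sub, abs_neg, Nat.abs_cast, mul_one] at g1
  have τ1 : |‖lg ((m.Z τ u).1, (m.Z K p).1)‖ - K| ≤ 1 := by
    have t1 := N.had.tri p.1 (m.Z τ u).1 (m.Z K p).1
    have t2 := N.had.tri (m.Z τ u).1 p.1 (m.Z K p).1
    rw [bs.symm (m.Z τ u).1 p.1] at t2
    rw [abs_le]
    constructor <;> linarith
  have eu : m.Z (-τ) ((m.Z τ u).1, (m.Z τ u).2) = u := by
    rw [Prod.mk.eta, ← N.ok.add, neg_add_cancel, N.ok.zero]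
  have key := h4 (m.Z τ u).1 (nz ((m.Z τ u).1, lg ((m.Z τ u).1, (m.Z K p).1))).2 (m.Z τ u).2
    (‖lg ((m.Z τ u).1, (m.Z K p).1)‖ - K) (-τ) j
    ((c₁ * (2 * L + 1) + c₂ * exp (b * 2) + c₃ * L) * η) ny (RDer.unit ne)
    (by rw [N.jac.norm, hu]) τ1 (by rw [abs_neg]; linarith) j2 (by
      rw [N.ok.add, N.ok.add, eu]
      unfold df at f1 f2 f3
      have t1 := N.had.tri (m.Z j (sg m lg K p (m.Z τ u).1)).1 (m.Z j p).1
        (m.Z j u).1
      have t2 := N.had.tri (m.Z j p).1 (m.Z j z).1 (m.Z j u).1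
      rw [bs.symm] at f1 f2
      refine le_trans t1 ?_
      linarith)
  rw [eu] at key
  refine le_trans key ?_
  rw [← mul_assoc]
  exact mul_le_mul_of_nonneg_right (le_add_of_nonneg_left (by positivity)) η0

theorem e1 : SE1 := by
  intro m lg Γ _ _ O a b N β σ κ σ0 σ1 σ2 κ0 κ1 bs jf sgm der bz tel tru clo R
  have a0 := N.a0
  have b0 : 0 < b := a0.trans_le N.ab
  obtain ⟨c₁, c1, h1⟩ := sgm 1 zero_le_one
  obtain ⟨c₂, c2, h2⟩ := tel (R + 1) c₁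
  obtain ⟨c₃, c3, h3⟩ := tru
  obtain ⟨c₄, l₀, c4, l0p, h4⟩ := clo R
  obtain ⟨c₅, c5, h5⟩ := H23.bil N.ok (R + 1)
  obtain ⟨c₆, c6, h6⟩ := jf.omb (R + 1)
  obtain ⟨P, hP⟩ : ∃ P, P = c₂ * (c₆ * 4) * (c₁ * (c₄ * 2)) ^ 2 * exp b := ⟨_, rfl⟩
  obtain ⟨Q, hQ⟩ : ∃ Q, Q = c₅ * 8 + c₅ * (8 * (c₄ * 2 + 3) + (c₄ * 2 + 2)) := ⟨_, rfl⟩
  have P0 : 0 ≤ P := by rw [hP]; positivity
  have Q0 : 0 ≤ Q := by rw [hQ]; positivity
  refine ⟨P + 2 * (c₃ * (c₄ * 2) ^ 2) + Q, min (l₀ / 2) (1 / 2), by positivity, by positivity,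
    fun z p u s l τ hR hz hp hu fw s0 sl l1 hs hl hτ => ?_⟩
  have l0 : 0 < l := s0.trans_le sl
  have l2 : l ≤ 1 / 2 := l1.trans (min_le_right _ _)
  have l3 : 2 * l ≤ l₀ := by linarith [l1.trans (min_le_left _ _)]
  obtain ⟨K, K3, K4, K5⟩ := pick b0 s0 (by linarith) σ0 σ1 σ2
  obtain ⟨η, hη⟩ : ∃ η, η = s ^ κ * l ^ (1 - κ) := ⟨_, rfl⟩
  obtain ⟨η1, η2⟩ := mix s0 sl κ0.le κ1
  rw [← hη] at η1 η2
  have η3 : (2 * s) ^ κ * (2 * l) ^ (1 - κ) = 2 * η := by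
    rw [mul_rpow two_pos.le s0.le, mul_rpow two_pos.le l0.le, hη, mul_mul_mul_comm,
      ← rpow_add two_pos, add_sub_cancel, rpow_one]
  have er1 : er σ κ s l = s ^ σ * l ^ 2 + s * η := by
    rw [er, rpow_add s0, rpow_one, hη, mul_assoc]
  have σp : 0 ≤ s ^ σ := rpow_nonneg s0.le _
  have cl := fun (w : W) (h : ‖w.2‖ = 1) (h' : ‖w - z‖ ≤ 2 * s) =>
    h4 z w u (2 * s) (2 * l) τ K hR hz h hu fw (by linarith) (by linarith) l3 h' (by linarith)
      (by linarith) K3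
  have tr : ∀ w : W, ‖w.2‖ = 1 → ‖w - z‖ ≤ 2 * s →
      |bt m lg K w (m.Z τ u).1 - β w (m.Z τ u).1| ≤ c₃ * (c₄ * 2) ^ 2 * (s ^ σ * l ^ 2) := by
    intro w h h'
    obtain ⟨k1, k2, k3, -⟩ := cl w h h'
    refine (h3 w _ K h k2 k1).trans ?_
    calc _ ≤ c₃ * (c₄ * (2 * l)) ^ 2 * s ^ σ := by gcongr
      _ = _ := by ring
  have t1 := tr p hp (by linarith)
  have t2 := tr z hz (by simp [s0.le])
  rw [← bz.top u z hu hz fw, bz.self u τ hu] at t2
  have hd : ∀ t ∈ Icc (0 : ℝ) 1, ∃ d, HasDerivWithinAt (fun t : ℝ =>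
      bt m lg K (z + t • (p - z)) (m.Z τ u).1 - t * (al m z (p - z) + om m z (p - z) (u - z))) d
      (Icc 0 1) t ∧ ‖d‖ ≤ P * (s ^ σ * l ^ 2) + Q * (s * η) := by
    intro t ht
    obtain ⟨ne, n1, n2⟩ := H23.chord hz hp hs (by linarith) ht
    have un := der.unit _ ne
    obtain ⟨k1, k2, k3, k4⟩ := cl _ un n1
    rw [η3] at k4
    obtain ⟨ne', cc, -, -⟩ := h1 _ _ K un k2 (by exact_mod_cast k1)
    have d0 : HasDerivAt (fun r : ℝ => z + r • (p - z)) (p - z) t := by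
      simpa using ((hasDerivAt_id t).smul_const (p - z)).const_add z
    have d1 : DifferentiableAt ℝ (fun w => bt m lg K w (m.Z τ u).1) (z + t • (p - z)) :=
      DifferentiableAt.comp (g := fun q : W × V => bt m lg K q.1 q.2)
        (f := fun w : W => (w, (m.Z τ u).1)) (z + t • (p - z))
        ((der.c1 K _ _ ne ne').differentiableAt one_ne_zero)
        (differentiableAt_id.prodMk (differentiableAt_const _))
    have d2 := (d1.hasFDerivAt.comp_hasDerivAt t d0).sub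
      (hasDerivAt_mul_const (al m z (p - z) + om m z (p - z) (u - z)))
    refine ⟨_, d2.hasDerivWithinAt, ?_⟩
    have dv := der.val K _ (p - z) _ ne ne'
    unfold DT at dv
    rw [dv, Real.norm_eq_abs]
    generalize fderiv ℝ nz (z + t • (p - z)) (p - z) = ζ at *
    generalize nz (z + t • (p - z)) = w at *
    generalize sg m lg K w (m.Z τ u).1 = q at *
    have nw : ‖w‖ ≤ R + 1 := by linarith [norm_le_insert' w z]
    have j4 : ‖q - w - (u - z)‖ ≤ (c₄ * 2 + 2) * η := by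
      have : q - w - (u - z) = q - u - (w - z) := by abel
      rw [this]
      linarith [norm_sub_le (q - u) (w - z)]
    obtain ⟨j3, j5, j8, sη0⟩ := alg (v := ‖q - w‖) s0 l2 c4 η1 η2 (norm_nonneg _)
      n1 hs n2 (by linarith [norm_le_insert' (q - w) (u - z)])
    have nζ : ‖ζ‖ ≤ 4 * s := (norm_le_insert' ζ (p - z)).trans j8
    have n0 := norm_nonneg (lg (w.1, (m.Z τ u).1))
    have i1 := h2 K w q ζ _ nw (by positivity) (mul_le_of_le_one_right c1 k2) cc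
    have i2 := (h6 w ζ 0 nw).2.trans (mul_le_mul_of_nonneg_left nζ c6)
    have i3 : |en m K w ζ q - om m w ζ (q - w)| ≤ P * (s ^ σ * l ^ 2) := by
      refine i1.trans ?_
      calc _ ≤ c₂ * (c₆ * (4 * s)) * (c₁ * (c₄ * (2 * l))) ^ 2 * exp (b * (1 - σ) * K) := by
            gcongr
        _ = c₂ * (c₆ * 4) * (c₁ * (c₄ * 2)) ^ 2 * l ^ 2 * (s * exp (b * (1 - σ) * K)) := by ring
        _ ≤ c₂ * (c₆ * 4) * (c₁ * (c₄ * 2)) ^ 2 * l ^ 2 * (exp b * s ^ σ) := by gcongr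
        _ = _ := by rw [hP]; ring
    obtain ⟨j1, j2⟩ := h5 w z ζ (p - z) (q - w) (u - z) nw (by linarith)
    have j6 := j1.trans (mul_le_mul_of_nonneg_left j3 c5)
    have j7 := j2.trans (mul_le_mul_of_nonneg_left (add_le_add
      (mul_le_mul j3 j5 (norm_nonneg _) (by linarith))
      (mul_le_mul hs j4 (norm_nonneg _) s0.le)) c5)
    have e : Q * (s * η) = c₅ * (8 * (s * η)) +
        c₅ * (8 * (s * η) * (c₄ * 2 + 3) + s * ((c₄ * 2 + 2) * η)) := by rw [hQ]; ring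
    unfold al
    rw [abs_le] at i3 j6 j7 ⊢
    constructor <;> linarith [i3.1, i3.2, j6.1, j6.2, j7.1, j7.2]
  choose! d g1 g2 using hd
  have mv := (convex_Icc (0 : ℝ) 1).norm_image_sub_le_of_norm_hasDerivWithin_le g1 g2
    (left_mem_Icc.2 zero_le_one) (right_mem_Icc.2 zero_le_one)
  simp only [one_smul, zero_smul, add_zero, add_sub_cancel, one_mul, zero_mul, sub_zero, norm_one,
    mul_one, Real.norm_eq_abs] at mv
  have p1 : 0 ≤ s ^ σ * l ^ 2 := by positivity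
  have p2 : 0 ≤ s * η := mul_nonneg s0.le (s0.le.trans η1)
  have p3 : 0 ≤ c₃ * (c₄ * 2) ^ 2 := by positivity
  rw [er1]
  rw [abs_le] at t1 t2 mv ⊢
  constructor <;> linarith [t1.1, t1.2, t2.1, t2.2, mv.1, mv.2, mul_nonneg P0 p2,
    mul_nonneg Q0 p1, mul_nonneg p3 p2]

end Pool.Agent.MP_3ee8cb_gt.DNB2
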