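import Pool.Agent.MP_3ee8cb_gt.DNB2.Spec

/-! The expansion of the offset in both directions of time. -/

namespace Pool.Agent.MP_3ee8cb_gt.DNB2

open DN (Dim dm)

variable [Dim]

open Set Filter Topology Real DN DNC0
open scoped RealInnerProductSpace

namespace REx

variable {m : MF} {lg : W → V} {Γ : Type} [Group Γ] [MulAction Γ V] {a : ℝ} {β : W → V → ℝ}

theorem fl1 (z : W) : (fl z).1 = z.1 := rfl

theorem fl2 (z : W) : (fl z).2 = -z.2 := rfl

theorem flfl (z : W) : fl (fl z) = z := Prod.ext rfl (neg_neg z.2)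

theorem fl_norm (z : W) : ‖fl z‖ = ‖z‖ := by
  rw [Prod.norm_def, Prod.norm_def, fl1, fl2, norm_neg]

theorem fl_unit {z : W} (hz : ‖z.2‖ = 1) : ‖(fl z).2‖ = 1 := by rw [fl2, norm_neg, hz]

theorem hor_fl (z ξ : W) : m.hor (fl z) (fl ξ) = m.hor z ξ := rfl

theorem ver_fl (z ξ : W) : m.ver (fl z) (fl ξ) = -m.ver z ξ := by
  simp [MF.ver, fl1, fl2, add_comm]

theorem al_fl (z ξ : W) : al m (fl z) (fl ξ) = -al m z ξ := by
  rw [al, al, hor_fl, fl2, inner_neg_right]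

theorem om_fl (z ξ η : W) : om m (fl z) (fl ξ) (fl η) = -om m z ξ η := by
  rw [om, om, hor_fl, hor_fl, ver_fl, ver_fl, inner_neg_right, inner_neg_left]
  ring

theorem df_fl (B : Bs m lg Γ) (p q : W) (t : ℝ) : df m lg (fl p) (fl q) t = df m lg p q (-t) := by
  rw [df, df, B.flip, B.flip, fl1, fl1]

theorem fw_fl (B : Bs m lg Γ) {p q : W} (h : Bw m lg p q) : Fw m lg (fl p) (fl q) :=
  (Tendsto.comp h tendsto_neg_atTop_atBot).congr fun t => (df_fl B p q t).symm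

theorem bw_fl (B : Bs m lg Γ) {p q : W} (h : Fw m lg p q) : Bw m lg (fl p) (fl q) :=
  (Tendsto.comp h tendsto_neg_atBot_atTop).congr fun t => (df_fl B p q t).symm

theorem gr_fl (p q : W) : gr β (fl q) (fl p) = gr β p q :=
  iInf_congr fun y => by rw [flfl, add_comm]

theorem tr (hd : m.Had lg) (B : Bs m lg Γ) {l : Filter ℝ} {p q z : W}
    (h : Tendsto (df m lg p z) l (𝓝 0)) (h' : Tendsto (df m lg q z) l (𝓝 0)) :
    Tendsto (df m lg p q) l (𝓝 0) := by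
  have := h.add h'
  rw [add_zero] at this
  refine squeeze_zero (fun _ => norm_nonneg _) (fun t => ?_) this
  have h1 := hd.tri (m.Z t p).1 (m.Z t z).1 (m.Z t q).1
  rwa [B.symm (m.Z t z).1] at h1

theorem b0 (o : m.OK) (Z : Bz m lg a β) {z : W} (hz : ‖z.2‖ = 1) : β z z.1 = 0 := by
  have := Z.self z 0 hz
  rwa [o.zero, neg_zero] at this

theorem gr0 (o : m.OK) (Z : Bz m lg a β) {z : W} (hz : ‖z.2‖ = 1) :
    ⨅ y, (β z y + β (fl z) y) = 0 := by
  refine le_antisymm ?_ (le_ciInf fun y => Z.opp z y hz)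
  refine ciInf_le_of_le ⟨0, ?_⟩ z.1 ?_
  · rintro _ ⟨y, rfl⟩
    exact Z.opp z y hz
  · have := b0 o Z (fl_unit hz)
    rw [fl1] at this
    rw [b0 o Z hz, this, add_zero]

end REx

open REx in
theorem ex : SEX := by
  intro m lg Γ _ _ O a b N β σ κ s0 s1 k0 k1 B J Z e2 nrm
  have d0 : ∀ z, df m lg z z = fun _ => 0 := fun z => funext fun t => by
    rw [df, B.self, norm_zero]
  refine ⟨s0, s1, k0, k1, fun z => ?_, fun z p q _ hp hq h => ?_, e2, fun R => ?_, nrm,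
    fun R => ?_⟩
  · rw [Fw, Bw, d0]
    exact ⟨tendsto_const_nhds, tendsto_const_nhds⟩
  · rcases h with ⟨h1, h2⟩ | ⟨h1, h2⟩
    · rw [← gr0 N.ok Z hp]
      exact iInf_congr fun y => by rw [Z.top q p hq hp (tr N.had B h2 h1)]
    · rw [← gr0 N.ok Z hq]
      exact iInf_congr fun y => by
        rw [Z.top (fl p) (fl q) (fl_unit hp) (fl_unit hq) (fw_fl B (tr N.had B h1 h2))]
  · obtain ⟨C, l₀, hC, h0, H⟩ := e2 R
    refine ⟨C, l₀, hC, h0, fun z p q s l hR hz hp hq hb hs hl h1 h2 h3 => ?_⟩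
    have := H (fl z) (fl p) (fl q) s l (by rwa [fl_norm]) (fl_unit hz) (fl_unit hp) (fl_unit hq)
      (fw_fl B hb) hs hl h1 (by rwa [← map_sub, fl_norm]) (by rwa [← map_sub, fl_norm])
    rwa [← map_sub, ← map_sub, al_fl, om_fl, gr_fl, sub_neg_eq_add, sub_neg_eq_add] at this
  · obtain ⟨C, hC, H⟩ := J.omb R
    have hb : 0 < b := N.a0.trans_le N.ab
    refine ⟨C * C + C / b * |R|, by positivity, fun z ξ η hz => ⟨?_, ?_⟩⟩
    · have h1 : b * ‖m.hor z ξ‖ ≤ C * ‖ξ‖ :=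
        (Real.le_sqrt_of_sq_le (by nlinarith [sq_nonneg ‖m.ver z ξ‖])).trans (H z ξ η hz).2
      have h2 : ‖m.hor z ξ‖ ≤ C / b * ‖ξ‖ := by
        rw [div_mul_eq_mul_div, le_div_iff₀ hb]
        linarith
      have h3 : ‖z.2‖ ≤ |R| := ((norm_snd_le z).trans hz).trans (le_abs_self R)
      calc |al m z ξ| ≤ ‖m.hor z ξ‖ * ‖z.2‖ := abs_real_inner_le_norm _ _
        _ ≤ C / b * ‖ξ‖ * |R| := by gcongr
        _ ≤ _ := by nlinarith [mul_nonneg (mul_nonneg hC hC) (norm_nonneg ξ)]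
    · have h1 : 0 ≤ C / b * |R| * ‖ξ‖ * ‖η‖ := by positivity
      calc |om m z ξ η| ≤ C * nn m b z ξ * ‖η‖ := (H z ξ η hz).1
        _ ≤ C * (C * ‖ξ‖) * ‖η‖ := by gcongr; exact (H z ξ η hz).2
        _ ≤ _ := by nlinarith

end Pool.Agent.MP_3ee8cb_gt.DNB2
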