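import Pool.Agent.MP_3ee8cb_gt.DNB2.Spec

/-! Upper and lower bounds for the offset of two points on opposite leaves. -/

namespace Pool.Agent.MP_3ee8cb_gt.DNB2

open DN (Dim dm)

variable [Dim]

open Set Filter Topology Real DN DNC0
open scoped RealInnerProductSpace

namespace RLf

variable {m : MF} {lg : W → V} {β : W → V → ℝ} {σ κ : ℝ}

omit [Dim] in
theorem er0 {s l : ℝ} (hs : 0 ≤ s) (hl : 0 ≤ l) : 0 ≤ er σ κ s l := by
  unfold er
  positivity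

omit [Dim] in
theorem er_mul {s l M : ℝ} (s1 : σ ≤ 1) (hs : 0 ≤ s) (hl : 0 ≤ l) (hM : 1 ≤ M) :
    er σ κ (M * s) (M * l) ≤ M ^ 3 * er σ κ s l := by
  have M0 : 0 < M := by linarith
  have h1 : M ^ σ ≤ M := by simpa using rpow_le_rpow_of_exponent_le hM s1
  have h2 : M ^ (1 + κ) * M ^ (1 - κ) = M ^ 2 := by
    rw [← rpow_add M0, show 1 + κ + (1 - κ) = ((2 : ℕ) : ℝ) by norm_num, rpow_natCast]
  have h3 : M ^ 2 ≤ M ^ 3 := pow_le_pow_right₀ hM (by norm_num)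
  have h4 : 0 ≤ s ^ σ * l ^ 2 := by positivity
  have h5 : 0 ≤ s ^ (1 + κ) * l ^ (1 - κ) := by positivity
  unfold er
  rw [mul_rpow M0.le hs, mul_rpow M0.le hs, mul_rpow M0.le hl]
  calc _ = M ^ σ * M ^ 2 * (s ^ σ * l ^ 2) +
        M ^ (1 + κ) * M ^ (1 - κ) * (s ^ (1 + κ) * l ^ (1 - κ)) := by ring
    _ ≤ M * M ^ 2 * (s ^ σ * l ^ 2) + M ^ 3 * (s ^ (1 + κ) * l ^ (1 - κ)) := by
      rw [h2]
      gcongr
    _ = _ := by ring

omit [Dim] in
theorem er_dd {d : ℝ} (s0 : 0 ≤ σ) (hd : 0 < d) (d1 : d ≤ 1) : er σ κ d d ≤ 2 * d ^ 2 := by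
  have h1 : d ^ σ ≤ 1 := rpow_le_one hd.le d1 s0
  have h2 : d ^ (1 + κ) * d ^ (1 - κ) = d ^ 2 := by
    rw [← rpow_add hd, show 1 + κ + (1 - κ) = ((2 : ℕ) : ℝ) by norm_num, rpow_natCast]
  unfold er
  rw [h2]
  nlinarith [sq_nonneg d]

theorem om0 (z ξ : W) : om m z ξ (z - z) = 0 := by simp [om]

theorem oms (z ξ η : W) : om m z ξ η = -om m z η ξ := by
  rw [om, om, real_inner_comm (m.hor z ξ), real_inner_comm (m.ver z ξ)]
  ring

theorem both (E : Ex m lg β σ κ) (R : ℝ) : ∃ C l₀ : ℝ, 0 ≤ C ∧ 0 < l₀ ∧ ∀ (z p q : W) (s l : ℝ),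
    ‖z‖ ≤ R → ‖z.2‖ = 1 → ‖p.2‖ = 1 → ‖q.2‖ = 1 → 0 < s → s ≤ l → l ≤ l₀ → ‖p - z‖ ≤ s →
    ‖q - z‖ ≤ l → Fw m lg p z ∨ Bw m lg p z → |al m z (p - z)| ≤ C * er σ κ s l ∧
      (Fw m lg q z → |gr β q p - om m z (p - z) (q - z)| ≤ C * er σ κ s l) ∧
      (Bw m lg q z → |gr β p q + om m z (p - z) (q - z)| ≤ C * er σ κ s l) := by
  obtain ⟨C, l₀, hC, h0, H⟩ := E.fw R
  obtain ⟨C', l₁, hC', h1, H'⟩ := E.bw R
  refine ⟨2 * (C + C'), min l₀ l₁, by positivity, lt_min h0 h1,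
    fun z p q s l hR hz hp hq hs hl hm ps ql ty => ?_⟩
  have m0 := hm.trans (min_le_left _ _)
  have m1 := hm.trans (min_le_right _ _)
  have l0 : 0 ≤ l := by linarith
  have e0 : 0 ≤ er σ κ s l := er0 hs.le l0
  have a0 := mul_nonneg hC e0
  have a1 := mul_nonneg hC' e0
  have zz : ‖z - z‖ ≤ l := by rwa [sub_self, norm_zero]
  have A : |al m z (p - z)| ≤ (C + C') * er σ κ s l := by
    rcases ty with h | h
    · have := H' z p z s l hR hz hp hz (E.refl z).2 hs hl m1 ps zz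
      rw [E.zero z p z hz hp hz (Or.inl ⟨h, (E.refl z).1⟩), om0, zero_add, add_zero] at this
      linarith
    · have := H z p z s l hR hz hp hz (E.refl z).1 hs hl m0 ps zz
      rw [E.zero z z p hz hz hp (Or.inr ⟨(E.refl z).2, h⟩), om0, zero_sub, sub_zero,
        abs_neg] at this
      linarith
  rw [abs_le] at A
  refine ⟨abs_le.2 ⟨by linarith [A.1], by linarith [A.2]⟩, fun h => ?_, fun h => ?_⟩
  · have := abs_le.1 (H z p q s l hR hz hp hq h hs hl m0 ps ql)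
    exact abs_le.2 ⟨by linarith [A.1, this.1], by linarith [A.2, this.2]⟩
  · have := abs_le.1 (H' z p q s l hR hz hp hq h hs hl m1 ps ql)
    exact abs_le.2 ⟨by linarith [A.2, this.1], by linarith [A.1, this.2]⟩

theorem sym (E : Ex m lg β σ κ) (R : ℝ) : ∃ C l₀ : ℝ, 0 ≤ C ∧ 0 < l₀ ∧ ∀ (z p q : W) (d r : ℝ),
    ‖z‖ ≤ R → ‖z.2‖ = 1 → ‖p.2‖ = 1 → ‖q.2‖ = 1 → 0 < d → 0 < r → d ≤ l₀ → r ≤ l₀ →
    ‖p - z‖ ≤ d → ‖q - z‖ ≤ r → (∀ t, Sq m lg β z p q t →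
      |(|t| - |om m z (p - z) (q - z)|)| ≤ C * er σ κ (min d r) (max d r)) ∧
      ((Fw m lg p z ∧ Fw m lg q z) ∨ (Bw m lg p z ∧ Bw m lg q z) →
        |om m z (p - z) (q - z)| ≤ C * er σ κ (min d r) (max d r)) := by
  obtain ⟨C, l₀, hC, h0, H⟩ := both E R
  refine ⟨C, l₀, hC, h0, fun z p q d r hR hz hp hq hd hr dl rl pd qr => ?_⟩
  have ab : ∀ x y : ℝ, |(|x| - |y|)| ≤ |x + y| := fun x y => by
    have := abs_abs_sub_abs_le_abs_sub x (-y)
    rwa [abs_neg, sub_neg_eq_add] at this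
  rcases le_total d r with h | h
  · rw [min_eq_left h, max_eq_right h]
    have K := H z p q d r hR hz hp hq hd h rl pd qr
    refine ⟨fun t ht => ?_, fun ht => ?_⟩
    · rcases ht with ⟨h1, h2, rfl⟩ | ⟨h1, h2, rfl⟩
      · exact (abs_abs_sub_abs_le_abs_sub _ _).trans ((K (Or.inr h1)).2.1 h2)
      · exact (ab _ _).trans ((K (Or.inl h1)).2.2 h2)
    · rcases ht with ⟨h1, h2⟩ | ⟨h1, h2⟩
      · have := (K (Or.inl h1)).2.1 h2
        rwa [E.zero z q p hz hq hp (Or.inl ⟨h2, h1⟩), zero_sub, abs_neg] at this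
      · have := (K (Or.inr h1)).2.2 h2
        rwa [E.zero z p q hz hp hq (Or.inr ⟨h1, h2⟩), zero_add] at this
  · rw [min_eq_right h, max_eq_left h, oms, abs_neg]
    have K := H z q p r d hR hz hq hp hr h dl qr pd
    refine ⟨fun t ht => ?_, fun ht => ?_⟩
    · rcases ht with ⟨h1, h2, rfl⟩ | ⟨h1, h2, rfl⟩
      · exact (ab _ _).trans ((K (Or.inl h2)).2.2 h1)
      · exact (abs_abs_sub_abs_le_abs_sub _ _).trans ((K (Or.inr h2)).2.1 h1)
    · rcases ht with ⟨h1, h2⟩ | ⟨h1, h2⟩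
      · have := (K (Or.inl h2)).2.1 h1
        rwa [E.zero z p q hz hp hq (Or.inl ⟨h1, h2⟩), zero_sub, abs_neg] at this
      · have := (K (Or.inr h2)).2.2 h1
        rwa [E.zero z q p hz hq hp (Or.inr ⟨h2, h1⟩), zero_add] at this

theorem rad {z p : W} (hz : ‖z.2‖ = 1) (hp : ‖p.2‖ = 1) : |⟪(p - z).2, z.2⟫| ≤ ‖p - z‖ ^ 2 := by
  have h1 : ‖p.2 - z.2‖ ^ 2 = 2 - 2 * ⟪p.2, z.2⟫ := by
    rw [norm_sub_sq_real, hz, hp]
    ring
  have h2 : ⟪(p - z).2, z.2⟫ = -(‖p.2 - z.2‖ ^ 2 / 2) := by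
    rw [Prod.snd_sub, inner_sub_left, real_inner_self_eq_norm_sq, hz, h1]
    ring
  have h3 : ‖p.2 - z.2‖ ^ 2 ≤ ‖p - z‖ ^ 2 :=
    pow_le_pow_left₀ (norm_nonneg _) (norm_snd_le (p - z)) 2
  rw [h2, abs_neg, abs_of_nonneg (by positivity)]
  nlinarith [sq_nonneg ‖p.2 - z.2‖]

end RLf

open RLf in
theorem lf : SLF := by
  intro m lg β σ κ E
  refine ⟨fun R => ?_, fun R => ?_⟩
  · obtain ⟨C, l₀, hC, h0, H⟩ := sym E R
    obtain ⟨B, hB, HB⟩ := E.bd R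
    refine ⟨C + B, l₀, by positivity, h0, fun z p q t d r hR hz hp hq sq hd hr dl rl pd qr => ?_⟩
    have h1 := (abs_le.1 ((H z p q d r hR hz hp hq hd hr dl rl pd qr).1 t sq)).2
    have h2 : |om m z (p - z) (q - z)| ≤ B * d * r :=
      (HB z _ _ hR).2.trans (by gcongr)
    have h3 : 0 ≤ er σ κ (min d r) (max d r) := er0 (by positivity) (by positivity)
    nlinarith [mul_nonneg hB h3, mul_nonneg hC (mul_pos hd hr).le]
  · obtain ⟨C, l₀, hC, h0, H⟩ := sym E R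
    obtain ⟨A, l₁, hA, h1, HA⟩ := both E R
    obtain ⟨N, c, l₂, hN, hc, h2, HN⟩ := E.nrm R
    obtain ⟨M, M1, MN⟩ : ∃ M : ℝ, 1 ≤ M ∧ N ≤ M := ⟨max 1 N, le_max_left _ _, le_max_right _ _⟩
    obtain ⟨L, L0, a0, a1, a2, a3, a4⟩ : ∃ L : ℝ, 0 < L ∧ M * L ≤ l₀ ∧ L ≤ l₁ ∧ L ≤ l₂ ∧ L ≤ 1 ∧
        (2 * A + 1) * L ≤ c / 2 := by
      have p1 : 0 < l₀ / M := by positivity
      have p2 : 0 < c / 2 / (2 * A + 1) := by positivity
      refine ⟨min (min (l₀ / M) l₁) (min (min l₂ 1) (c / 2 / (2 * A + 1))), by positivity, ?_,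
        (min_le_left _ _).trans (min_le_right _ _), (min_le_right _ _).trans
        ((min_le_left _ _).trans (min_le_left _ _)), (min_le_right _ _).trans
        ((min_le_left _ _).trans (min_le_right _ _)), ?_⟩
      · exact (le_div_iff₀' (by linarith)).1 ((min_le_left _ _).trans (min_le_left _ _))
      · exact (le_div_iff₀' (by positivity)).1 ((min_le_right _ _).trans (min_le_right _ _))
    refine ⟨C * M ^ 3 + M, c / 2, L, by positivity, by positivity, L0,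
      fun z p r hR hz hp ty hd hr dl rl => ?_⟩
    obtain ⟨q, hq, tq, qr, low⟩ := HN z (p - z) r hR hz hr (rl.trans a2)
    generalize hdd : ‖p - z‖ = d at *
    have b1 := (HA z p p d d hR hz hp hp hd le_rfl (dl.trans a1) hdd.le hdd.le ty).1
    have b2 := mul_le_mul_of_nonneg_left (er_dd (κ := κ) E.s0.le hd (dl.trans a3)) hA
    have b3 := rad hz hp
    rw [hdd] at b3
    have b4 : |al m z (p - z)| + |⟪(p - z).2, z.2⟫| ≤ c / 2 * d := by
      have : (2 * A + 1) * d ≤ c / 2 := (mul_le_mul_of_nonneg_left dl (by positivity)).trans a4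
      nlinarith
    have b5 : c / 2 * d * r ≤ |om m z (p - z) (q - z)| := by nlinarith
    have M0 : 0 ≤ M := by linarith
    have K := H z p q (M * d) (M * r) hR hz hp hq (by positivity) (by positivity)
      ((mul_le_mul_of_nonneg_left dl M0).trans a0) ((mul_le_mul_of_nonneg_left rl M0).trans a0)
      (by rw [hdd]; nlinarith) (qr.trans (by gcongr))
    rw [← mul_min_of_nonneg _ _ M0, ← mul_max_of_nonneg _ _ M0] at K
    have e0 : 0 ≤ er σ κ (min d r) (max d r) := er0 (by positivity) (by positivity)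
    have e1 := mul_le_mul_of_nonneg_left (er_mul (κ := κ) (s := min d r) (l := max d r) E.s1
      (by positivity) (by positivity) M1) hC
    have e2 := mul_nonneg M0 e0
    have e3 : 0 ≤ C * M ^ 3 * r := by positivity
    have opp : ∀ t, Sq m lg β z p q t → ∃ (q : W) (t : ℝ), ‖q.2‖ = 1 ∧ Sq m lg β z p q t ∧
        ‖q - z‖ ≤ (C * M ^ 3 + M) * r ∧
        c / 2 * d * r ≤ |t| + (C * M ^ 3 + M) * er σ κ (min d r) (max d r) := fun t ht =>
      ⟨q, t, hq, ht, by nlinarith, by nlinarith [(abs_le.1 (K.1 t ht)).1]⟩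
    have same : ∀ t, Sq m lg β z p z t →
        (Fw m lg p z ∧ Fw m lg q z) ∨ (Bw m lg p z ∧ Bw m lg q z) →
        ∃ (q : W) (t : ℝ), ‖q.2‖ = 1 ∧ Sq m lg β z p q t ∧ ‖q - z‖ ≤ (C * M ^ 3 + M) * r ∧
        c / 2 * d * r ≤ |t| + (C * M ^ 3 + M) * er σ κ (min d r) (max d r) := fun t ht h =>
      ⟨z, t, hz, ht, by rw [sub_self, norm_zero]; positivity, by nlinarith [K.2 h, abs_nonneg t]⟩
    rcases ty with h | h <;> rcases tq with h' | h'
    · exact same _ (Or.inr ⟨h, (E.refl z).2, rfl⟩) (Or.inl ⟨h, h'⟩)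
    · exact opp _ (Or.inr ⟨h, h', rfl⟩)
    · exact opp _ (Or.inl ⟨h, h', rfl⟩)
    · exact same _ (Or.inl ⟨h, (E.refl z).1, rfl⟩) (Or.inr ⟨h, h'⟩)

end Pool.Agent.MP_3ee8cb_gt.DNB2
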