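import Pool.Agent.MP_3ee8cb_gt.DNB2.RCj
import Pool.Agent.MP_3ee8cb_gt.DNB2.REx
import Pool.Agent.MP_3ee8cb_gt.DNB2.RLf

/-! The expansion of the offset. -/

namespace Pool.Agent.MP_3ee8cb_gt.DNB2

open DN (Dim dm)

variable [Dim]

open Set Filter Topology Real DN DNC0 REx
open scoped RealInnerProductSpace

namespace RE2

variable {m : MF} {lg : W → V} {Γ : Type} [Group Γ] [MulAction Γ V] {O : Γ → V → V ≃ₗᵢ[ℝ] V}
  {a b σ κ : ℝ} {β : W → V → ℝ}

omit [Dim] in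
theorem er_sq {s l : ℝ} (k1 : κ ≤ 1) (hs : 0 < s) (hl : s ≤ l) : s ^ 2 ≤ er σ κ s l := by
  have h1 : s ^ (1 - κ) ≤ l ^ (1 - κ) := rpow_le_rpow hs.le hl (by linarith)
  have h2 : s ^ (1 + κ) * s ^ (1 - κ) = s ^ 2 := by
    rw [← rpow_add hs, show 1 + κ + (1 - κ) = ((2 : ℕ) : ℝ) by norm_num, rpow_natCast]
  have h3 : 0 ≤ s ^ σ * l ^ 2 := by positivity
  have h4 := mul_le_mul_of_nonneg_left h1 (rpow_nonneg hs.le (1 + κ))
  unfold er
  linarith

omit [Dim] in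
theorem er_max {s l x : ℝ} (s0 : 0 ≤ σ) (s1 : σ ≤ 1) (k0 : 0 ≤ κ) (hs : 0 < s) (hl : s ≤ l)
    (hx : 0 ≤ x) : er σ κ s (2 * max l x) ≤ 8 * er σ κ s l + 4 * s ^ σ * x ^ 2 + 2 * s * x := by
  have l0 : 0 ≤ l := by linarith
  have e0 : 0 ≤ er σ κ s l := RLf.er0 hs.le l0
  rcases le_total x l with h | h
  · rw [max_eq_left h]
    have h1 := RLf.er_mul (κ := κ) (M := 2) s1 hs.le l0 one_le_two
    have h2 : er σ κ s (2 * l) ≤ er σ κ (2 * s) (2 * l) := by
      unfold er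
      gcongr <;> linarith
    have h3 : 0 ≤ 4 * s ^ σ * x ^ 2 + 2 * s * x := by positivity
    linarith
  · rw [max_eq_right h]
    have x0 : 0 < 2 * x := by linarith
    have h1 : s ^ κ ≤ (2 * x) ^ κ := rpow_le_rpow hs.le (by linarith) k0
    have h2 : (2 * x) ^ κ * (2 * x) ^ (1 - κ) = 2 * x := by
      rw [← rpow_add x0, add_sub_cancel, rpow_one]
    have h3 := mul_le_mul_of_nonneg_right h1 (rpow_nonneg x0.le (1 - κ))
    have h4 : er σ κ s (2 * x) = 4 * s ^ σ * x ^ 2 + s * (s ^ κ * (2 * x) ^ (1 - κ)) := by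
      unfold er
      rw [rpow_add hs, rpow_one]
      ring
    nlinarith

omit [Dim] in
theorem quad {a r t : ℝ} (ha : 0 < a) (ht : a * t ≤ 1) (h : cosh (a * r) ≤ exp (a * t)) :
    a * r ^ 2 ≤ 8 * t := by
  have h0 : 0 ≤ a * t := by
    rw [← exp_le_exp, exp_zero]
    exact (one_le_cosh _).trans h
  have h1 : exp (a * t) ≤ 1 + 2 * (a * t) := by
    have := Real.abs_exp_sub_one_le (x := a * t) (by rwa [abs_of_nonneg h0])
    rw [abs_of_nonneg h0] at this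
    linarith [le_abs_self (exp (a * t) - 1)]
  have h2 : 1 + (a * r) ^ 2 / 4 ≤ cosh (a * r) := by
    have e : cosh (a * r) = 2 * sinh (a * r / 2) ^ 2 + 1 := by
      have := cosh_two_mul (a * r / 2)
      rw [show 2 * (a * r / 2) = a * r by ring, cosh_sq] at this
      linarith
    have : |a * r / 2| ≤ |sinh (a * r / 2)| := by
      rw [abs_sinh]
      exact self_le_sinh_iff.2 (abs_nonneg _)
    have := sq_le_sq.2 this
    nlinarith
  have h3 : a * (a * r ^ 2) ≤ a * (8 * t) := by nlinarith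
  exact le_of_mul_le_mul_left h3 ha

/-- The connecting geodesic, and a point on it at equal levels. -/
theorem conn (N : NV m lg Γ O a b) (B : Bs m lg Γ) (Z : Bz m lg a β) (R : ℝ) {η : ℝ}
    (hη : 0 < η) (η1 : η ≤ 1) : ∃ l₀ : ℝ, 0 < l₀ ∧ ∀ p q : W, ‖p‖ ≤ R → ‖p.2‖ = 1 → ‖q.2‖ = 1 →
      ‖q - p‖ ≤ l₀ → gr β q p ≤ β p q.1 ∧ ∃ y : V, gr β q p = β p y + β q y ∧
        β (fl q) y = β q y ∧ ‖lg (q.1, y)‖ ≤ 2 * η := by
  obtain ⟨δ, hδ, U⟩ := Z.uni η hη
  obtain ⟨l1, h1, H1⟩ := RCj.small N.ok N.jac N.had 1 R hδ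
  obtain ⟨l2, h2, H2⟩ := RCj.small N.ok N.jac N.had 2 R hδ
  refine ⟨min l1 l2, lt_min h1 h2, fun p q hR hp hq hl => ?_⟩
  have un : ∀ (t : ℝ) {z : W}, ‖z.2‖ = 1 → ‖(m.Z t z).2‖ = 1 := fun t z hz => by
    rw [N.jac.norm, hz]
  have sh : ∀ (s t : ℝ) (x y : W), df m lg (m.Z s x) (m.Z s y) t = df m lg x y (t + s) :=
    fun s t x y => by rw [df, df, N.ok.add, N.ok.add]
  obtain ⟨w, t₀, hw, c0, c1, c2⟩ := U (m.Z 1 q) (m.Z 1 p) (un 1 hq) (un 1 hp)
    (by rw [sh, zero_add]; exact H1 p q hR (hl.trans (min_le_left _ _)))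
    (by rw [sh, one_add_one_eq_two]; exact H2 p q hR (hl.trans (min_le_right _ _)))
  obtain ⟨u, hu, rfl⟩ : ∃ u : W, ‖u.2‖ = 1 ∧ m.Z 1 u = w :=
    ⟨m.Z (-1) w, un _ hw, by rw [← N.ok.add, add_neg_cancel, N.ok.zero]⟩
  have e1 : ∀ y, β p y = β u y + t₀ := fun y => by
    have := Z.top _ _ (un t₀ hw) (un 1 hp) c2 y
    rw [Z.shift _ _ _ hw, Z.shift _ _ _ hu, Z.shift _ _ _ hp] at this
    linarith
  have e2 : ∀ y, β (fl q) y = β (fl u) y := fun y => by
    have := Z.top _ _ (fl_unit hw) (fl_unit (un 1 hq)) (fw_fl B c1) y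
    rw [show fl (m.Z 1 u) = m.Z (-1) (fl u) by rw [B.flip, neg_neg],
      show fl (m.Z 1 q) = m.Z (-1) (fl q) by rw [B.flip, neg_neg], Z.shift _ _ _ (fl_unit hu),
      Z.shift _ _ _ (fl_unit hq)] at this
    linarith
  have e3 : gr β q p = t₀ := by
    have g := gr0 N.ok Z hu
    have bd : BddBelow (range fun y => β u y + β (fl u) y) := ⟨0, by
      rintro _ ⟨y, rfl⟩
      exact Z.opp u y hu⟩
    rw [gr, ← zero_add t₀, ← g, ciInf_add bd]
    exact iInf_congr fun y => by rw [e1, e2]; ring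
  have e4 : ∀ t, β (fl q) (m.Z t u).1 = t := fun t => by
    have := Z.self (fl u) (-t) (fl_unit hu)
    rw [B.flip, neg_neg, fl1] at this
    rw [e2, this]
  have cl : ∀ t, t ≤ 1 → ‖lg ((m.Z t u).1, (m.Z t q).1)‖ ≤ η := fun t ht => by
    have := c0 (1 - t) (by linarith)
    rwa [sh, show -(1 - t) + 1 = t by ring] at this
  have e5 : ∀ t, t ≤ 1 → |β q (m.Z t u).1 + t| ≤ η := fun t ht => by
    have a1 := Z.lip q (m.Z t u).1 (m.Z t q).1 hq
    have a2 := Z.lip q (m.Z t q).1 (m.Z t u).1 hq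
    rw [B.symm] at a2
    rw [Z.self q t hq] at a1 a2
    exact abs_le.2 ⟨by linarith [cl t ht], by linarith [cl t ht]⟩
  refine ⟨?_, ?_⟩
  · have a1 := Z.opp u q.1 hu
    have a2 := b0 N.ok Z (fl_unit hq)
    rw [fl1, e2] at a2
    rw [e3, e1]
    linarith
  · have ct : Continuous fun t => β q (m.Z t u).1 - t := by
      refine Continuous.sub (LipschitzWith.continuous (K := 1) (LipschitzWith.of_le_add
        fun s t => ?_)) continuous_id
      have := Z.lip q (m.Z s u).1 (m.Z t u).1 hq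
      rw [B.geo, hu, mul_one] at this
      rw [Real.dist_eq]
      linarith
    obtain ⟨t, ht, h0⟩ := intermediate_value_Icc' (a := -η) (b := η) (by linarith) ct.continuousOn
      (show (0 : ℝ) ∈ Icc _ _ from ⟨by linarith [(abs_le.1 (e5 η η1)).2],
        by linarith [(abs_le.1 (e5 (-η) (by linarith))).1]⟩)
    have h3 : β q (m.Z t u).1 = t := sub_eq_zero.1 h0
    refine ⟨(m.Z t u).1, ?_, by rw [e4, h3], ?_⟩
    · rw [e3, e1, h3, Z.self u t hu]
      ring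
    · have a1 := N.had.tri q.1 (m.Z t q).1 (m.Z t u).1
      have a2 := B.geo q 0 t
      rw [N.ok.zero, hq, mul_one, zero_sub, abs_neg] at a2
      rw [B.symm (m.Z t q).1] at a1
      linarith [cl t (ht.2.trans η1), abs_le.2 ⟨ht.1, ht.2⟩]

/-- The asymptote through a nearby point is near. -/
theorem near (N : NV m lg Γ O a b) (B : Bs m lg Γ) (Z : Bz m lg a β) (A : Asy m lg a β) (R : ℝ) :
    ∃ D : ℝ, 1 ≤ D ∧ ∀ (q : W) (y : V), ‖q‖ ≤ R → ‖q.2‖ = 1 → ‖lg (q.1, y)‖ ≤ 1 →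
      |β q y| ≤ ‖lg (q.1, y)‖ ∧ ∃ v : W, ‖v.2‖ = 1 ∧ Fw m lg v q ∧ (m.Z (-β q y) v).1 = y ∧
        ‖v - q‖ ≤ D * ‖lg (q.1, y)‖ := by
  obtain ⟨C, hC, H⟩ := A.dec 2
  obtain ⟨R', HR⟩ := B.bdd (max R 2)
  obtain ⟨E, hE, HE⟩ := B.del (max R (max R' 1))
  refine ⟨1 + E * (2 + 2 * C), by nlinarith [mul_nonneg hE hC], fun q y hR hq hy => ?_⟩
  have a0 : |β q y| ≤ ‖lg (q.1, y)‖ := by
    have a1 := Z.lip q y q.1 hq
    have a2 := Z.lip q q.1 y hq
    rw [B.symm] at a1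
    rw [b0 N.ok Z hq] at a1 a2
    exact abs_le.2 ⟨by linarith, by linarith⟩
  obtain ⟨v, hv, f, e⟩ := A.ex q y hq
  refine ⟨a0, v, hv, f, e, ?_⟩
  have e0 : df m lg q v 0 = ‖lg (q.1, v.1)‖ := by rw [df, N.ok.zero, N.ok.zero]
  have a1 : df m lg q v 0 ≤ 2 * ‖lg (q.1, y)‖ := by
    have b1 := N.had.tri q.1 y v.1
    have b2 := B.geo v (-β q y) 0
    rw [e, N.ok.zero, hv, mul_one, sub_zero, abs_neg] at b2
    linarith
  have a2 := H q v hq hv f (by linarith) 1 zero_le_one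
  have a3 : exp (-(a * 1)) ≤ 1 := exp_le_one_iff.2 (by linarith [N.a0])
  have d0 : 0 ≤ df m lg q v 0 := norm_nonneg _
  have a4 : df m lg q v 1 ≤ C * (2 * ‖lg (q.1, y)‖) :=
    a2.trans ((mul_le_of_le_one_right (by positivity) a3).trans (by gcongr))
  have a5 : ‖v.1‖ ≤ R' := HR q.1 v.1 (((norm_fst_le q).trans hR).trans (le_max_left _ _))
    (le_max_of_le_right (by linarith))
  have a6 := HE q v (le_max_of_le_left hR) (le_max_of_le_right (by
    rw [Prod.norm_def, hv]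
    exact max_le_max_right _ a5))
  have a7 := mul_le_mul_of_nonneg_left (add_le_add a1 a4) hE
  nlinarith [norm_nonneg (lg (q.1, y))]

end RE2

open RE2 in
theorem e2 : SE2 := by
  intro m lg Γ _ _ O a b N β σ κ s0 s1 k0 k1 B J Z A E R
  have ha := N.a0
  obtain ⟨C, l₀, hC, h0, H⟩ := E R
  obtain ⟨D, D1, HD⟩ := near N B Z A (R + 1)
  obtain ⟨M, hM, HM⟩ := J.omb R
  have D0 : 0 < D := by linarith
  obtain ⟨η, hη, η1, η2, η3⟩ : ∃ η : ℝ, 0 < η ∧ 2 * η ≤ 1 ∧ a * (2 * η) ≤ 1 ∧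
      D * (2 * η) ≤ l₀ / 2 := by
    refine ⟨min (1 / 2) (min (1 / (2 * a)) (l₀ / (4 * D))), by positivity,
      by linarith [min_le_left (1 / 2 : ℝ) (min (1 / (2 * a)) (l₀ / (4 * D)))], ?_, ?_⟩
    · have := (le_div_iff₀ (by positivity)).1 ((min_le_right (1 / 2 : ℝ) _).trans
        (min_le_left (1 / (2 * a)) (l₀ / (4 * D))))
      linarith
    · have := (le_div_iff₀ (by positivity)).1 ((min_le_right (1 / 2 : ℝ) _).trans
        (min_le_right (1 / (2 * a)) (l₀ / (4 * D))))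
      linarith
  obtain ⟨l₁, h1, HC⟩ := conn N B Z (R + 1) hη (by linarith)
  obtain ⟨ε, hε, hε'⟩ : ∃ ε : ℝ, 0 < ε ∧ 4 * C * D ^ 2 * ε ≤ a / 16 := by
    refine ⟨a / 16 / (4 * C * D ^ 2 + 1), by positivity, ?_⟩
    rw [← mul_div_assoc, div_le_iff₀ (by positivity)]
    nlinarith
  obtain ⟨K, hK⟩ : ∃ K : ℝ, K = M * M * D + 2 * C * D := ⟨_, rfl⟩
  have K0 : 0 ≤ K := by rw [hK]; positivity
  refine ⟨8 * C + 4 * K ^ 2 / a, min (min (l₀ / 2) (l₁ / 2)) (min 1 (ε ^ σ⁻¹)), by positivity,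
    by positivity, fun z p q s l hR hz hp hq f hs hl hm ps ql => ?_⟩
  have m0 : l ≤ l₀ / 2 := hm.trans ((min_le_left _ _).trans (min_le_left _ _))
  have m1 : l ≤ l₁ / 2 := hm.trans ((min_le_left _ _).trans (min_le_right _ _))
  have m2 : l ≤ 1 := hm.trans ((min_le_right _ _).trans (min_le_left _ _))
  have m3 : s ^ σ ≤ ε := by
    rw [← rpow_inv_rpow hε.le s0.ne']
    exact rpow_le_rpow hs.le (hl.trans (hm.trans ((min_le_right _ _).trans (min_le_right _ _))))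
      s0.le
  have nr : ∀ x : W, ‖x - z‖ ≤ l → ‖x‖ ≤ R + 1 := fun x hx => by
    have := norm_add_le z (x - z)
    rw [add_sub_cancel] at this
    linarith
  have e0 : 0 ≤ er σ κ s l := RLf.er0 hs.le (by linarith)
  have e1 := er_sq (σ := σ) k1 hs hl
  have e2 : 0 ≤ 4 * K ^ 2 / a := by positivity
  obtain ⟨up, y, ey, eq, hy⟩ := HC p q (nr p (by linarith)) hp hq (by
    have := norm_sub_le_norm_sub_add_norm_sub q z p
    rw [norm_sub_rev z] at this
    linarith)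
  refine abs_le.2 ⟨?_, ?_⟩
  · obtain ⟨a0, v, hv, fv, ev, nv⟩ := HD q y (nr q ql) hq (by linarith)
    have lb := Z.lb q y hq
    rw [eq, max_self] at lb
    generalize ‖lg (q.1, y)‖ = r at *
    have r0 : 0 ≤ r := (abs_nonneg _).trans a0
    have a1 := quad ha ((mul_le_mul_of_nonneg_left ((le_abs_self _).trans (a0.trans hy))
      ha.le).trans η2) lb
    have x1 := le_max_left l (D * r)
    have x2 := le_max_right l (D * r)
    have x3 : D * r ≤ l₀ / 2 := (mul_le_mul_of_nonneg_left hy D0.le).trans η3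
    have a2 := H z p v s (2 * max l (D * r)) (-β q y) hR hz hp hv
      (squeeze_zero (fun _ => norm_nonneg _) (fun t => N.had.tri _ _ _)
        (add_zero (0 : ℝ) ▸ Tendsto.add fv f)) hs (by linarith)
      (by linarith [max_le m0 x3]) ps
      (by linarith [norm_sub_le_norm_sub_add_norm_sub v q z])
      (by rw [abs_neg]; nlinarith)
    rw [ev] at a2
    have a3 := mul_le_mul_of_nonneg_left
      (er_max (κ := κ) (x := D * r) s0.le s1 k0.le hs hl (by positivity)) hC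
    have a4 : om m z (p - z) (v - z) = om m z (p - z) (q - z) + om m z (p - z) (v - q) := by
      rw [show v - z = q - z + (v - q) by abel]
      simp only [om, map_add, inner_add_right]
      ring
    have a5 : |om m z (p - z) (v - q)| ≤ M * (M * s) * (D * r) :=
      (HM z _ _ hR).1.trans (by
        gcongr
        exact (HM z _ 0 hR).2.trans (by gcongr))
    have a6 : C * (4 * s ^ σ * (D * r) ^ 2) ≤ a / 16 * r ^ 2 := by
      have b1 : 4 * C * D ^ 2 * s ^ σ ≤ a / 16 :=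
        (mul_le_mul_of_nonneg_left m3 (by positivity)).trans hε'
      nlinarith [mul_le_mul_of_nonneg_right b1 (sq_nonneg r)]
    have a7 : K * s * r ≤ a / 16 * r ^ 2 + 4 * K ^ 2 / a * s ^ 2 := by
      have b1 : 0 ≤ a / 16 * (r - 8 * K / a * s) ^ 2 := by positivity
      have b2 : a / 16 * (r - 8 * K / a * s) ^ 2 =
          a / 16 * r ^ 2 + 4 * K ^ 2 / a * s ^ 2 - K * s * r := by
        field_simp
        ring
      linarith
    have a8 := mul_le_mul_of_nonneg_left e1 e2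
    have a9 : K * s * r = M * (M * s) * (D * r) + C * (2 * s * (D * r)) := by rw [hK]; ring
    have b1 := (abs_le.1 a2).1
    have b2 := (abs_le.1 a5).1
    have b3 : 0 ≤ a * r ^ 2 := by positivity
    rw [ey]
    nlinarith
  · have a2 := H z p q s l 0 hR hz hp hq f hs hl (by linarith) ps ql (by rw [abs_zero]; linarith)
    rw [N.ok.zero] at a2
    nlinarith [(abs_le.1 a2).2, mul_nonneg hC e0, mul_nonneg e2 e0]

end Pool.Agent.MP_3ee8cb_gt.DNB2
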