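import Pool.Agent.MP_3ee8cb_gt.DNB2.H19Key

/-! From leaves to all pairs. -/

namespace Pool.Agent.MP_3ee8cb_gt.DNB2

open DN (Dim dm)

open Set Filter Topology Real DN DNC0 H19
open scoped RealInnerProductSpace

namespace RGen

theorem real1 {K M c d d' ε σ κ σ' κ' x y w : ℝ} (K1 : 1 ≤ K) (M1 : 1 ≤ M) (c0 : 0 < c)
    (k0 : 0 ≤ κ) (d0 : 0 < d) (dd : d ≤ d') (de : d' ≤ ε) (hM : 8 * K ≤ c * M)
    (h1 : (1 / (K * M)) ^ κ' ≤ c / (8 * K ^ 2)) (h2 : d' ≤ c / (8 * (2 * K + 1)))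
    (h3 : d' ^ σ' ≤ c / (8 * K ^ 3 * M)) (hx : x ≤ K * d + K * (d ^ 2 + d' ^ 2)) (hy : y ≤ d' ^ 2)
    (hw : w ≤ K * (d * ε) + K * (er σ κ d ε + er σ' κ' d' (K * (M * d')) + d ^ 2 + d' ^ 2))
    (h : c * (M * d') * d' ≤ M * d' * x + M * d' * y + w) :
    d' ^ 2 ≤ 8 * K / c * (d * ε + d ^ σ * ε ^ 2) := by
  have K0 : 0 < K := by linarith
  have M0 : 0 < M := by linarith
  have d0' := d0.trans_le dd
  have e0 := d0'.trans_le de
  have i : d' / (K * (M * d')) = 1 / (K * M) := by field_simp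
  have a1 : K * er σ' κ' d' (K * (M * d')) ≤ c * M * d' ^ 2 / 4 := by
    unfold er
    rw [t2 κ' d0' (by positivity), i]
    have b1 := mul_le_mul_of_nonneg_right h3 (by positivity : 0 ≤ (K * (M * d')) ^ 2)
    have b2 := mul_le_mul_of_nonneg_left h1 (by positivity : 0 ≤ d' * (K * (M * d')))
    refine (mul_le_mul_of_nonneg_left (add_le_add b1 b2) K0.le).trans (le_of_eq ?_)
    field_simp
    ring
  have a2 := mul_le_mul_of_nonneg_left (er_le (σ := σ) k0 d0 (dd.trans de)) K0.le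
  have a3 : K * d ^ 2 ≤ K * (d * ε) := mul_le_mul_of_nonneg_left (by nlinarith) K0.le
  have a4 : K * d' ^ 2 ≤ c * M * d' ^ 2 / 8 := by nlinarith [sq_nonneg d']
  have a5 : (2 * K + 1) * d' ≤ c / 8 := by
    have := (le_div_iff₀ (by positivity)).1 h2
    linarith
  have a6 : x + y ≤ K * d + (2 * K + 1) * d' * d' := by
    have : K * d ^ 2 ≤ K * d' ^ 2 := mul_le_mul_of_nonneg_left (by nlinarith) K0.le
    nlinarith
  have a7 : x + y ≤ K * d + c / 8 * d' := by nlinarith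
  have a8 := mul_le_mul_of_nonneg_left a7 (by positivity : 0 ≤ M * d')
  have a9 : M * K * (d * d') ≤ M * K * (d * ε) :=
    mul_le_mul_of_nonneg_left (by nlinarith) (by positivity)
  have n1 : 0 ≤ d * ε := by positivity
  have n2 : 0 ≤ d ^ σ * ε ^ 2 := by positivity
  have b1 : K * (d * ε) ≤ M * K * (d * ε) := by nlinarith [mul_nonneg K0.le n1]
  have b2 : K * (d ^ σ * ε ^ 2) ≤ 4 * (M * K * (d ^ σ * ε ^ 2)) := by
    nlinarith [mul_nonneg K0.le n2]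
  have b3 : M * (d' ^ 2 * c) ≤ M * (8 * K * (d * ε + d ^ σ * ε ^ 2)) := by nlinarith
  rw [div_mul_eq_mul_div, le_div_iff₀ c0]
  exact le_of_mul_le_mul_left b3 M0

theorem real2 {Q N d d' σ η θ : ℝ} (Q0 : 0 ≤ Q) (N1 : 1 ≤ N) (d0 : 0 < d) (d1 : d ≤ 1)
    (d0' : 0 < d') (η0 : 0 < η) (h1 : θ * (1 + η) ≤ 1) (h2 : θ * (2 * η) ≤ σ)
    (h : d' ^ 2 ≤ Q * (d * (N * d' ^ (1 - η)) + d ^ σ * (N * d' ^ (1 - η)) ^ 2)) :
    d' ≤ (1 + (2 * Q * N ^ 2) ^ (1 + η)⁻¹ + (2 * Q * N ^ 2) ^ (2 * η)⁻¹) * d ^ θ := by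
  have N0 : 0 < N := by linarith
  have t0 := rpow_pos_of_pos d0' (1 - η)
  have n0 := rpow_pos_of_pos d0 θ
  have q1 : 0 ≤ (2 * Q * N ^ 2) ^ (1 + η)⁻¹ := by positivity
  have q2 : 0 ≤ (2 * Q * N ^ 2) ^ (2 * η)⁻¹ := by positivity
  have i1 : d' ^ (1 + η) * d' ^ (1 - η) = d' ^ 2 := by
    rw [← rpow_add d0', ← rpow_two]
    ring_nf
  have i2 : d' ^ (2 * η) * (d' ^ (1 - η)) ^ 2 = d' ^ 2 := by
    rw [sq, ← rpow_add d0', ← rpow_add d0', ← rpow_two]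
    ring_nf
  rcases le_total (d * (N * d' ^ (1 - η))) (d ^ σ * (N * d' ^ (1 - η)) ^ 2) with l | l
  · have a : d' ^ (2 * η) ≤ 2 * Q * N ^ 2 * d ^ σ := by
      refine le_of_mul_le_mul_right ?_ (pow_pos t0 2)
      rw [i2]
      nlinarith [mul_le_mul_of_nonneg_left l Q0]
    refine (solve d0'.le d0 d1 (by positivity) (by positivity) a h2).trans ?_
    exact mul_le_mul_of_nonneg_right (by linarith) n0.le
  · have a : d' ^ (1 + η) ≤ 2 * Q * N ^ 2 * d ^ (1 : ℝ) := by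
      refine le_of_mul_le_mul_right ?_ t0
      rw [i1, rpow_one]
      have b : Q * (d * (N * d' ^ (1 - η))) * 1 ≤ Q * (d * (N * d' ^ (1 - η))) * N :=
        mul_le_mul_of_nonneg_left N1 (by positivity)
      nlinarith [mul_le_mul_of_nonneg_left l Q0]
    refine (solve d0'.le d0 d1 (by positivity) (by positivity) a h1).trans ?_
    exact mul_le_mul_of_nonneg_right (by linarith) n0.le

end RGen

open RGen

variable [Dim]

theorem gen : SGEN := by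
  intro m lg β m' lg' β' φ ψ c1 c2 σ κ σ' κ' E E' H θ h0 h1 R
  have s0 := E.s0
  have s1 := E.s1
  obtain ⟨η, η0, η1, η2⟩ : ∃ η : ℝ, 0 < η ∧ η ≤ 1 - θ ∧ η ≤ σ / 2 :=
    ⟨min (1 - θ) (σ / 2), lt_min (by linarith) (by linarith), min_le_left _ _, min_le_right _ _⟩
  have t1 : θ * (1 + η) ≤ 1 := by nlinarith
  have t2 : θ * (2 * η) ≤ σ := by nlinarith
  have t3 : 0 < 1 - η := by linarith
  have t4 : 1 - η < 1 := by linarith
  suffices h : ∃ C : ℝ, 0 ≤ C ∧ ∀ z p : W, ‖z‖ ≤ R → ‖p‖ ≤ R → ‖z.2‖ = 1 → ‖p.2‖ = 1 → True →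
      ‖φ p - φ z‖ ≤ C * ‖p - z‖ ^ θ from
    h.imp fun C hC => ⟨hC.1, fun z p a b c d => hC.2 z p a b c d trivial⟩
  refine ext c1 h0 (fun _ _ => True) R ?_
  obtain ⟨R', -, hR⟩ := bnd c1 R
  obtain ⟨C, l₀, C0, l0, l1, key⟩ := key c1 c2 E E' R
  obtain ⟨C1, c, l2, C10, c0, l20, nrm⟩ := E'.nrm R'
  obtain ⟨B, B0, bd⟩ := E.bd R
  obtain ⟨G, G0, hol⟩ := H (1 - η) t3.le t4 (R' + 1)
  obtain ⟨K, hK⟩ : ∃ K, K = C + C1 + B + 1 := ⟨_, rfl⟩
  have K1 : 1 ≤ K := by linarith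
  have K0 : 0 < K := by linarith
  have KC : C ≤ K := by linarith
  have KC1 : C1 ≤ K := by linarith
  have KB : B ≤ K := by linarith
  have G1 : G ≤ G + 1 := by linarith
  obtain ⟨μ, μ0, hμ⟩ := small E'.k0 (by positivity : 0 < c / (8 * K ^ 2))
  obtain ⟨M, M1, M2, M3⟩ : ∃ M : ℝ, 1 ≤ M ∧ 1 / μ ≤ M ∧ 8 * K / c ≤ M :=
    ⟨max 1 (max (1 / μ) (8 * K / c)), le_max_left _ _, (le_max_left _ _).trans (le_max_right _ _),
      (le_max_right _ _).trans (le_max_right _ _)⟩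
  have M0 : 0 < M := by linarith
  have KM : 1 ≤ K * M := one_le_mul_of_one_le_of_one_le K1 M1
  have M4 : 8 * K ≤ c * M := by
    rw [div_le_iff₀ c0] at M3
    linarith
  have M5 : 1 / (K * M) ≤ μ := by
    rw [div_le_iff₀ μ0] at M2
    rw [div_le_iff₀ (by positivity)]
    nlinarith [mul_le_mul_of_nonneg_right K1 (by positivity : 0 ≤ M * μ)]
  obtain ⟨N, hN⟩ : ∃ N, N = (G + 1) * (K * M) ^ (1 - η) := ⟨_, rfl⟩
  have N1 : 1 ≤ N := by
    rw [hN]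
    exact one_le_mul_of_one_le_of_one_le (by linarith) (one_le_rpow KM t3.le)
  have N0 : 0 < N := by linarith
  obtain ⟨δ1, δ10, hδ1⟩ := small E'.s0 (by positivity : 0 < c / (8 * K ^ 3 * M))
  obtain ⟨δ2, δ20, hδ2⟩ := small t3 (by positivity : 0 < l₀ / N)
  obtain ⟨δ, δ0, hδ⟩ := uc c1 R (by positivity :
    0 < min (min δ1 δ2) (min (c / (8 * (2 * K + 1))) (min l₀ l2 / (K * M))))
  refine ⟨1 + (2 * (8 * K / c) * N ^ 2) ^ (1 + η)⁻¹ + (2 * (8 * K / c) * N ^ 2) ^ (2 * η)⁻¹,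
    min δ 1, by positivity, fun z p hz hp uz u _ d0 dl d0' => ?_⟩
  have dd := hδ z p hz hp uz u (dl.trans (min_le_left _ _))
  have d1 := dl.trans (min_le_right _ _)
  simp only [le_min_iff] at dd
  obtain ⟨⟨f1, f2⟩, f3, f4⟩ := dd
  rw [le_div_iff₀ (by positivity), le_min_iff] at f4
  have uw := c1.unit z uz
  have w1 := hR z hz uz
  obtain ⟨d, hd⟩ : ∃ d, d = ‖p - z‖ := ⟨_, rfl⟩
  obtain ⟨d', hd'⟩ : ∃ d', d' = ‖φ p - φ z‖ := ⟨_, rfl⟩
  rw [← hd] at d0 d1 ⊢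
  rw [← hd'] at d0' f1 f2 f3 f4 ⊢
  rcases le_total d' d with l | l
  · have a := rpow_le_rpow_of_exponent_ge d0 d1 h1.le
    rw [rpow_one] at a
    refine (l.trans a).trans (le_mul_of_one_le_left (by positivity) ?_)
    rw [add_assoc]
    exact le_add_of_nonneg_right (by positivity)
  have g1 : M * d' ≤ K * (M * d') := le_mul_of_one_le_left (by positivity) K1
  have g2 : d' ≤ M * d' := le_mul_of_one_le_left d0'.le M1
  have g3 : K * (M * d') ≤ l₀ := by linarith only [f4.1]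
  obtain ⟨q, uq, lf, hq, h⟩ := nrm (φ z) (φ p - φ z) (M * d') w1 uw (by positivity)
    (by linarith only [f4.2, g1])
  have q1 : ‖q - φ z‖ ≤ K * (M * d') :=
    hq.trans (mul_le_mul_of_nonneg_right KC1 (by positivity))
  have q3 : ‖q‖ ≤ R' + 1 := by
    have := norm_le_norm_add_norm_sub' q (φ z)
    linarith only [this, w1, q1, g3, l1]
  have t0 := rpow_pos_of_pos d0' (1 - η)
  have e1 : ‖ψ q - z‖ ≤ N * d' ^ (1 - η) := by
    have a := hol (φ z) q (by linarith only [w1]) q3 uw uq lf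
    rw [c1.left z uz] at a
    have b : ‖q - φ z‖ ^ (1 - η) ≤ (K * M) ^ (1 - η) * d' ^ (1 - η) := by
      rw [← mul_rpow (by positivity) d0'.le, mul_assoc]
      exact rpow_le_rpow (norm_nonneg _) q1 t3.le
    rw [hN, mul_assoc]
    exact a.trans (mul_le_mul G1 b (by positivity) (G0.trans G1))
  have e2 : d' ≤ N * d' ^ (1 - η) := by
    have a := rpow_le_rpow_of_exponent_ge d0' (g2.trans (g1.trans (g3.trans l1))) t4.le
    rw [rpow_one] at a
    exact a.trans (le_mul_of_one_le_left t0.le N1)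
  have e3 : N * d' ^ (1 - η) ≤ l₀ := by
    have := (le_div_iff₀ N0).1 (hδ2 d' d0'.le f2)
    linarith only [this]
  obtain ⟨k1, k2⟩ := key z p q d _ d' _ hz uz u uq lf d0 (l.trans e2) e3 d0' (g2.trans g1) g3
    hd.ge e1 hd'.ge q1
  obtain ⟨b1, b2⟩ := bd z (p - z) (ψ q - z) hz
  have r1 := radial uw (c1.unit p u)
  rw [← hd] at b1 b2
  rw [← hd'] at h r1
  refine real2 (by positivity) N1 d0 d1 d0' η0 t1 t2
    (real1 (σ' := σ') (κ' := κ') K1 M1 c0 E.k0.le d0 l e2 M4 (hμ _ (by positivity) M5) f3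
      (hδ1 _ d0'.le f1) ?_ r1 ?_ h)
  · have a := abs_sub_abs_le_abs_sub (al m' (φ z) (φ p - φ z)) (al m z (p - z))
    have x1 : B * d ≤ K * d := mul_le_mul_of_nonneg_right KB d0.le
    have x2 : C * (d ^ 2 + d' ^ 2) ≤ K * (d ^ 2 + d' ^ 2) :=
      mul_le_mul_of_nonneg_right KC (by positivity)
    linarith only [a, x1, x2, k1, b1]
  · have a := abs_sub_abs_le_abs_sub (om m' (φ z) (φ p - φ z) (q - φ z))
      (om m z (p - z) (ψ q - z))
    have x1 : B * d * ‖ψ q - z‖ ≤ K * d * (N * d' ^ (1 - η)) :=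
      mul_le_mul (mul_le_mul_of_nonneg_right KB d0.le) e1 (norm_nonneg _)
        (by positivity)
    have n1 := er_nonneg (σ := σ) (κ := κ) d0.le (by positivity : 0 ≤ N * d' ^ (1 - η))
    have n2 := er_nonneg (σ := σ') (κ := κ') d0'.le (by positivity : 0 ≤ K * (M * d'))
    have x2 := mul_le_mul_of_nonneg_right KC (by positivity :
      0 ≤ er σ κ d (N * d' ^ (1 - η)) + er σ' κ' d' (K * (M * d')) + d ^ 2 + d' ^ 2)
    linarith only [a, x1, x2, k2, b2]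

end Pool.Agent.MP_3ee8cb_gt.DNB2
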