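import Pool.Agent.MP_3ee8cb_gt.DNB2.Spec

/-! Linear approximation at every scale gives a map of class `C¹`. -/

namespace Pool.Agent.MP_3ee8cb_gt.DNB2

open Set Filter Topology

namespace RLin

variable {E F : Type} [NormedAddCommGroup E] [NormedSpace ℝ E] [NormedAddCommGroup F]
  [NormedSpace ℝ F]

theorem op_le (A : E →L[ℝ] F) {r M : ℝ} (hr : 0 < r) (hM : 0 ≤ M)
    (h : ∀ ξ, ‖ξ‖ ≤ r → ‖A ξ‖ ≤ M * r) : ‖A‖ ≤ M := by
  refine A.opNorm_le_of_unit_norm hM fun x hx => ?_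
  have := h (r • x) (by rw [norm_smul, hx, Real.norm_of_nonneg hr.le, mul_one])
  rw [map_smul, norm_smul, Real.norm_of_nonneg hr.le, mul_comm] at this
  exact le_of_mul_le_mul_right this hr

theorem lim [CompleteSpace F] {g : E → F} {K ρ d : ℝ} (g0 : g 0 = 0) (hK : 0 ≤ K) (r0 : 0 ≤ ρ)
    (r1 : ρ < 1) (hd : 0 < d) (h : ∀ k : ℕ, ∃ A : E →L[ℝ] F, ∀ ξ, ‖ξ‖ ≤ d * (1 / 2) ^ k →
      ‖g ξ - A ξ‖ ≤ K * ρ ^ k * (d * (1 / 2) ^ k)) :
    ∃ D : E →L[ℝ] F, ∀ (k : ℕ) ξ, ‖ξ‖ ≤ d * (1 / 2) ^ k →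
      ‖g ξ - D ξ‖ ≤ (2 * K + 3 * K / (1 - ρ)) * ρ ^ k * ‖ξ‖ := by
  choose A hA using h
  have st : ∀ k, dist (A k) (A (k + 1)) ≤ 3 * K * ρ ^ k := fun k => by
    rw [dist_eq_norm]
    have p : 0 < d * (1 / 2 : ℝ) ^ k := by positivity
    have q : 0 ≤ K * ρ ^ k := by positivity
    refine op_le _ (r := d * (1 / 2) ^ (k + 1)) (by positivity) (by positivity) fun ξ hξ => ?_
    have h1 := hA k ξ (hξ.trans (by rw [pow_succ]; linarith))
    have h2 := hA (k + 1) ξ hξ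
    have h3 : (A k - A (k + 1)) ξ = (g ξ - A (k + 1) ξ) - (g ξ - A k ξ) := by
      rw [ContinuousLinearMap.sub_apply]; abel
    rw [h3]
    refine (norm_sub_le _ _).trans ?_
    rw [pow_succ ρ, pow_succ (1 / 2 : ℝ)] at h2
    rw [pow_succ]
    nlinarith [mul_nonneg (mul_nonneg q p.le) (sub_nonneg.2 r1.le)]
  obtain ⟨D, hD⟩ := cauchySeq_tendsto_of_complete (cauchySeq_of_le_geometric ρ _ r1 st)
  refine ⟨D, fun k ξ hξ => ?_⟩
  rcases eq_or_ne ξ 0 with rfl | h0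
  · simp [g0]
  have n0 : 0 < ‖ξ‖ := norm_pos_iff.2 h0
  have k1 : (1 / 2 : ℝ) ^ k ≤ 1 := pow_le_one₀ (by norm_num) (by norm_num)
  obtain ⟨j, j1, j2⟩ := exists_nat_pow_near_of_lt_one (x := ‖ξ‖ / d) (y := (1 / 2 : ℝ))
    (div_pos n0 hd) ((div_le_one hd).2 (by nlinarith)) (by norm_num) (by norm_num)
  rw [lt_div_iff₀ hd] at j1
  rw [div_le_iff₀ hd] at j2
  have jk : k ≤ j := by
    have : (1 / 2 : ℝ) ^ (j + 1) < (1 / 2) ^ k := by nlinarith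
    exact Nat.lt_succ_iff.1 ((pow_lt_pow_iff_right_of_lt_one₀ (by norm_num) (by norm_num)).1 this)
  have h1 := hA j ξ (by linarith)
  have h2 := dist_le_of_le_geometric_of_tendsto ρ _ r1 st hD j
  rw [dist_eq_norm] at h2
  have h3 : g ξ - D ξ = (g ξ - A j ξ) + (A j - D) ξ := by
    rw [ContinuousLinearMap.sub_apply]; abel
  have h4 := ((A j - D).le_opNorm ξ).trans (mul_le_mul_of_nonneg_right h2 n0.le)
  have h5 : ρ ^ j ≤ ρ ^ k := pow_le_pow_of_le_one r0 r1.le jk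
  have h6 : 0 ≤ 2 * K + 3 * K / (1 - ρ) := by have := sub_pos.2 r1; positivity
  have h7 : 0 ≤ K * ρ ^ j := by positivity
  rw [pow_succ] at j1
  calc ‖g ξ - D ξ‖ ≤ K * ρ ^ j * (2 * ‖ξ‖) + 3 * K * ρ ^ j / (1 - ρ) * ‖ξ‖ := by
        rw [h3]
        exact (norm_add_le _ _).trans (add_le_add
          (h1.trans (mul_le_mul_of_nonneg_left (by linarith) h7)) h4)
    _ = (2 * K + 3 * K / (1 - ρ)) * ρ ^ j * ‖ξ‖ := by ring
    _ ≤ _ := by gcongr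

/-- Uniform differentiability on bounded parts of `S`. -/
def UD (f : E → F) (S : Set E) (D : E → E →L[ℝ] F) : Prop := ∀ R ε : ℝ, 0 < ε → ∃ δ, 0 < δ ∧
  ∀ z ∈ S, ‖z‖ ≤ R → ∀ ξ, ‖ξ‖ ≤ δ → ‖f (z + ξ) - f z - D z ξ‖ ≤ ε * ‖ξ‖

theorem UD.der {f : E → F} {S : Set E} {D : E → E →L[ℝ] F} (h : UD f S D) {z : E} (hz : z ∈ S) :
    HasFDerivAt f (D z) z := by
  rw [hasFDerivAt_iff_isLittleO_nhds_zero, Asymptotics.isLittleO_iff]
  intro ε hε
  obtain ⟨δ, d0, hδ⟩ := h ‖z‖ ε hε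
  filter_upwards [Metric.closedBall_mem_nhds (0 : E) d0] with ξ hξ
  exact hδ z hz le_rfl ξ (mem_closedBall_zero_iff.1 hξ)

theorem UD.cont {f : E → F} {S : Set E} {D : E → E →L[ℝ] F} (h : UD f S D) :
    ContinuousOn D S := by
  refine Metric.continuousOn_iff.2 fun z hz ε hε => ?_
  obtain ⟨δ, d0, hδ⟩ := h (‖z‖ + 1) (ε / 5) (by positivity)
  refine ⟨min 1 (δ / 2), by positivity, fun y hy hyz => ?_⟩
  rw [dist_eq_norm, lt_min_iff] at hyz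
  have hn : ‖y‖ ≤ ‖z‖ + 1 := by linarith [norm_le_insert' y z]
  rw [dist_eq_norm]
  refine lt_of_le_of_lt (op_le _ (r := δ / 2) (M := 4 * (ε / 5)) (by positivity) (by positivity)
    fun ξ hξ => ?_) (by linarith)
  have n1 : ‖y - z + ξ‖ ≤ δ := by linarith [norm_add_le (y - z) ξ]
  have h1 := hδ y hy hn ξ (by linarith)
  have h2 := hδ z hz (by linarith) (y - z + ξ) n1
  have h3 := hδ z hz (by linarith) (y - z) (by linarith)
  rw [← add_assoc, add_sub_cancel] at h2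
  rw [add_sub_cancel] at h3
  have e : (D y - D z) ξ = (f (y + ξ) - f z - D z (y - z + ξ)) - (f (y + ξ) - f y - D y ξ) -
      (f y - f z - D z (y - z)) := by
    rw [ContinuousLinearMap.sub_apply, map_add]; abel
  rw [e]
  have := (norm_sub_le _ _).trans (add_le_add ((norm_sub_le _ _).trans (add_le_add h2 h1)) h3)
  nlinarith

end RLin

open DN DNC0 RLin

variable [Dim]

theorem lin : SLIN := by
  rintro φ ⟨η, hη, h⟩
  have fx : ∀ z : W, ‖z.2‖ = 1 → nz z = z := fun z hz => by simp [nz, hz]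
  have r0 : (0 : ℝ) ≤ (1 / 2) ^ η := by positivity
  have r1 : (1 / 2 : ℝ) ^ η < 1 := Real.rpow_lt_one (by norm_num) (by norm_num) hη
  have key : ∀ R : ℝ, ∃ K d : ℝ, 0 < d ∧ ∀ z : W, ‖z.2‖ = 1 → ‖z‖ ≤ R → ∃ D : W →L[ℝ] W,
      ∀ (k : ℕ) ξ, ‖ξ‖ ≤ d * (1 / 2) ^ k →
        ‖φ (nz (z + ξ)) - φ (nz z) - D ξ‖ ≤ K * ((1 / 2) ^ η) ^ k * ‖ξ‖ := by
    intro R
    obtain ⟨C, d, d0, hC⟩ := h R
    refine ⟨_, d, d0, fun z hz hR => RLin.lim (g := fun ξ => φ (nz (z + ξ)) - φ (nz z))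
      (K := |C| * d ^ η) (by simp) (by positivity) r0 r1 d0 fun k => ?_⟩
    have p : 0 < d * (1 / 2 : ℝ) ^ k := by positivity
    obtain ⟨A, hA⟩ := hC z _ hR hz p
      (mul_le_of_le_one_right d0.le (pow_le_one₀ (by norm_num) (by norm_num)))
    refine ⟨A, fun ξ hξ => ?_⟩
    rw [fx z hz]
    refine (hA ξ hξ).trans ((mul_le_mul_of_nonneg_right (le_abs_self C) (by positivity)).trans
      (le_of_eq ?_))
    rw [Real.rpow_add p, Real.rpow_one, Real.mul_rpow d0.le (by positivity),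
      ← Real.rpow_natCast, ← Real.rpow_natCast ((1 / 2 : ℝ) ^ η), ← Real.rpow_mul (by norm_num),
      ← Real.rpow_mul (by norm_num), mul_comm η]
    ring
  have sm : ∀ (K ε : ℝ), 0 < ε → ∃ k : ℕ, K * ((1 / 2 : ℝ) ^ η) ^ k ≤ ε := fun K ε hε => by
    have := (tendsto_pow_atTop_nhds_zero_of_lt_one r0 r1).const_mul K
    rw [mul_zero] at this
    exact (this.eventually (ge_mem_nhds hε)).exists
  have un : ∀ R ε : ℝ, 0 < ε → ∃ δ, 0 < δ ∧ ∀ z : W, ‖z.2‖ = 1 → ‖z‖ ≤ R → ∀ ξ, ‖ξ‖ ≤ δ →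
      ‖φ (nz (z + ξ)) - φ (nz z) - fderiv ℝ (fun z => φ (nz z)) z ξ‖ ≤ ε * ‖ξ‖ := by
    intro R ε hε
    obtain ⟨K, d, d0, hK⟩ := key R
    obtain ⟨k, hk⟩ := sm K ε hε
    refine ⟨d * (1 / 2) ^ k, by positivity, fun z hz hR ξ hξ => ?_⟩
    obtain ⟨D, hD⟩ := hK z hz hR
    have u : UD (fun z => φ (nz z)) {z} fun _ => D := fun _ ε hε => by
      obtain ⟨k, hk⟩ := sm K ε hε
      refine ⟨d * (1 / 2) ^ k, by positivity, ?_⟩
      rintro _ rfl - ξ hξ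
      exact (hD k ξ hξ).trans (mul_le_mul_of_nonneg_right hk (norm_nonneg _))
    rw [(u.der rfl).fderiv]
    exact (hD k ξ hξ).trans (mul_le_mul_of_nonneg_right hk (norm_nonneg _))
  have u : UD (fun z => φ (nz z)) {z | ‖z.2‖ = 1} (fderiv ℝ fun z => φ (nz z)) := un
  have op : IsOpen {z : W | z.2 ≠ 0} := isOpen_ne.preimage continuous_snd
  have cn : ContDiffOn ℝ 1 (nz : W → W) {z | z.2 ≠ 0} := fun z hz =>
    (contDiffAt_fst.prodMk (((contDiffAt_snd.norm ℝ hz).inv (norm_ne_zero_iff.2 hz)).smul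
      contDiffAt_snd)).contDiffWithinAt
  have mp : ∀ z : W, z.2 ≠ 0 → ‖(nz z).2‖ = 1 := fun z hz => by
    simp [nz, norm_smul, inv_mul_cancel₀ (norm_ne_zero_iff.2 hz)]
  have dr : ∀ z : W, z.2 ≠ 0 → HasFDerivAt (fun z => φ (nz z))
      ((fderiv ℝ (fun z => φ (nz z)) (nz z)).comp (fderiv ℝ nz z)) z := fun z hz => by
    refine ((u.der (mp z hz)).comp z ((cn.contDiffAt (op.mem_nhds hz)).differentiableAt
      one_ne_zero).hasFDerivAt).congr_of_eventuallyEq ?_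
    filter_upwards [op.mem_nhds hz] with y hy
    exact congrArg φ (fx _ (mp y hy)).symm
  rw [show (1 : WithTop ℕ∞) = 0 + 1 from (zero_add _).symm,
    contDiffOn_succ_iff_fderiv_of_isOpen op]
  refine ⟨fun z hz => (dr z hz).differentiableAt.differentiableWithinAt, by simp, ?_⟩
  rw [contDiffOn_zero]
  exact ((u.cont.comp cn.continuousOn mp).clm_comp
    (cn.continuousOn_fderiv_of_isOpen op le_rfl)).congr fun z hz => (dr z hz).fderiv

end Pool.Agent.MP_3ee8cb_gt.DNB2
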