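import Pool.Agent.MP_3ee8cb_gt.DNB2.H19Base

/-! Row LINA: linear approximation at every scale. -/

namespace Pool.Agent.MP_3ee8cb_gt.DNB2

open DN (Dim dm)

open Set Filter Topology Real DN DNC0 H19
open scoped RealInnerProductSpace

namespace RLina

theorem abs_lin (X Y Z : Type) [NormedAddCommGroup X] [NormedSpace ℝ X] [FiniteDimensional ℝ X]
    [NormedAddCommGroup Y] [NormedSpace ℝ Y] [NormedAddCommGroup Z] [NormedSpace ℝ Z] :
    ∃ M : ℝ, 0 ≤ M ∧ ∀ (f : X → Y) (d E c : ℝ), 0 < d → (∀ v : Y, ∃ (l : Y →ₗ[ℝ] Z)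
      (l' : X →ₗ[ℝ] Z), c * ‖v‖ ≤ ‖l v‖ ∧ ∀ ξ, ‖ξ‖ ≤ d → ‖l (f ξ) - l' ξ‖ ≤ E) →
      ∃ A : X →L[ℝ] Y, ∀ ξ, ‖ξ‖ ≤ d → c * ‖f ξ - A ξ‖ ≤ M * E := by
  let b := Module.finBasis ℝ X
  let x := fun j => LinearMap.toContinuousLinearMap (b.coord j)
  refine ⟨1 + ∑ j, ‖x j‖ * ‖b j‖, by positivity, fun f d E c d0 h => ?_⟩
  have b0 : ∀ j, 0 < ‖b j‖ := fun j => norm_pos_iff.2 (b.ne_zero j)
  refine ⟨∑ j, (x j).smulRight ((‖b j‖ / d) • f ((d / ‖b j‖) • b j)), fun ξ hξ => ?_⟩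
  obtain ⟨l, l', h1, h2⟩ := h (f ξ - (∑ j, (x j).smulRight
    ((‖b j‖ / d) • f ((d / ‖b j‖) • b j))) ξ)
  refine h1.trans ?_
  have e1 : l' ξ = ∑ j, (x j ξ * (‖b j‖ / d)) • l' ((d / ‖b j‖) • b j) := by
    nth_rewrite 1 [← b.sum_repr ξ]
    rw [map_sum]
    refine Finset.sum_congr rfl fun j _ => ?_
    have := (b0 j).ne'
    rw [map_smul, map_smul, smul_smul]
    congr 1
    change _ = b.repr ξ j * _ * _
    field_simp
  have e2 : l (f ξ - (∑ j, (x j).smulRight ((‖b j‖ / d) • f ((d / ‖b j‖) • b j))) ξ) =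
      (l (f ξ) - l' ξ) - ∑ j, (x j ξ * (‖b j‖ / d)) •
        (l (f ((d / ‖b j‖) • b j)) - l' ((d / ‖b j‖) • b j)) := by
    simp only [smul_sub, Finset.sum_sub_distrib]
    rw [← e1, map_sub, sum_apply, map_sum]
    simp only [ContinuousLinearMap.smulRight_apply, map_smul, smul_smul]
    abel
  rw [e2, add_mul, one_mul, Finset.sum_mul]
  refine (norm_sub_le _ _).trans (add_le_add (h2 ξ hξ) ((norm_sum_le _ _).trans
    (Finset.sum_le_sum fun j _ => ?_)))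
  have n1 : ‖(d / ‖b j‖) • b j‖ ≤ d := by
    rw [norm_smul, Real.norm_of_nonneg (div_pos d0 (b0 j)).le, div_mul_cancel₀ _ (b0 j).ne']
  have n2 : ‖x j ξ * (‖b j‖ / d)‖ ≤ ‖x j‖ * ‖b j‖ := by
    rw [norm_mul, Real.norm_of_nonneg (div_pos (b0 j) d0).le]
    calc _ ≤ ‖x j‖ * d * (‖b j‖ / d) :=
          mul_le_mul_of_nonneg_right ((x j).le_of_opNorm_le_of_le le_rfl hξ) (by positivity)
      _ = _ := by field_simp
  rw [norm_smul]
  exact mul_le_mul n2 (h2 _ n1) (norm_nonneg _) (by positivity)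

theorem erb {σ κ B d x y e : ℝ} (s1 : σ ≤ 1) (B1 : 1 ≤ B) (d0 : 0 < d) (d1 : d ≤ 1)
    (h1 : e ≤ x * σ + 2 * y) (h2 : e ≤ x * (1 + κ) + y * (1 - κ)) :
    er σ κ (B * d ^ x) (B * d ^ y) ≤ 2 * B ^ 3 * d ^ e := by
  have B0 : 0 < B := by linarith
  have p := fun t : ℝ => (rpow_pos_of_pos d0 t).le
  have a1 : (B * d ^ x) ^ σ * (B * d ^ y) ^ 2 = B ^ σ * B ^ 2 * d ^ (x * σ + 2 * y) := by
    rw [mul_rpow B0.le (p _), ← rpow_mul d0.le, two_mul, rpow_add d0, rpow_add d0]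
    ring
  have a2 : (B * d ^ x) ^ (1 + κ) * (B * d ^ y) ^ (1 - κ) =
      B ^ 2 * d ^ (x * (1 + κ) + y * (1 - κ)) := by
    rw [mul_rpow B0.le (p _), mul_rpow B0.le (p _), ← rpow_mul d0.le, ← rpow_mul d0.le,
      rpow_add d0, mul_mul_mul_comm, ← rpow_add B0, show 1 + κ + (1 - κ) = 2 by ring, rpow_two]
  have a3 : B ^ σ ≤ B := by simpa using rpow_le_rpow_of_exponent_le B1 s1
  have a4 := rpow_le_rpow_of_exponent_ge d0 d1 h1
  have a5 := rpow_le_rpow_of_exponent_ge d0 d1 h2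
  have a6 : B ^ 2 ≤ B * B ^ 2 := le_mul_of_one_le_left (by positivity) B1
  have := p e
  rw [er, a1, a2]
  calc _ ≤ B * B ^ 2 * d ^ e + B * B ^ 2 * d ^ e := by gcongr
    _ = _ := by ring

theorem expo {σ κ σ' κ' : ℝ} (s0 : 0 < σ) (s1 : σ ≤ 1) (k0 : 0 < κ) (k1 : κ ≤ 1) (s0' : 0 < σ')
    (k0' : 0 < κ') (k1' : κ' ≤ 1) : ∃ ρ θ η : ℝ, 0 < η ∧ 0 < ρ ∧ ρ ≤ θ ∧ θ < 1 ∧
      ρ + (1 + η) ≤ θ * σ' + 2 * ρ ∧ ρ + (1 + η) ≤ θ * (1 + κ') + ρ * (1 - κ') ∧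
      ρ + (1 + η) ≤ 1 * σ + 2 * (ρ * θ) ∧ ρ + (1 + η) ≤ 1 * (1 + κ) + ρ * θ * (1 - κ) ∧
      ρ + (1 + η) ≤ θ + θ := by
  obtain ⟨s, p0, p1, p2⟩ : ∃ s, 0 < s ∧ s ≤ σ ∧ s ≤ σ' :=
    ⟨min σ σ', lt_min s0 s0', min_le_left _ _, min_le_right _ _⟩
  obtain ⟨k, q0, q1, q2⟩ : ∃ s, 0 < s ∧ s ≤ κ ∧ s ≤ κ' :=
    ⟨min κ κ', lt_min k0 k0', min_le_left _ _, min_le_right _ _⟩
  obtain ⟨δ, hδ⟩ : ∃ δ, δ = k * s / 6 := ⟨_, rfl⟩
  have δ0 : 0 < δ := by rw [hδ]; positivity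
  have δ1 : 6 * δ ≤ s := by nlinarith
  have δ2 : 6 * δ ≤ κ * s := by nlinarith
  have δ3 : 6 * δ ≤ κ' * s := by nlinarith
  have δ4 : (1 - δ) * s ≤ (1 - δ) * σ' := mul_le_mul_of_nonneg_left p2 (by linarith)
  have δ5 := mul_pos δ0 p0
  have δ6 : δ * s ≤ δ * 1 := mul_le_mul_of_nonneg_left (p1.trans s1) δ0.le
  have δ7 : δ * κ' ≤ δ * 1 := mul_le_mul_of_nonneg_left k1' δ0.le
  have δ8 : 0 ≤ δ * (κ + s / 2 * (1 - κ)) := by
    have := sub_nonneg.2 k1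
    positivity
  exact ⟨1 - s / 2, 1 - δ, δ, δ0, by linarith, by linarith, by linarith, by linarith, by linarith,
    by linarith, by linarith, by linarith⟩

variable [Dim]

theorem nzq {z ξ : W} {d : ℝ} (hz : ‖z.2‖ = 1) (hξ : ‖ξ‖ ≤ d) (d1 : d ≤ 1 / 4) :
    ‖(nz (z + ξ)).2‖ = 1 ∧ ‖nz (z + ξ) - z‖ ≤ 2 * d ∧
      ‖nz (z + ξ) - z - (ξ.1, ξ.2 - ⟪z.2, ξ.2⟫ • z.2)‖ ≤ 6 * d ^ 2 := by
  have x1 := (norm_fst_le ξ).trans hξ
  have x2 := (norm_snd_le ξ).trans hξ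
  have d0 := (norm_nonneg _).trans hξ
  have n2 : |‖z.2 + ξ.2‖ - 1| ≤ d := by
    have := abs_norm_sub_norm_le (z.2 + ξ.2) z.2
    rw [hz, add_sub_cancel_left] at this
    exact this.trans x2
  have n3 := norm_add_sq_real z.2 ξ.2
  obtain ⟨t, ht⟩ : ∃ t, t = ‖z.2 + ξ.2‖ := ⟨_, rfl⟩
  have e0 : nz (z + ξ) = (z.1 + ξ.1, t⁻¹ • (z.2 + ξ.2)) := by rw [ht]; rfl
  rw [← ht] at n2 n3
  obtain ⟨n4, n5⟩ := abs_le.1 n2
  have t0 : 0 < t := by linarith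
  have i1 : t⁻¹ ≤ 2 := inv_le_of_inv_le₀ two_pos (by linarith)
  have i0 := inv_pos.2 t0
  have a1 : |t⁻¹ - 1| ≤ 2 * d := by
    have : t⁻¹ - 1 = -(t⁻¹ * (t - 1)) := by field_simp; ring
    rw [this, abs_neg, abs_mul, abs_of_pos i0]
    gcongr
  have u2 : ‖ξ.2‖ ^ 2 ≤ d ^ 2 := by gcongr
  have a2 : |t⁻¹ - 1 + ⟪z.2, ξ.2⟫| ≤ 4 * d ^ 2 := by
    have e : t⁻¹ - 1 + ⟪z.2, ξ.2⟫ = (t - 1) ^ 2 * (1 / 2 + t⁻¹) - ‖ξ.2‖ ^ 2 / 2 := by
      have : ⟪z.2, ξ.2⟫ = (t ^ 2 - 1 - ‖ξ.2‖ ^ 2) / 2 := by rw [n3, hz]; ring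
      rw [this]
      field_simp
      ring
    have b1 : (t - 1) ^ 2 ≤ d ^ 2 := sq_le_sq' n4 n5
    rw [e, abs_le]
    constructor <;> nlinarith [sq_nonneg (t - 1), sq_nonneg ‖ξ.2‖, sq_nonneg d,
      mul_le_mul b1 i1 i0.le (sq_nonneg d), mul_nonneg (sq_nonneg (t - 1)) i0.le]
  refine ⟨?_, ?_, ?_⟩
  · rw [e0, norm_smul, ← ht, Real.norm_of_nonneg i0.le, inv_mul_cancel₀ t0.ne']
  · have e : nz (z + ξ) - z = (ξ.1, (t⁻¹ - 1) • (z.2 + ξ.2) + ξ.2) := by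
      rw [e0]
      refine Prod.ext (by simp) ?_
      simp only [Prod.snd_sub, sub_smul, one_smul]
      abel
    have : ‖(t⁻¹ - 1) • (z.2 + ξ.2)‖ = |t - 1| := by
      rw [norm_smul, ← ht, Real.norm_eq_abs, ← abs_of_pos t0, ← abs_mul, abs_of_pos t0,
        abs_sub_comm]
      congr 1
      field_simp
    rw [e, Prod.norm_def]
    exact max_le (by linarith) ((norm_add_le _ _).trans (by linarith))
  · have e : nz (z + ξ) - z - (ξ.1, ξ.2 - ⟪z.2, ξ.2⟫ • z.2) =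
        (0, (t⁻¹ - 1) • ξ.2 + (t⁻¹ - 1 + ⟪z.2, ξ.2⟫) • z.2) := by
      rw [e0]
      refine Prod.ext (by simp) ?_
      simp only [Prod.snd_sub, sub_smul, add_smul, one_smul, smul_add]
      abel
    rw [e, Prod.norm_def, norm_zero]
    refine max_le (by positivity) ((norm_add_le _ _).trans ?_)
    rw [norm_smul, norm_smul, hz, mul_one, Real.norm_eq_abs, Real.norm_eq_abs]
    linarith [mul_le_mul a1 x2 (norm_nonneg _) (by linarith)]

/-- The three test functionals. -/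
noncomputable def lam (m : MF) (z η : W) (r t : ℝ) : W →ₗ[ℝ] ℝ × ℝ × ℝ where
  toFun v := (r * al m z v, t * ⟪v.2, z.2⟫, om m z v η)
  map_add' u v := by
    simp only [al, om, map_add, inner_add_left, Prod.snd_add, Prod.mk_add_mk]
    refine Prod.ext ?_ (Prod.ext ?_ ?_) <;> ring
  map_smul' c v := by
    simp only [al, om, map_smul, real_inner_smul_left, Prod.smul_snd, Prod.smul_mk, smul_eq_mul,
      RingHom.id_apply]
    refine Prod.ext ?_ (Prod.ext ?_ ?_) <;> ring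

/-- The projection onto the tangent space of the unit sphere bundle. -/
noncomputable def prj (z : W) : W →ₗ[ℝ] W where
  toFun ξ := (ξ.1, ξ.2 - ⟪z.2, ξ.2⟫ • z.2)
  map_add' u v := by
    refine Prod.ext rfl ?_
    simp only [Prod.snd_add, inner_add_right, add_smul]
    abel
  map_smul' c v := by
    refine Prod.ext rfl ?_
    simp only [Prod.smul_snd, real_inner_smul_right, RingHom.id_apply, smul_sub, smul_smul]

end RLina

open RLina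

variable [Dim]

theorem lina : SLINA := by
  intro m lg β m' lg' β' φ ψ c1 c2 σ κ σ' κ' X X' HL' HG'
  obtain ⟨ρ, θ, η, η0, ρ0, ρθ, θ1, x1, x2, x3, x4, x5⟩ :=
    expo X.s0 X.s1 X.k0 X.k1 X'.s0 X'.k0 X'.k1
  have θ0 : 0 < θ := ρ0.trans_le ρθ
  refine ⟨η, η0, fun R => ?_⟩
  obtain ⟨M, M0, hM⟩ := abs_lin W W (ℝ × ℝ × ℝ)
  obtain ⟨R', -, hR'⟩ := bnd c1 R
  obtain ⟨C₁, C1, h1⟩ := HG' θ θ0.le θ1 (R + 1)
  obtain ⟨C₂, c, l₂, C2, c0, l2, h2⟩ := X'.nrm R'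
  obtain ⟨C₃, C3, h3⟩ := HL' θ θ0.le θ1 (R' + 1)
  obtain ⟨C₄, l₄, C4, l4, h4⟩ := X.fw R
  obtain ⟨C₅, l₅, C5, l5, h5⟩ := X.bw R
  obtain ⟨C₆, l₆, C6, l6, h6⟩ := X'.fw R'
  obtain ⟨C₇, l₇, C7, l7, h7⟩ := X'.bw R'
  obtain ⟨l₈, l8, h8⟩ := c1.inv (R + 1)
  obtain ⟨C₉, C9, h9⟩ := X.bd R
  obtain ⟨B, hB⟩ : ∃ B, B = 2 + 2 * C₁ + C₂ + C₃ * (C₂ + 1) := ⟨_, rfl⟩
  have C32 : 0 ≤ C₃ * (C₂ + 1) := by positivity
  have B2 : 2 ≤ B := by linarith
  obtain ⟨l, l0, m1, m2, m4, m5, m6, m7, m8⟩ : ∃ l : ℝ, 0 < l ∧ l ≤ 1 / 2 ∧ l ≤ l₂ ∧ l ≤ l₄ ∧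
      l ≤ l₅ ∧ l ≤ l₆ ∧ l ≤ l₇ ∧ l ≤ l₈ / 2 :=
    ⟨min (min (min (1 / 2) l₂) (min l₄ l₅)) (min (min l₆ l₇) (l₈ / 2)), by positivity, by simp,
      by simp, by simp, by simp, by simp, by simp, by simp⟩
  obtain ⟨δ, δ0, hδ⟩ := small (mul_pos ρ0 θ0) (div_pos l0 (by linarith : 0 < B))
  obtain ⟨K, hK⟩ : ∃ K, K = (C₄ + C₅ + C₆ + C₇) * (2 * B ^ 3) := ⟨_, rfl⟩
  have K0 : 0 ≤ K := by rw [hK]; positivity
  refine ⟨M * (2 * K + B ^ 2 + C₉ * 6) / (c / 3), min δ 1, by positivity,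
    fun z d hz uz d0 dd => ?_⟩
  have d1 : d ≤ 1 := dd.trans (min_le_right _ _)
  have pw := fun t : ℝ => rpow_pos_of_pos d0 t
  have mo : ∀ {s t : ℝ}, s ≤ t → d ^ t ≤ d ^ s := fun h => rpow_le_rpow_of_exponent_ge d0 d1 h
  have mB : ∀ {s t : ℝ}, s ≤ t → B * d ^ t ≤ B * d ^ s := fun h =>
    mul_le_mul_of_nonneg_left (mo h) (by linarith)
  have pB : ∀ t : ℝ, 0 < B * d ^ t := fun t => mul_pos (by linarith) (pw t)
  have s0 : B * d ^ (ρ * θ) ≤ l :=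
    (le_div_iff₀' (by linarith)).1 (hδ d d0.le (dd.trans (min_le_left _ _)))
  have r1 : ρ * θ ≤ ρ := mul_le_of_le_one_right ρ0.le θ1.le
  have s1 : B * d ^ ρ ≤ l := (mB r1).trans s0
  have s2 : B * d ^ (1 : ℝ) ≤ B * d ^ (ρ * θ) := mB (by linarith)
  have s3 : 2 * d ≤ B * d ^ (1 : ℝ) := by
    rw [rpow_one]
    exact mul_le_mul_of_nonneg_right B2 d0.le
  have s4 : d ^ ρ ≤ B * d ^ ρ := le_mul_of_one_le_left (pw ρ).le (by linarith)
  have e1 := erb (κ := κ') X'.s1 (by linarith : 1 ≤ B) d0 d1 x1 x2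
  have e2 := erb (κ := κ) X.s1 (by linarith : 1 ≤ B) d0 d1 x3 x4
  obtain ⟨D, hD⟩ : ∃ D, D = d ^ (ρ + (1 + η)) := ⟨_, rfl⟩
  have D0 : 0 < D := hD ▸ pw _
  have D1 : d ^ 2 ≤ D := by
    rw [hD, ← rpow_two]
    exact mo (by linarith)
  have D2 : (B * d ^ θ) ^ 2 ≤ B ^ 2 * D := by
    rw [mul_pow, sq (d ^ θ), ← rpow_add d0, hD]
    exact mul_le_mul_of_nonneg_left (mo x5) (sq_nonneg _)
  rw [← hD] at e1 e2
  have k4 := mul_le_mul_of_nonneg_left e2 C4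
  have k5 := mul_le_mul_of_nonneg_left e2 C5
  have k6 := mul_le_mul_of_nonneg_left e1 C6
  have k7 := mul_le_mul_of_nonneg_left e1 C7
  have kp : ∀ C : ℝ, 0 ≤ C → 0 ≤ C * (2 * B ^ 3 * D) := fun C h => by positivity
  have kK : K * D = C₄ * (2 * B ^ 3 * D) + C₅ * (2 * B ^ 3 * D) + C₆ * (2 * B ^ 3 * D) +
      C₇ * (2 * B ^ 3 * D) := by rw [hK]; ring
  have nw := hR' z hz uz
  have uw := c1.unit z uz
  obtain ⟨A, hA⟩ := hM (fun ξ => φ (nz (z + ξ)) - φ z) d ((2 * K + B ^ 2 + C₉ * 6) * D)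
    (c / 3 * d ^ ρ) d0 fun v => by
      obtain ⟨q, uq, lq, nq, hq⟩ := h2 (φ z) v (d ^ ρ) nw uw (pw ρ) (by linarith)
      have q1 : ‖q - φ z‖ ≤ B * d ^ ρ :=
        nq.trans (mul_le_mul_of_nonneg_right (by linarith) (pw ρ).le)
      have q2 : ‖ψ q - z‖ ≤ B * d ^ (ρ * θ) := by
        have a := h3 (φ z) q (by linarith) (by linarith [norm_le_insert' q (φ z)]) uw uq lq
        rw [c1.left z uz] at a
        have b1 : ‖q - φ z‖ ^ θ ≤ ((C₂ + 1) * d ^ ρ) ^ θ := rpow_le_rpow (norm_nonneg _)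
          (nq.trans (mul_le_mul_of_nonneg_right (by linarith) (pw ρ).le)) θ0.le
        have b2 : (C₂ + 1) ^ θ ≤ C₂ + 1 := by
          simpa using rpow_le_rpow_of_exponent_le (by linarith : 1 ≤ C₂ + 1) θ1.le
        rw [mul_rpow (by linarith) (pw ρ).le, ← rpow_mul d0.le] at b1
        have := (pw (ρ * θ)).le
        calc _ ≤ C₃ * ((C₂ + 1) * d ^ (ρ * θ)) := a.trans (mul_le_mul_of_nonneg_left
              (b1.trans (mul_le_mul_of_nonneg_right b2 this)) C3)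
          _ = C₃ * (C₂ + 1) * d ^ (ρ * θ) := by ring
          _ ≤ _ := mul_le_mul_of_nonneg_right (by linarith) this
      have uψ := c2.unit q uq
      refine ⟨lam m' (φ z) (q - φ z) (d ^ ρ) (d ^ ρ),
        (lam m z (ψ q - z) (d ^ ρ) 0).comp (prj z), ?_, fun ξ hξ => ?_⟩
      · have a1 := norm_fst_le (lam m' (φ z) (q - φ z) (d ^ ρ) (d ^ ρ) v)
        have a2 := (norm_fst_le _).trans (norm_snd_le (lam m' (φ z) (q - φ z) (d ^ ρ) (d ^ ρ) v))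
        have a3 := (norm_snd_le _).trans (norm_snd_le (lam m' (φ z) (q - φ z) (d ^ ρ) (d ^ ρ) v))
        change |d ^ ρ * al m' (φ z) v| ≤ _ at a1
        change |d ^ ρ * ⟪v.2, (φ z).2⟫| ≤ _ at a2
        change |om m' (φ z) v (q - φ z)| ≤ _ at a3
        rw [abs_mul, abs_of_pos (pw ρ)] at a1 a2
        linarith
      obtain ⟨up, p1, p2⟩ := nzq uz hξ (by linarith)
      change ‖nz (z + ξ) - z - prj z ξ‖ ≤ _ at p2
      generalize nz (z + ξ) = p at up p1 p2 ⊢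
      have np : ‖p‖ ≤ R + 1 := by linarith [norm_le_insert' p z]
      have up' := c1.unit p up
      have p3 : ‖φ p - φ z‖ ≤ B * d ^ θ := by
        have b1 : ‖p - z‖ ^ θ ≤ (2 * d) ^ θ := rpow_le_rpow (norm_nonneg _) p1 θ0.le
        have b2 : (2 : ℝ) ^ θ ≤ 2 := by
          simpa using rpow_le_rpow_of_exponent_le (by norm_num : (1 : ℝ) ≤ 2) θ1.le
        rw [mul_rpow two_pos.le d0.le] at b1
        have := (pw θ).le
        calc _ ≤ C₁ * (2 * d ^ θ) := (h1 z p (by linarith) np uz up).trans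
              (mul_le_mul_of_nonneg_left (b1.trans (mul_le_mul_of_nonneg_right b2 this)) C1)
          _ = 2 * C₁ * d ^ θ := by ring
          _ ≤ _ := mul_le_mul_of_nonneg_right (by linarith) this
      have o0 : ∀ (n : MF) (x y : W), om n x y (x - x) = 0 := fun n x y => by simp [om]
      have z1 := abs_le.1 (h4 z p z _ _ hz uz up uz (X.refl z).1 (pB 1) s2 (by linarith)
        (p1.trans s3) (by rw [sub_self, norm_zero]; exact (pB _).le))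
      have z2 := abs_le.1 (h6 (φ z) (φ p) (φ z) _ _ nw uw up' uw (X'.refl _).1 (pB θ) (mB ρθ)
        (by linarith) p3 (by rw [sub_self, norm_zero]; exact (pB _).le))
      rw [o0] at z1 z2
      rw [h8 p z np up uz (by rw [norm_sub_rev]; linarith)] at z2
      have z3 : |al m' (φ z) (φ p - φ z) - al m z (p - z)| ≤ K * D :=
        abs_le.2 ⟨by linarith [z1.1, z2.2, kp _ C5, kp _ C7],
          by linarith [z1.2, z2.1, kp _ C5, kp _ C7]⟩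
      have dq : ‖ψ q - p‖ ≤ l₈ := by
        have := norm_sub_le_norm_sub_add_norm_sub (ψ q) z p
        rw [norm_sub_rev z] at this
        linarith
      have z4 : |al m' (φ z) (φ p - φ z) + om m' (φ z) (φ p - φ z) (q - φ z) -
          (al m z (p - z) + om m z (p - z) (ψ q - z))| ≤ K * D := by
        rcases lq with lq | lq
        · have f1 := c2.fw _ _ uq uw lq
          rw [c1.left z uz] at f1
          have a1 := abs_le.1 (h4 z p (ψ q) _ _ hz uz up uψ f1 (pB 1) s2 (by linarith)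
            (p1.trans s3) q2)
          have a2 := abs_le.1 (h6 (φ z) (φ p) q _ _ nw uw up' uq lq (pB θ) (mB ρθ) (by linarith)
            p3 q1)
          have a3 := h8 p (ψ q) np up uψ dq
          rw [c2.left q uq] at a3
          exact abs_le.2 ⟨by linarith [a1.1, a2.2, kp _ C5, kp _ C7],
            by linarith [a1.2, a2.1, kp _ C5, kp _ C7]⟩
        · have f1 := c2.bw _ _ uq uw lq
          rw [c1.left z uz] at f1
          have a1 := abs_le.1 (h5 z p (ψ q) _ _ hz uz up uψ f1 (pB 1) s2 (by linarith)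
            (p1.trans s3) q2)
          have a2 := abs_le.1 (h7 (φ z) (φ p) q _ _ nw uw up' uq lq (pB θ) (mB ρθ) (by linarith)
            p3 q1)
          have a3 := h8 (ψ q) p (by linarith [norm_le_insert' (ψ q) z]) uψ up
            (by rwa [norm_sub_rev])
          rw [c2.left q uq] at a3
          exact abs_le.2 ⟨by linarith [a1.2, a2.1, kp _ C4, kp _ C6],
            by linarith [a1.1, a2.2, kp _ C4, kp _ C6]⟩
      obtain ⟨y1, y2⟩ := h9 z (p - z - prj z ξ) (ψ q - z) hz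
      have y3 : C₉ * ‖p - z - prj z ξ‖ ≤ C₉ * (6 * D) :=
        mul_le_mul_of_nonneg_left (by linarith) C9
      have y4 : C₉ * ‖p - z - prj z ξ‖ * ‖ψ q - z‖ ≤ C₉ * (6 * D) :=
        (mul_le_of_le_one_right (by positivity) (by linarith)).trans y3
      have y5 : al m z (p - z - prj z ξ) = al m z (p - z) - al m z (prj z ξ) := by
        simp only [al, map_sub (m.hor z) (p - z), inner_sub_left]
      have y6 : om m z (p - z - prj z ξ) (ψ q - z) =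
          om m z (p - z) (ψ q - z) - om m z (prj z ξ) (ψ q - z) := by
        simp only [om, map_sub (m.hor z) (p - z), map_sub (m.ver z) (p - z), inner_sub_left]
        ring
      rw [y5] at y1
      rw [y6] at y2
      have y7 : |⟪(φ p - φ z).2, (φ z).2⟫| ≤ B ^ 2 * D := by
        have a1 := norm_add_sq_real (φ p - φ z).2 (φ z).2
        have a2 : (φ p - φ z).2 + (φ z).2 = (φ p).2 := by simp
        have a3 : ‖(φ p - φ z).2‖ ^ 2 ≤ (B * d ^ θ) ^ 2 :=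
          pow_le_pow_left₀ (norm_nonneg _) ((norm_snd_le _).trans p3) 2
        rw [a2, up', uw] at a1
        exact abs_le.2 ⟨by linarith [sq_nonneg (B * d ^ θ)],
          by linarith [sq_nonneg ‖(φ p - φ z).2‖, sq_nonneg (B * d ^ θ)]⟩
      have r2 : d ^ ρ ≤ 1 := by linarith
      have KD := mul_nonneg K0 D0.le
      have BD := mul_nonneg (sq_nonneg B) D0.le
      have CD := mul_nonneg C9 D0.le
      rw [abs_le] at y1 y2 z3 z4
      change ‖((d ^ ρ * al m' (φ z) (φ p - φ z) - d ^ ρ * al m z (prj z ξ),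
        d ^ ρ * ⟪(φ p - φ z).2, (φ z).2⟫ - 0 * ⟪(prj z ξ).2, z.2⟫,
        om m' (φ z) (φ p - φ z) (q - φ z) - om m z (prj z ξ) (ψ q - z)) : ℝ × ℝ × ℝ)‖ ≤ _
      rw [Prod.norm_def, Prod.norm_def, zero_mul, sub_zero, ← mul_sub]
      simp only [Real.norm_eq_abs, abs_mul, abs_of_pos (pw ρ)]
      refine max_le ((mul_le_of_le_one_left (abs_nonneg _) r2).trans (abs_le.2
        ⟨by linarith [y1.1, z3.1], by linarith [y1.2, z3.2]⟩)) (max_le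
        ((mul_le_of_le_one_left (abs_nonneg _) r2).trans (by linarith)) (abs_le.2
        ⟨by linarith [y2.1, z3.2, z4.1], by linarith [y2.2, z3.1, z4.2]⟩))
  refine ⟨A, fun ξ hξ => ?_⟩
  have a := hA ξ hξ
  rw [hD, rpow_add d0] at a
  rw [div_mul_eq_mul_div, le_div_iff₀ (by positivity)]
  refine le_of_mul_le_mul_right ?_ (pw ρ)
  linarith

end Pool.Agent.MP_3ee8cb_gt.DNB2
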