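import Pool.Agent.MP_3ee8cb_gt.DNB2.Spec
import Pool.Agent.MP_3ee8cb_gt.DNC0.H38Step

/-! Test vectors on the two leaves norm the tangent space. -/

namespace Pool.Agent.MP_3ee8cb_gt.DNB2

open DN (Dim dm)

variable [Dim]

open Set Filter Topology Real DN DNC0
open scoped RealInnerProductSpace

namespace RNrm

theorem perp {n : V} (hn : ‖n‖ = 1) (H : V) : ∃ X : V, ⟪X, n⟫ = 0 ∧ H = ⟪H, n⟫ • n + X ∧
    ‖H‖ ≤ |⟪H, n⟫| + ‖X‖ := by
  refine ⟨H - ⟪H, n⟫ • n, ?_, by abel, ?_⟩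
  · rw [inner_sub_left, real_inner_smul_left, real_inner_self_eq_norm_sq, hn]
    ring
  · have h := norm_add_le (⟪H, n⟫ • n) (H - ⟪H, n⟫ • n)
    rwa [add_sub_cancel, norm_smul, hn, mul_one, Real.norm_eq_abs] at h

theorem dir {n X : V} (h : ⟪X, n⟫ = 0) (h0 : 0 < ‖X‖) : ∃ e : V, ‖e‖ = 1 ∧ ⟪e, n⟫ = 0 ∧
    X = ‖X‖ • e := by
  refine ⟨‖X‖⁻¹ • X, ?_, ?_, ?_⟩
  · rw [norm_smul, norm_inv, norm_norm, inv_mul_cancel₀ h0.ne']
  · rw [real_inner_smul_left, h, mul_zero]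
  · rw [smul_smul, mul_inv_cancel₀ h0.ne', one_smul]

theorem ab {C c : ℝ} (C0 : 0 ≤ C) (c0 : 0 < c) : ∃ ε c' : ℝ, 0 < ε ∧ 0 < c' ∧
    ∀ (n H U : V) (r : ℝ) (P : V → V → Prop), ‖n‖ = 1 → 0 < r → P 0 0 →
    (∀ e : V, ‖e‖ = 1 → ⟪e, n⟫ = 0 →
      (∃ h v, P h v ∧ ‖h - r • e‖ ≤ ε * r ∧ ‖v‖ ≤ C * r ∧ ⟪v, e⟫ ≤ -(c * r)) ∧
      ∃ h v, P h v ∧ ‖h - r • e‖ ≤ ε * r ∧ ‖v‖ ≤ C * r ∧ c * r ≤ ⟪v, e⟫) →
    ∃ h v, P h v ∧ c' * r * (‖H‖ + ‖U‖) ≤
      r * |⟪H, n⟫| + r * |⟪U, n⟫| + |⟪H, v⟫ - ⟪U, h⟫| := by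
  obtain ⟨M, hM⟩ : ∃ M, M = 4 * (C + 1) := ⟨_, rfl⟩
  have M4 : 4 ≤ M := by linarith
  obtain ⟨l, hl⟩ : ∃ l, l = 1 / (2 * (C + 1)) := ⟨_, rfl⟩
  have l0 : 0 < l := by rw [hl]; positivity
  have lC : l * (2 * (C + 1)) = 1 := by rw [hl]; field_simp
  have l1 : l ≤ 1 / 2 := by nlinarith
  have lC' : l * C ≤ 1 / 2 := by nlinarith
  refine ⟨min (1 / 4) (c / (2 * M)), min (l / 4) (l * c / (2 * (1 + M))), by positivity,
    by positivity, fun n H U r P hn r0 p0 hP => ?_⟩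
  obtain ⟨ε, hε⟩ : ∃ ε, ε = min (1 / 4) (c / (2 * M)) := ⟨_, rfl⟩
  obtain ⟨c', hc'⟩ : ∃ c', c' = min (l / 4) (l * c / (2 * (1 + M))) := ⟨_, rfl⟩
  rw [← hε] at hP
  rw [← hc']
  have e0 : 0 < ε := by rw [hε]; positivity
  have e1 : ε ≤ 1 / 4 := hε ▸ min_le_left _ _
  have e2 : ε * M ≤ c / 2 := by
    have : ε ≤ c / (2 * M) := hε ▸ min_le_right _ _
    rw [le_div_iff₀ (by positivity)] at this
    linarith
  have d0 : 0 < c' := by rw [hc']; positivity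
  have d1 : c' ≤ l / 4 := hc' ▸ min_le_left _ _
  have d2 : c' * (1 + M) ≤ l * c / 2 := by
    have : c' ≤ l * c / (2 * (1 + M)) := hc' ▸ min_le_right _ _
    rw [le_div_iff₀ (by positivity)] at this
    linarith
  obtain ⟨X, hX, eX, nX⟩ := perp hn H
  obtain ⟨Y, hY, eY, nY⟩ := perp hn U
  obtain ⟨α, hα⟩ : ∃ α, α = |⟪H, n⟫| := ⟨_, rfl⟩
  obtain ⟨ν, hν⟩ : ∃ ν, ν = |⟪U, n⟫| := ⟨_, rfl⟩
  have a0 : 0 ≤ α := hα ▸ abs_nonneg _
  have n0 : 0 ≤ ν := hν ▸ abs_nonneg _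
  have X0 := norm_nonneg X
  have Y0 := norm_nonneg Y
  rw [← hα] at nX ⊢
  rw [← hν] at nY ⊢
  have fin : ∀ w Q : ℝ, 0 ≤ w → r * (Q - C * α - ν) ≤ w → c' * (‖X‖ + ‖Y‖) ≤ l * Q →
      c' * r * (‖H‖ + ‖U‖) ≤ r * α + r * ν + w := fun w Q w0 h1 h2 => by
    have h3 : l * (r * (Q - C * α - ν)) ≤ w := by
      linarith only [mul_le_mul_of_nonneg_left h1 l0.le, mul_le_mul_of_nonneg_right l1 w0, w0]
    have h4 : c' * (‖H‖ + ‖U‖) ≤ α + ν + l * (Q - C * α - ν) := by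
      linarith only [mul_le_mul_of_nonneg_left (add_le_add nX nY) d0.le,
        mul_le_mul_of_nonneg_right lC' a0, mul_le_mul_of_nonneg_right l1 n0,
        mul_le_mul_of_nonneg_right d1 a0, mul_le_mul_of_nonneg_right d1 n0,
        mul_le_mul_of_nonneg_right l1 a0, h2, a0, n0]
    linarith only [mul_le_mul_of_nonneg_left h4 r0.le, h3]
  have inn : ∀ (x y : V) (s t : ℝ), ‖x‖ ≤ s → ‖y‖ ≤ t → |⟪x, y⟫| ≤ s * t := fun x y s t h1 h2 =>
    (abs_real_inner_le_norm _ _).trans (mul_le_mul h1 h2 (norm_nonneg _) ((norm_nonneg _).trans h1))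
  by_cases hc : M * ‖X‖ ≤ ‖Y‖
  · have XY : 4 * ‖X‖ ≤ ‖Y‖ := (mul_le_mul_of_nonneg_right M4 X0).trans hc
    rcases Y0.eq_or_lt with h0 | h0
    · refine ⟨0, 0, p0, fin _ 0 (abs_nonneg _) ?_ ?_⟩
      · linarith only [abs_nonneg (⟪H, (0 : V)⟫ - ⟪U, (0 : V)⟫), mul_nonneg r0.le n0,
          mul_nonneg r0.le (mul_nonneg C0 a0)]
      · have : ‖X‖ = 0 := by linarith only [XY, h0, X0]
        rw [this, ← h0]
        simp
    · obtain ⟨e, he, hen, ee⟩ := dir hY h0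
      obtain ⟨⟨h, v, p, h1, h2, -⟩, -⟩ := hP e he hen
      refine ⟨h, v, p, fin _ (‖Y‖ / 2) (abs_nonneg _) ?_ (by
        linarith only [mul_le_mul d1 (show ‖X‖ + ‖Y‖ ≤ 2 * ‖Y‖ by linarith only [XY, X0])
          (add_nonneg X0 Y0) (by positivity)])⟩
      have b1 := abs_le.1 (inn H v _ _ nX h2)
      have b2 := abs_le.1 (inn U (h - r • e) _ _ nY h1)
      have b3 : ⟪U, r • e⟫ = r * ‖Y‖ := by
        rw [real_inner_smul_right]
        nth_rewrite 1 [eY, ee]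
        rw [inner_add_left, real_inner_smul_left, real_inner_smul_left, real_inner_comm e n, hen,
          real_inner_self_eq_norm_sq, he]
        ring
      rw [inner_sub_right, b3] at b2
      have b4 := neg_le_abs (⟪H, v⟫ - ⟪U, h⟫)
      have b5 : C * ‖X‖ ≤ ‖Y‖ / 4 := by
        rw [hM] at hc
        linarith only [hc, X0]
      linarith only [b1.2, b2.1, b4, mul_le_mul_of_nonneg_left b5 r0.le, mul_nonneg r0.le n0,
        mul_le_mul_of_nonneg_left e1 (mul_nonneg r0.le n0),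
        mul_le_mul_of_nonneg_left e1 (mul_nonneg r0.le Y0)]
  · push Not at hc
    have h0 : 0 < ‖X‖ := X0.lt_of_ne fun h => by
      rw [← h, mul_zero] at hc
      exact absurd hc (not_lt.2 Y0)
    obtain ⟨e, he, hen, ee⟩ := dir hX h0
    obtain ⟨⟨h, v, p, h1, h2, h3⟩, h', v', p', h1', h2', h3'⟩ := hP e he hen
    have dec : ∀ x : V, ⟪H, x⟫ = ⟪H, n⟫ * ⟪n, x⟫ + ‖X‖ * ⟪x, e⟫ := fun x => by
      nth_rewrite 1 [eX, ee]
      rw [inner_add_left, real_inner_smul_left, real_inner_smul_left, real_inner_comm x e]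
    have b0 : ∀ x : V, ‖x‖ ≤ C * r → |⟪H, n⟫ * ⟪n, x⟫| ≤ α * (C * r) := fun x hx => by
      rw [abs_mul, ← hα]
      have := inn n x _ _ hn.le hx
      rw [one_mul] at this
      exact mul_le_mul_of_nonneg_left this a0
    have b1 := abs_le.1 (b0 v h2)
    have b2 := abs_le.1 (b0 v' h2')
    have b3 := abs_le.1 (inn U (h - r • e) _ _ nY h1)
    have b4 := abs_le.1 (inn U (h' - r • e) _ _ nY h1')
    rw [inner_sub_right] at b3 b4
    have b5 := dec v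
    have b6 := dec v'
    have b7 := mul_le_mul_of_nonneg_left h3 X0
    have b8 := mul_le_mul_of_nonneg_left h3' X0
    have b9 : ε * ‖Y‖ ≤ c / 2 * ‖X‖ := by
      linarith only [mul_le_mul_of_nonneg_left hc.le e0.le, mul_le_mul_of_nonneg_right e2 X0]
    have key : 2 * (r * (c * ‖X‖ / 2 - C * α - ν)) ≤
        (⟪H, v'⟫ - ⟪U, h'⟫) - (⟪H, v⟫ - ⟪U, h⟫) := by
      linarith only [b1.2, b2.1, b3.1, b4.2, b5, b6, b7, b8, mul_le_mul_of_nonneg_left b9 r0.le,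
        mul_nonneg r0.le n0, mul_le_mul_of_nonneg_left e1 (mul_nonneg r0.le n0)]
    have hQ : c' * (‖X‖ + ‖Y‖) ≤ l * (c * ‖X‖ / 2) := by
      linarith only [mul_le_mul_of_nonneg_right d2 X0, mul_le_mul_of_nonneg_left hc.le d0.le]
    rcases le_total |⟪H, v⟫ - ⟪U, h⟫| |⟪H, v'⟫ - ⟪U, h'⟫| with g | g
    · exact ⟨h', v', p', fin _ _ (abs_nonneg _) (by
        linarith only [key, g, le_abs_self (⟪H, v'⟫ - ⟪U, h'⟫), neg_le_abs (⟪H, v⟫ - ⟪U, h⟫)]) hQ⟩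
    · exact ⟨h, v, p, fin _ _ (abs_nonneg _) (by
        linarith only [key, g, le_abs_self (⟪H, v'⟫ - ⟪U, h'⟫), neg_le_abs (⟪H, v⟫ - ⟪U, h⟫)]) hQ⟩

variable {m : MF}

theorem size (ok : m.OK) (R : ℝ) : ∃ D : ℝ, 0 < D ∧ ∀ z v : W, ‖z‖ ≤ R →
    ‖v‖ ≤ D * (‖m.hor z v‖ + ‖m.ver z v‖) := by
  obtain ⟨A, A0, hA⟩ := H38.bdd_ball ok.cR.continuous R
  obtain ⟨B, B0, hB⟩ := H38.bdd_ball ok.com.continuous R
  refine ⟨1 + A + B * A * |R|, by positivity, fun z v hz => ?_⟩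
  have z1 := (norm_fst_le z).trans hz
  have z2 := ((norm_snd_le z).trans hz).trans (le_abs_self R)
  have h1 : ‖v.1‖ ≤ A * ‖m.hor z v‖ := by
    have := (m.R z.1).le_of_opNorm_le (hA _ z1) (m.hor z v)
    rwa [show m.R z.1 (m.hor z v) = v.1 from ok.RS _ _] at this
  have h2 : ‖m.om z.1 v.1 z.2‖ ≤ B * (A * ‖m.hor z v‖) * |R| :=
    ((m.om z.1 v.1).le_opNorm z.2).trans (mul_le_mul (((m.om z.1).le_of_opNorm_le (hB _ z1) v.1).trans
      (mul_le_mul_of_nonneg_left h1 B0)) z2 (norm_nonneg _) (by positivity))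
  have h3 : ‖v.2‖ ≤ ‖m.ver z v‖ + ‖m.om z.1 v.1 z.2‖ := by
    have e : v.2 = m.ver z v - m.om z.1 v.1 z.2 := by simp [MF.ver]
    rw [e]
    exact norm_sub_le _ _
  have n1 := norm_nonneg (m.hor z v)
  have n2 := norm_nonneg (m.ver z v)
  have n3 : 0 ≤ B * A * |R| := by positivity
  rw [Prod.norm_def]
  refine max_le ?_ ?_ <;> nlinarith [mul_nonneg A0 n1, mul_nonneg A0 n2, mul_nonneg n3 n1,
    mul_nonneg n3 n2]

theorem ver_le (b : ℝ) (z ξ : W) : ‖m.ver z ξ‖ ≤ nn m b z ξ :=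
  le_sqrt_of_sq_le (by nlinarith [sq_nonneg (b * ‖m.hor z ξ‖)])

end RNrm

open RNrm in
theorem nrm : SNRM := by
  intro m lg Γ _ _ O a b N bs jf ts R
  obtain ⟨C, c, C0, c0, hT⟩ := ts R
  obtain ⟨B, B0, hB⟩ := jf.omb R
  obtain ⟨D, D0, hD⟩ := size N.ok R
  obtain ⟨ε, c', e0, d0, h⟩ := ab (C := B * C) (by positivity) c0
  obtain ⟨l₀, l0, hl⟩ := hT ε e0
  refine ⟨C, c' / D, l₀, C0, by positivity, l0, fun z v r hz h1 r0 hr => ?_⟩
  have vb : ∀ w q : W, ‖w‖ ≤ R → ‖q - w‖ ≤ C * r → ‖m.ver w (q - w)‖ ≤ B * C * r :=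
    fun w q hw hq => ((ver_le b _ _).trans (hB w (q - w) 0 hw).2).trans (by
      rw [mul_assoc]
      exact mul_le_mul_of_nonneg_left hq B0)
  obtain ⟨_, _, ⟨q, q1, q2, q3, rfl, rfl⟩, hq⟩ := h z.2 (m.hor z v) (m.ver z v) r
    (fun h w => ∃ q : W, ‖q.2‖ = 1 ∧ (Fw m lg q z ∨ Bw m lg q z) ∧ ‖q - z‖ ≤ C * r ∧
      m.hor z (q - z) = h ∧ m.ver z (q - z) = w) h1 r0
    ⟨z, h1, Or.inl (by
      have e : df m lg z z = fun _ => 0 := funext fun t => by rw [df, bs.self, norm_zero]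
      rw [Fw, e]
      exact tendsto_const_nhds), by rw [sub_self, norm_zero]; positivity, by simp, by simp⟩
    fun e he hen => by
      constructor
      · obtain ⟨q, q1, q2, q3, q4, q5⟩ := hl z e r hz h1 he hen r0 hr
        exact ⟨_, _, ⟨q, q1, Or.inl q2, q3, rfl, rfl⟩, q4, vb z q hz q3, q5⟩
      · have nf : ∀ w : W, ‖fl w‖ = ‖w‖ := fun w => by simp [fl, Prod.norm_def]
        have ff : fl (fl z) = z := by simp [fl]
        obtain ⟨q, q1, q2, q3, q4, q5⟩ := hl (fl z) e r ((nf z).trans_le hz) (by simpa [fl] using h1)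
          he (by simpa [fl] using hen) r0 hr
        have e1 : ‖fl q - z‖ ≤ C * r := by rwa [← nf, map_sub, ff] at q3
        have e2 : m.hor z (fl q - z) = m.hor (fl z) (q - fl z) := by simp [MF.hor, fl]
        have e3 : m.ver z (fl q - z) = -m.ver (fl z) (q - fl z) := by
          simp [MF.ver, fl]
          abel
        refine ⟨_, _, ⟨fl q, by simpa [fl] using q1, Or.inr ?_, e1, rfl, rfl⟩, by rwa [e2],
          vb z _ hz e1, by rw [e3, inner_neg_left]; linarith⟩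
        have e4 : df m lg (fl q) z = fun t => df m lg q (fl z) (-t) := funext fun t => by
          rw [df, df, bs.flip, bs.flip, neg_neg]
          rfl
        rw [Bw, e4]
        exact q2.comp tendsto_neg_atBot_atTop
  refine ⟨q, q1, q2, q3, ?_⟩
  rw [jf.tan] at hq
  refine le_trans ?_ hq
  have h2 := mul_le_mul_of_nonneg_left (hD z v hz) (show 0 ≤ c' / D * r by positivity)
  refine h2.trans (le_of_eq ?_)
  field_simp

end Pool.Agent.MP_3ee8cb_gt.DNB2
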