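import Pool.Agent.MP_3ee8cb_gt.DNB2.Spec
import Pool.Agent.MP_3ee8cb_gt.DNB2.H23Kit

/-! Rows TELK, MID, TRUNC and GRW. -/

namespace Pool.Agent.MP_3ee8cb_gt.DNB2

open DN (Dim dm)

variable [Dim]

open Set Filter Topology Real DN DNC0
open scoped RealInnerProductSpace

omit [Dim] in
theorem geo_le {θ l : ℝ} (h0 : 0 ≤ θ) (h1 : θ < l) (h2 : 1 ≤ l) (T : ℕ) :
    ∑ j ∈ Finset.range T, θ ^ j ≤ (l - θ)⁻¹ * l ^ T := by
  have p : 0 < l - θ := sub_pos.2 h1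
  rw [le_inv_mul_iff₀ p]
  induction T with
  | zero => simp
  | succ T ih =>
    rw [geom_sum_succ, pow_succ]
    nlinarith [mul_le_mul_of_nonneg_left ih h0,
      mul_le_mul_of_nonneg_left (one_le_pow₀ h2 (n := T)) p.le]

theorem telk : STELK := by
  intro m lg Γ _ _ O a b N σ s1 s2 bs jf st mv R A
  obtain ⟨C, C0, hC⟩ := H23.telS N.ok N.act N.a0 bs jf st mv R A
  have b0 : 0 < b := N.a0.trans_le N.ab
  have h1 : exp (b - 2 * a) < exp (b * (1 - σ)) := exp_lt_exp.2 (by linarith)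
  have h2 : 1 ≤ exp (b * (1 - σ)) := one_le_exp (mul_nonneg b0.le (by linarith))
  have p := sub_pos.2 h1
  refine ⟨C * (exp (b * (1 - σ)) - exp (b - 2 * a))⁻¹, by positivity,
    fun T z q ξ ε hz ε0 εA cl => (hC T z q ξ ε hz ε0 εA cl).trans ?_⟩
  have g := geo_le (exp_pos _).le h1 h2 T
  have n0 : 0 ≤ nn m b z ξ := Real.sqrt_nonneg _
  rw [← Real.exp_nat_mul, mul_comm (T : ℝ)] at g
  calc _ ≤ C * ((exp (b * (1 - σ)) - exp (b - 2 * a))⁻¹ * exp (b * (1 - σ) * T)) *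
        nn m b z ξ * ε ^ 2 := by gcongr
    _ = _ := by ring

theorem mid : SMID := by
  intro m lg Γ _ _ O a b N bs A
  obtain ⟨C, C0, hC⟩ := H23.exc N.ok N.jac N.had N.act bs A
  refine ⟨C, C0, fun u x hu hx => ?_⟩
  have := hC u x hu hx
  rw [bs.symm x, bs.symm x] at this
  linarith

theorem trunc : STRUNC := by
  intro m lg Γ _ _ O a b N β bs bz md asy
  obtain ⟨c, c0, hc⟩ := asy.dec 2
  obtain ⟨d, d0, hd⟩ := md (c * 2)
  refine ⟨d * (c * 2) ^ 2, by positivity, fun z y T hz hy hT => ?_⟩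
  obtain ⟨u, hu, fw, e⟩ := asy.ex z y hz
  have hT' : (2 : ℝ) ≤ T := by exact_mod_cast hT
  have s0 := bz.self z 0 hz
  rw [N.ok.zero, neg_zero] at s0
  have l1 := bz.lip z y z.1 hz
  have l2 := bz.lip z z.1 y hz
  rw [bs.symm y] at l1
  have g0 := bs.geo u (-β z y) 0
  rw [e, N.ok.zero, hu, mul_one, sub_zero, abs_neg] at g0
  have b1 : |β z y| ≤ ‖lg (z.1, y)‖ := abs_le.2 ⟨by linarith, by linarith⟩
  have f0 : df m lg z u 0 ≤ 2 * ‖lg (z.1, y)‖ := by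
    unfold df
    rw [N.ok.zero, N.ok.zero]
    linarith [N.had.tri z.1 y u.1]
  have e0 := (exp_pos (-(a * T))).le
  have e1 : exp (-(a * T)) ≤ 1 := exp_le_one_iff.2 (by nlinarith [N.a0])
  have n0 := norm_nonneg (lg (z.1, y))
  have f1 : df m lg z u T ≤ c * (2 * ‖lg (z.1, y)‖) * exp (-(a * T)) :=
    (hc z u hz hu fw (by linarith) T (by linarith)).trans (by gcongr)
  have f2 : c * (2 * ‖lg (z.1, y)‖) * exp (-(a * T)) ≤ c * 2 := by
    calc _ ≤ c * (2 * 1) * 1 := by gcongr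
      _ = _ := by ring
  unfold df at f1
  rw [bs.symm] at f1
  have m1 := hd (m.Z T u) (m.Z T z).1 (by rw [N.jac.norm, hu]) (f1.trans f2)
  rw [← N.ok.add, ← N.ok.add] at m1
  have m2 : ‖lg ((m.Z T u).1, (m.Z T z).1)‖ ^ 2 ≤
      (c * (2 * ‖lg (z.1, y)‖) * exp (-(a * T))) ^ 2 := by gcongr
  have m3 := mul_le_mul_of_nonneg_left m2 d0
  have x1 := bz.self z T hz
  have x2 := bz.lip z y (m.Z T z).1 hz
  have x3 := bz.lip u (m.Z T z).1 (m.Z (1 + T) u).1 hu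
  rw [bz.self u _ hu, bz.top u z hu hz fw, x1, bs.symm] at x3
  have g1 := bs.geo u (-β z y) (-1 + T)
  rw [e, hu, mul_one, abs_of_nonpos (by linarith [(abs_le.1 b1).1])] at g1
  have t1 := N.had.tri y (m.Z (-1 + T) u).1 (m.Z T z).1
  have ee : exp (-(2 * a * T)) = exp (-(a * T)) ^ 2 := by
    rw [sq, ← exp_add]
    congr 1
    ring
  have eq : d * (c * 2) ^ 2 * ‖lg (z.1, y)‖ ^ 2 * exp (-(a * T)) ^ 2 =
      d * (c * (2 * ‖lg (z.1, y)‖) * exp (-(a * T))) ^ 2 := by ring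
  rw [bt, RDer.nz_eq hz, ee, eq, abs_of_nonneg (by linarith)]
  linarith

theorem grw : SGRW := by
  intro m lg Γ _ _ O a b N bs jf _ R
  obtain ⟨C, C0, hC⟩ := H23.spread N.ok N.had bs jf (N.a0.trans_le N.ab) R
  refine ⟨C, C0, fun z p t hR hz hp hs t0 => ?_⟩
  have := hC z p _ t hR hz hp le_rfl hs t0 1 (right_mem_Icc.2 zero_le_one)
  rw [one_smul, add_sub_cancel, RDer.nz_eq hp] at this
  unfold df at this ⊢
  rwa [bs.symm]

end Pool.Agent.MP_3ee8cb_gt.DNB2
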