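import Pool.Agent.MP_3ee8cb_gt.DNB2.Spec
import Pool.Agent.MP_3ee8cb_gt.DNC0.H38Step

/-! Stable test vectors. -/

namespace Pool.Agent.MP_3ee8cb_gt.DNB2

open DN (Dim dm)

variable [Dim]

open Set Filter Topology Real DN DNC0
open scoped RealInnerProductSpace

namespace RTst

variable {m : MF} {lg : W → V}

/-- Uniform differentiability on bounded sets. -/
theorem ud {f : W → W} (hf : ContDiff ℝ 1 f) (R ε : ℝ) (e0 : 0 < ε) : ∃ δ : ℝ, 0 < δ ∧
    ∀ z p : W, ‖z‖ ≤ R → ‖p - z‖ ≤ δ → ‖f p - f z - fderiv ℝ f z (p - z)‖ ≤ ε * ‖p - z‖ := by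
  have hc : Continuous (fderiv ℝ f) := hf.continuous_fderiv one_ne_zero
  have hu := (isCompact_closedBall (0 : W) (R + 1)).uniformContinuousOn_of_continuous
    hc.continuousOn
  obtain ⟨δ, d0, hd⟩ := Metric.uniformContinuousOn_iff_le.1 hu ε e0
  refine ⟨min δ 1, by positivity, fun z p hz hp => ?_⟩
  refine (convex_closedBall z (min δ 1)).norm_image_sub_le_of_norm_fderiv_le' (𝕜 := ℝ)
    (fun x _ => hf.differentiable one_ne_zero x) (fun x hx => ?_)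
    (Metric.mem_closedBall_self (by positivity)) (mem_closedBall_iff_norm.2 hp)
  have h1 := mem_closedBall_iff_norm.1 hx
  rw [← dist_eq_norm]
  refine hd x (mem_closedBall_zero_iff.2 ?_) z (mem_closedBall_zero_iff.2 (by linarith))
    (by rw [dist_eq_norm]; exact h1.trans (min_le_left _ _))
  linarith [norm_le_insert' x z, min_le_right δ 1]

/-- The exponential map to first order. -/
theorem ex2 (ok : m.OK) (ja : m.Jac) (qz : Q2 (m.Z 1)) (R : ℝ) : ∃ C : ℝ, 0 ≤ C ∧ ∀ x l : V,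
    ‖x‖ ≤ R → ‖l‖ ≤ 1 → ‖m.S x ((m.Z 1 (x, l)).1 - x) - l‖ ≤ C * ‖l‖ ^ 2 := by
  obtain ⟨A, A0, hA⟩ := qz (max R 1)
  obtain ⟨B, B0, hB⟩ := H38.bdd_ball ok.cS.continuous R
  refine ⟨B * A, by positivity, fun x l hx hl => ?_⟩
  have h1 := hA (x, 0) (x, l) (by simp [Prod.norm_def, hx]) (by
    rw [Prod.norm_def]; exact max_le_max hx hl)
  have e : ((x, l) : W) - (x, 0) = (0, l) := by simp
  have h2 : (fderiv ℝ (m.Z 1) (x, 0) (0, l)).1 = m.R x l := by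
    have d0 : HasDerivAt (fun s : ℝ => ((x, s • l) : W)) (0, l) 0 := by
      simpa using (hasDerivAt_const (0 : ℝ) x).prodMk ((hasDerivAt_id (0 : ℝ)).smul_const l)
    have d1 : HasFDerivAt (m.Z 1) (fderiv ℝ (m.Z 1) (x, 0)) (x, (0 : ℝ) • l) := by
      rw [zero_smul]
      exact (H38.z_diff ok 1 _).hasFDerivAt
    have d2 : HasDerivAt (fun s : ℝ => (m.Z 1 (x, s • l)).1) (fderiv ℝ (m.Z 1) (x, 0) (0, l)).1 0 :=
      (HasFDerivAt.comp_hasDerivAt (f := fun s : ℝ => ((x, s • l) : W)) 0 d1 d0).fst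
    have d3 : HasDerivAt (fun s : ℝ => (m.Z s (x, l)).1) (m.vf (m.Z 0 (x, l))).1 0 :=
      (ok.ode (x, l) 0).fst
    rw [ok.zero] at d3
    refine d2.unique (d3.congr_of_eventuallyEq (Eventually.of_forall fun s => ?_))
    simp only [ja.scale, mul_one]
  rw [e, H38.z_rest ok ja] at h1
  have h3 := (norm_fst_le _).trans h1
  have e2 : ‖((0, l) : W)‖ = ‖l‖ := by simp [Prod.norm_def]
  rw [Prod.fst_sub, Prod.fst_sub, h2, e2] at h3
  have h4 := (m.S x).le_of_opNorm_le (hB x hx) ((m.Z 1 (x, l)).1 - x - m.R x l)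
  rw [map_sub _ _ (m.R x l), ok.SR] at h4
  refine h4.trans ?_
  rw [mul_assoc]
  exact mul_le_mul_of_nonneg_left h3 B0

theorem far (ja : m.Jac) (ha : m.Had lg) {z : W} {l : V} (h1 : ‖z.2‖ = 1) (h : ⟪l, z.2⟫ = 0)
    {t : ℝ} (ht : |t| = 1) : 1 ≤ ‖lg ((m.Z t z).1, (m.Z 1 (z.1, l)).1)‖ := by
  have g := ha.hinge z.1 (t • z.2) l
  rw [ja.scale, mul_one] at g
  refine le_trans ?_ g
  have e : ‖t • z.2 - l‖ ^ 2 = 1 + ‖l‖ ^ 2 := by
    rw [norm_sub_sq_real, norm_smul, h1, real_inner_smul_left, real_inner_comm, h,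
      Real.norm_eq_abs, ht]
    ring
  nlinarith [norm_nonneg (t • z.2 - l), sq_nonneg ‖l‖]

theorem hor_le {b : ℝ} (b0 : 0 < b) (z ξ : W) : ‖m.hor z ξ‖ ≤ b⁻¹ * nn m b z ξ := by
  rw [le_inv_mul_iff₀ b0]
  exact le_sqrt_of_sq_le (by nlinarith [sq_nonneg ‖m.ver z ξ‖])

theorem ver_le (b : ℝ) (z ξ : W) : ‖m.ver z ξ‖ ≤ nn m b z ξ :=
  le_sqrt_of_sq_le (by nlinarith [sq_nonneg (b * ‖m.hor z ξ‖)])

/-- The quantitative convexity. -/
theorem cvx {a b : ℝ} (b0 : 0 < b) (jf : Jf m lg a b) {z ξ : W} {T : ℝ} (h1 : ‖z.2‖ = 1)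
    (T0 : 0 ≤ T) (h : ‖m.J z ξ T‖ < ‖m.hor z ξ‖ / 2) :
    ⟪m.ver z ξ, m.hor z ξ⟫ ≤ -(b * exp (-(b * T)) / 2 * ‖m.hor z ξ‖ ^ 2) := by
  obtain ⟨c, hc⟩ : ∃ c, c = b * exp (-(b * T)) / 2 := ⟨_, rfl⟩
  have c0 : 0 < c := by rw [hc]; positivity
  rw [← hc]
  obtain ⟨u, hu⟩ : ∃ u, u = m.hor z ξ := ⟨_, rfl⟩
  have e1 : m.hor z ((0, u) : W) = 0 := by simp [MF.hor]
  have e2 : m.ver z ((0, u) : W) = u := by simp [MF.ver]
  have e3 : nn m b z (0, u) = ‖u‖ := by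
    rw [nn, e1, e2, norm_zero, zero_pow two_ne_zero, mul_zero, zero_add, sqrt_sq (norm_nonneg _)]
  have g := jf.grow z (0, u) T h1 T0
  rw [e3] at g
  have g2 : ‖m.J z (0, u) T‖ ≤ b⁻¹ * (exp (b * T) * ‖u‖) :=
    (hor_le b0 _ _).trans (mul_le_mul_of_nonneg_left g (by positivity))
  have g3 : c * (b⁻¹ * (exp (b * T) * ‖u‖)) = ‖u‖ / 2 := by
    rw [hc, exp_neg]
    field_simp
  have e4 : m.J z (ξ + c • (0, u)) T = m.J z ξ T + c • m.J z (0, u) T := by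
    simp only [MF.J, map_add, map_smul]
  have e5 : m.hor z (ξ + c • (0, u)) = u := by rw [map_add, map_smul, e1, smul_zero, add_zero, hu]
  have k := jf.cvx z (ξ + c • (0, u)) T T0 (by
    rw [e4, e5]
    refine (norm_add_le _ _).trans_lt ?_
    rw [norm_smul, Real.norm_of_nonneg c0.le]
    rw [← hu] at h
    linarith [mul_le_mul_of_nonneg_left g2 c0.le])
  rw [e5, map_add, map_smul, e2, inner_add_left, real_inner_smul_left,
    real_inner_self_eq_norm_sq] at k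
  rw [← hu]
  linarith

end RTst

open RTst in
theorem tst : STST := by
  intro m lg Γ _ _ O a b N β bs jf bz md as R
  have ok := N.ok
  have ja := N.jac
  have ha := N.had
  have a0 := N.a0
  have b0 : 0 < b := a0.trans_le N.ab
  obtain ⟨Cm, m0, hm⟩ := md 1
  obtain ⟨Cd, d0, hd⟩ := as.dec 2
  obtain ⟨R₁, hR₁⟩ := bs.bdd (max R 2)
  obtain ⟨R₂, hR₂⟩ : ∃ R₂, R₂ = max (max R R₁) 1 := ⟨_, rfl⟩
  have r1 : R ≤ R₂ := hR₂ ▸ (le_max_left _ _).trans (le_max_left _ _)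
  have r2 : R₁ ≤ R₂ := hR₂ ▸ (le_max_right _ _).trans (le_max_left _ _)
  have r3 : 1 ≤ R₂ := hR₂ ▸ le_max_right _ _
  obtain ⟨Ce, e0, he⟩ := bs.euc R₂
  obtain ⟨Cl, l0, hl⟩ := bs.del R₂
  obtain ⟨Cx, x0, hx⟩ := ex2 ok ja N.qz R
  obtain ⟨Cs, s0, hs⟩ := H38.bdd_ball ok.cS.continuous R
  obtain ⟨Co, o0, ho⟩ := jf.omb R
  obtain ⟨T, T0, hT⟩ : ∃ T : ℝ, 0 ≤ T ∧ Cd * 2 * exp (-(a * T)) ≤ 1 / 16 := by
    have h1 : Tendsto (fun T : ℝ => Cd * 2 * exp (-(a * T))) atTop (𝓝 (Cd * 2 * 0)) :=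
      (tendsto_exp_neg_atTop_nhds_zero.comp (tendsto_id.const_mul_atTop a0)).const_mul _
    rw [mul_zero] at h1
    exact ((eventually_ge_atTop 0).and (h1.eventually (ge_mem_nhds (by norm_num)))).exists
  obtain ⟨R₃, -, hR₃⟩ := H38.bdd_ball (H38.z_cd ok T).continuous R
  obtain ⟨Cy, y0, hy⟩ := ex2 ok ja N.qz R₃
  obtain ⟨Ct, t0, ht⟩ := H38.bdd_ball ok.cS.continuous R₃
  obtain ⟨C, hC⟩ : ∃ C, C = Cl * (4 * Cd) := ⟨_, rfl⟩
  have C0 : 0 ≤ C := by rw [hC]; positivity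
  obtain ⟨δ, δ0, hδ⟩ := ud (H38.z_cd ok T) R (1 / (16 * (Ct * C + 1))) (by positivity)
  obtain ⟨c, hc⟩ : ∃ c, c = b * exp (-(b * T)) / 2 := ⟨_, rfl⟩
  have c0 : 0 < c := by rw [hc]; positivity
  obtain ⟨K, hK⟩ : ∃ K, K = Cx + Cs * (Ce * Cm) := ⟨_, rfl⟩
  have K0 : 0 ≤ K := by rw [hK]; positivity
  refine ⟨C, c / 8, C0, by positivity, fun ε ε0 => ?_⟩
  have sm : ∀ A η : ℝ, 0 < η → ∀ᶠ r in 𝓝 (0 : ℝ), A * r ≤ η := fun A η h => by
    have : Tendsto (fun r : ℝ => A * r) (𝓝 0) (𝓝 (A * 0)) := tendsto_id.const_mul A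
    rw [mul_zero] at this
    exact this.eventually (ge_mem_nhds h)
  obtain ⟨l₀, l₀0, hl₀⟩ := Metric.eventually_nhds_iff.1 ((sm 1 1 one_pos).and ((sm Cm 1 one_pos).and
    ((sm K ε ε0).and ((sm K (1 / 2) (by norm_num)).and ((sm C δ δ0).and ((sm Cy 1 one_pos).and
    (sm (Co * C * K) (c / 8) (by positivity))))))))
  refine ⟨l₀ / 2, by positivity, fun z e r hz h1 hn hen r0 hr => ?_⟩
  obtain ⟨q1, q2, q3, q4, q5, q6, q7⟩ := @hl₀ r (by
    rw [dist_zero_right, Real.norm_of_nonneg r0.le]; linarith only [hr, l₀0])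
  rw [one_mul] at q1
  have sqr : ∀ A η : ℝ, A * r ≤ η → A * r ^ 2 ≤ η * r := fun A η h => by
    linarith only [mul_le_mul_of_nonneg_right h r0.le]
  have z1 := (norm_fst_le z).trans hz
  have nl : ‖r • e‖ = r := by rw [norm_smul, hn, mul_one, Real.norm_of_nonneg r0.le]
  have pl : ⟪r • e, z.2⟫ = 0 := by rw [real_inner_smul_left, hen, mul_zero]
  have f1 := far ja ha h1 pl (t := 1) abs_one
  have f2 := far ja ha h1 pl (t := -1) (by simp)
  have hx1 := hx z.1 (r • e) z1 (by rwa [nl])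
  have dy : ‖lg (z.1, (m.Z 1 (z.1, r • e)).1)‖ = r := by rw [ha.xe, nl]
  obtain ⟨y, hy'⟩ : ∃ y, y = (m.Z 1 (z.1, r • e)).1 := ⟨_, rfl⟩
  rw [← hy'] at f1 f2 hx1 dy
  rw [nl] at hx1
  have f3 := hm z y h1 (by rwa [dy])
  rw [dy] at f3
  have fz : ‖(fl z).2‖ = 1 := by simpa [fl] using h1
  have g1 := bz.lip z y (m.Z 1 z).1 h1
  have g2 := bz.lip (fl z) y (m.Z 1 (fl z)).1 fz
  rw [bz.self _ _ h1, bs.symm] at g1
  rw [bz.self _ _ fz, bs.symm, bs.flip] at g2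
  have g3 := bz.opp z y h1
  have g2' : β (fl z) y - -1 ≤ ‖lg ((m.Z (-1) z).1, y)‖ := g2
  have hβ : |β z y| ≤ Cm * r ^ 2 := abs_le.2
    ⟨by linarith only [g3, g2', f3, f1], by linarith only [g1, f3, f2]⟩
  obtain ⟨u, u1, u2, u3⟩ := as.ex z y h1
  have du : ‖lg (y, u.1)‖ ≤ Cm * r ^ 2 := by
    have := bs.geo u (-β z y) 0
    rw [u3, ok.zero, u1, mul_one, sub_zero, abs_neg] at this
    rwa [this]
  have d1 : df m lg z u 0 ≤ 2 * r := by
    have := ha.tri z.1 y u.1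
    rw [df, ok.zero, ok.zero]
    linarith only [this, dy, du, sqr Cm 1 q2]
  have d2 : ∀ t, 0 ≤ t → df m lg z u t ≤ Cd * 2 * exp (-(a * t)) * r := fun t h => by
    refine (hd z u h1 u1 u2 (by linarith only [d1, q1]) t h).trans ?_
    linarith only [mul_le_mul_of_nonneg_left d1 (mul_nonneg d0 (exp_pos (-(a * t))).le)]
  have nu1 : ‖u.1‖ ≤ R₂ := (hR₁ z.1 u.1 (z1.trans (le_max_left _ _)) (by
    rw [df, ok.zero, ok.zero] at d1
    exact le_max_of_le_right (by linarith only [d1, q1]))).trans r2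
  have ny : ‖y‖ ≤ R₂ := (hR₁ z.1 y (z1.trans (le_max_left _ _))
    (le_max_of_le_right (by linarith only [dy, q1]))).trans r2
  have nu : ‖u‖ ≤ R₂ := by rw [Prod.norm_def]; exact max_le nu1 (u1.trans_le r3)
  have uz : ‖u - z‖ ≤ C * r := by
    refine (hl z u (hz.trans r1) nu).trans ?_
    have k1 := d2 0 le_rfl
    have k2 := d2 1 zero_le_one
    have k3 : exp (-(a * 1)) ≤ 1 := exp_le_one_iff.2 (by linarith only [a0])
    rw [mul_zero, neg_zero, exp_zero] at k1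
    rw [hC, mul_assoc]
    refine mul_le_mul_of_nonneg_left ?_ l0
    linarith only [k1, k2, mul_le_mul_of_nonneg_left k3 (mul_nonneg d0 r0.le)]
  have hh : ‖m.hor z (u - z) - r • e‖ ≤ K * r ^ 2 := by
    have e1 : m.hor z (u - z) - r • e = (m.S z.1 (y - z.1) - r • e) + m.S z.1 (u.1 - y) := by
      simp only [MF.hor, ContinuousLinearMap.comp_apply, ContinuousLinearMap.coe_fst', map_sub]
      abel
    have k1 := (m.S z.1).le_of_opNorm_le (hs _ z1) (u.1 - y)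
    have k2 := (he y u.1 ny nu1).1.trans (mul_le_mul_of_nonneg_left du e0)
    rw [e1, hK]
    refine (norm_add_le _ _).trans ?_
    linarith only [hx1, k1, mul_le_mul_of_nonneg_left k2 s0]
  have hn2 : r / 2 ≤ ‖m.hor z (u - z)‖ := by
    have := norm_le_insert (m.hor z (u - z)) (r • e)
    rw [nl] at this
    linarith only [this, hh, sqr K _ q4]
  have hJ : ‖m.J z (u - z) T‖ ≤ r / 5 := by
    have zT := (norm_fst_le _).trans (hR₃ z hz)
    have k0 : df m lg z u T ≤ r / 16 := (d2 T T0).trans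
      (by linarith only [mul_le_mul_of_nonneg_right hT r0.le])
    rw [df] at k0
    have k1 := hy (m.Z T z).1 (lg ((m.Z T z).1, (m.Z T u).1)) zT (by linarith only [k0, q1])
    rw [ha.ex] at k1
    have k2 := (norm_fst_le _).trans (hδ z u hz (uz.trans q5))
    have k3 := (m.S (m.Z T z).1).le_of_opNorm_le (ht _ zT)
      (m.Z T u - m.Z T z - fderiv ℝ (m.Z T) z (u - z)).1
    have e1 : m.J z (u - z) T = (m.S (m.Z T z).1 ((m.Z T u).1 - (m.Z T z).1) -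
        lg ((m.Z T z).1, (m.Z T u).1)) + lg ((m.Z T z).1, (m.Z T u).1) -
        m.S (m.Z T z).1 (m.Z T u - m.Z T z - fderiv ℝ (m.Z T) z (u - z)).1 := by
      simp only [MF.J, MF.hor, ContinuousLinearMap.comp_apply, ContinuousLinearMap.coe_fst',
        Prod.fst_sub, map_sub]
      abel
    have k4 : Ct * (1 / (16 * (Ct * C + 1)) * (C * r)) ≤ r / 16 := by
      rw [show Ct * (1 / (16 * (Ct * C + 1)) * (C * r)) = Ct * C / (Ct * C + 1) * (r / 16) by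
        field_simp]
      exact mul_le_of_le_one_left (by positivity) ((div_le_one (by positivity)).2 (lt_add_one _).le)
    have k5 : Ct * ‖(m.Z T u - m.Z T z - fderiv ℝ (m.Z T) z (u - z)).1‖ ≤ r / 16 :=
      (mul_le_mul_of_nonneg_left (k2.trans (mul_le_mul_of_nonneg_left uz (by positivity))) t0).trans k4
    rw [e1]
    refine (norm_sub_le _ _).trans ((add_le_add (norm_add_le _ _) le_rfl).trans ?_)
    have n0 := norm_nonneg (lg ((m.Z T z).1, (m.Z T u).1))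
    generalize ‖lg ((m.Z T z).1, (m.Z T u).1)‖ = d at *
    have k6 : Cy * d ≤ 1 := by linarith only [mul_le_mul_of_nonneg_left k0 y0, q6]
    linarith only [k0, k1, k3, k5, mul_le_mul_of_nonneg_right k6 n0, r0]
  have hv := cvx b0 jf h1 T0 (ξ := u - z) (by linarith only [hJ, hn2, r0])
  rw [← hc] at hv
  have vb : ‖m.ver z (u - z)‖ ≤ Co * (C * r) :=
    ((ver_le b _ _).trans (ho z (u - z) 0 hz).2).trans (mul_le_mul_of_nonneg_left uz o0)
  refine ⟨u, u1, u2, uz, hh.trans (sqr K ε q3), ?_⟩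
  have k1 := abs_le.1 ((abs_real_inner_le_norm (m.ver z (u - z)) (m.hor z (u - z) - r • e)).trans
    (mul_le_mul vb hh (norm_nonneg _) (by positivity)))
  rw [inner_sub_right, real_inner_smul_right] at k1
  have k2 : c * (r / 2) ^ 2 ≤ c * ‖m.hor z (u - z)‖ ^ 2 := by gcongr
  refine le_of_mul_le_mul_left ?_ r0
  linarith only [k1.1, k2, hv, mul_le_mul_of_nonneg_left q7 (sq_nonneg r)]

end Pool.Agent.MP_3ee8cb_gt.DNB2
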