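import Pool.Agent.MP_3ee8cb_gt.DNB2.Top
import Pool.Agent.MP_3ee8cb_gt.DNB2.Port
import Pool.Agent.MP_3ee8cb_gt.DNB2.PSeg
import Pool.Agent.MP_3ee8cb_gt.DNB2.RTelk
import Pool.Agent.MP_3ee8cb_gt.DNB2.RAsy
import Pool.Agent.MP_3ee8cb_gt.DNB2.RE1
import Pool.Agent.MP_3ee8cb_gt.DNB2.RE2
import Pool.Agent.MP_3ee8cb_gt.DNB2.RTst
import Pool.Agent.MP_3ee8cb_gt.DNB2.RNrm
import Pool.Agent.MP_3ee8cb_gt.DNB2.RBz
import Pool.Agent.MP_3ee8cb_gt.DNB2.RBoot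
import Pool.Agent.MP_3ee8cb_gt.DNB2.RGen
import Pool.Agent.MP_3ee8cb_gt.DNB2.RLina
import Pool.Agent.MP_3ee8cb_gt.DNB2.RLin

/-! A conjugacy is of class `C¹` when one side is quarter pinched: all rows together. -/

namespace Pool.Agent.MP_3ee8cb_gt.DNB2

variable [DN.Dim]

theorem rows1 : Rows1 :=
  ⟨bs, jf, step, mov, seg, der, telk, mid, asy, trunc, grw, clo, e1, e2, tst, nrm, ex, br, bz⟩

theorem rows2 : Rows2 := ⟨lf, boota, bootb, iter, gen, lina, lin, cj, fin⟩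

theorem partB2 : PartB2 := partB2_of rows1 rows2

end Pool.Agent.MP_3ee8cb_gt.DNB2
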