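import Pool.Agent.MP_3ee8cb_gt.DNB2.Spec
import Pool.Agent.MP_3ee8cb_gt.DNB2.Low
import Pool.Agent.MP_3ee8cb_gt.DNFL.All
import Pool.Agent.MP_3ee8cb_gt.SLN.Fin

/-! A pinched target and a negatively curved source: the statement layer. -/

namespace Pool.Agent.MP_3ee8cb_gt.DNB2

open DN (Dim dm)
open Pool.Agent.MP_3ee8cb_gt.SL SLN

section

variable [Dim]

theorem pinch_of {g : CR.Met dm} {Γ : Type} [Group Γ] [MulAction Γ (E dm)]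
    {Φ : ℝ → CR.UT g → CR.UT g} (s : DNIN.SM g Γ Φ) {a : ℝ} (k : TB.CurvLe g a) :
    ∃ b, DNIN.Pinch g a b := by
  obtain ⟨C, hi, c, K⟩ := low_pin DN.sJAC DN.sFRM DN.sACT s.qp
    (fun γ => contDiff_infty.1 (s.act γ) 2) k
  refine ⟨√|hi|, C, c, fun x u v => ⟨(K x u v).2, le_trans ?_ (K x u v).1⟩⟩
  rw [Real.sq_sqrt (abs_nonneg hi)]
  exact mul_le_mul_of_nonneg_right (neg_le_neg (le_abs_self hi))
    (sub_nonneg.2 (TB.mod_cs s.qp.rp.riem x u v))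

theorem finN {δ : ℝ} (A : DN.MainN δ) (B : PartB2)
    (g h : Met dm) (Γ Λ : Type) [Group Γ] [Group Λ] [MulAction Γ (E dm)] [MulAction Λ (E dm)]
    (Φ : ℝ → UT g → UT g) (Ψ : ℝ → UT h → UT h) (f : UM g Γ ≃ₜ UM h Λ) (c : ℝ) (hg : Riem g)
    (hh : Riem h) (dg : Deck g Γ) (dh : Deck h Λ) (sg : SL3.Smooth g Γ) (sh : SL3.Smooth h Λ)
    (fg : IsFlow g Φ) (fh : IsFlow h Ψ) (hf : Conj Φ Ψ f) (hc : 0 < c) (hM : CurvLe g c)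
    (hN : SL3.Pinched h (min (1 + δ) 4)) : SL3.Isometric g h Γ Λ := by
  replace sg : Smooth g Γ := ⟨sg.met, sg.act⟩
  replace sh : Smooth h Λ := ⟨sh.met, sh.act⟩
  obtain ⟨g, rfl, rg⟩ := link_riem hg
  obtain ⟨h, rfl, rh⟩ := link_riem hh
  have n0 : 3 ≤ dm := Nat.le_add_left 3 _
  have qg := LV.all_qp (by omega) rg (link_deck dg) (link_flow rg fg)
  have qh := LV.all_qp (by omega) rh (link_deck dh) (link_flow rh fh)
  obtain ⟨ρ, F, cj, -⟩ := LV.lift2 dm g h Γ Λ Φ Ψ f n0 qg.rp qh.rp hf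
  obtain ⟨a, b, ha, hb, K⟩ := link_pin rh hN
  obtain ⟨b', K'⟩ := pinch_of (link_sm qg sg) (link_curv rg hM)
  have hb4 : b ^ 2 < 4 * a ^ 2 :=
    hb.trans_le (mul_le_mul_of_nonneg_right (min_le_right _ _) (sq_nonneg a))
  have hb1 : b ^ 2 < (1 + δ) * a ^ 2 :=
    hb.trans_le (mul_le_mul_of_nonneg_right (min_le_left _ _) (sq_nonneg a))
  obtain ⟨c1, c2⟩ := B g h Γ Λ Φ Ψ ρ F (link_sm qg sg) (link_sm qh sh) cj a b c b' ha hc hb4 K' K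
  obtain ⟨G, hG⟩ := link_mainN A g h Γ Λ Φ Ψ ρ F (link_sm qg sg) (link_sm qh sh) cj a b ha hb1
    (link_le0 rg K') K c1 c2
  exact ⟨G, ρ, hG⟩

end

/-- Topological conjugacies from a negatively curved manifold, every dimension. -/
theorem allN (A : ∀ [Dim], ∃ δ, 0 < δ ∧ DN.MainN δ) (B : ∀ [Dim], PartB2)
    (n : ℕ) (hn : 3 ≤ n) : ∃ k : ℝ, 1 < k ∧ ∀ (g h : Met n) (Γ Λ : Type) [Group Γ] [Group Λ]
      [MulAction Γ (E n)] [MulAction Λ (E n)] (Φ : ℝ → UT g → UT g) (Ψ : ℝ → UT h → UT h)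
      (f : UM g Γ ≃ₜ UM h Λ) (c : ℝ), Riem g → Riem h → Deck g Γ → Deck h Λ → SL3.Smooth g Γ →
      SL3.Smooth h Λ → IsFlow g Φ → IsFlow h Ψ → Conj Φ Ψ f → 0 < c → CurvLe g c →
      SL3.Pinched h k → SL3.Isometric g h Γ Λ := by
  obtain ⟨j, rfl⟩ : ∃ j, n = j + 3 := ⟨n - 3, by omega⟩
  obtain ⟨δ, hδ, A⟩ := @A ⟨j⟩
  exact ⟨min (1 + δ) 4, lt_min (by linarith) (by norm_num), @finN ⟨j⟩ δ A (@B ⟨j⟩)⟩

end Pool.Agent.MP_3ee8cb_gt.DNB2
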