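import Pool.Agent.MP_3ee8cb_gt.DNB2.Spec

/-! Tools for the bootstrap: compactness, the error term, transfer of test vectors. -/

namespace Pool.Agent.MP_3ee8cb_gt.DNB2.H19

open DN (Dim dm)

open Set Filter Topology Real DN DNC0
open scoped RealInnerProductSpace

theorem small {x ε : ℝ} (hx : 0 < x) (hε : 0 < ε) :
    ∃ δ : ℝ, 0 < δ ∧ ∀ d : ℝ, 0 ≤ d → d ≤ δ → d ^ x ≤ ε := by
  refine ⟨ε ^ x⁻¹, rpow_pos_of_pos hε _, fun d h0 h1 => ?_⟩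
  calc d ^ x ≤ (ε ^ x⁻¹) ^ x := rpow_le_rpow h0 h1 hx.le
    _ = ε := rpow_inv_rpow hε.le hx.ne'

theorem t2 {s l : ℝ} (κ : ℝ) (hs : 0 < s) (hl : 0 < l) :
    s ^ (1 + κ) * l ^ (1 - κ) = s * l * (s / l) ^ κ := by
  have := rpow_pos_of_pos hl κ
  rw [rpow_add hs, rpow_sub hl, rpow_one, rpow_one, div_rpow hs.le hl.le]
  field_simp

theorem t2_le {s l κ : ℝ} (k0 : 0 ≤ κ) (hs : 0 < s) (hl : s ≤ l) :
    s ^ (1 + κ) * l ^ (1 - κ) ≤ s * l := by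
  have l0 := hs.trans_le hl
  rw [t2 κ hs l0]
  exact mul_le_of_le_one_right (by positivity)
    (rpow_le_one (by positivity) ((div_le_one l0).2 hl) k0)

theorem solve {x y C a θ : ℝ} (x0 : 0 ≤ x) (y0 : 0 < y) (y1 : y ≤ 1) (C0 : 0 ≤ C) (a0 : 0 < a)
    {b : ℝ} (h : x ^ a ≤ C * y ^ b) (hθ : θ * a ≤ b) : x ≤ C ^ a⁻¹ * y ^ θ := by
  have i0 : 0 ≤ a⁻¹ := inv_nonneg.2 a0.le
  calc x = (x ^ a) ^ a⁻¹ := (rpow_rpow_inv x0 a0.ne').symm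
    _ ≤ (C * y ^ b) ^ a⁻¹ := rpow_le_rpow (by positivity) h i0
    _ = C ^ a⁻¹ * y ^ (b * a⁻¹) := by
      rw [mul_rpow C0 (by positivity), ← rpow_mul y0.le]
    _ ≤ C ^ a⁻¹ * y ^ θ := by
      refine mul_le_mul_of_nonneg_left (rpow_le_rpow_of_exponent_ge y0 y1 ?_) (by positivity)
      rw [← div_eq_mul_inv, le_div_iff₀ a0]
      exact hθ

theorem er_nonneg {σ κ s l : ℝ} (hs : 0 ≤ s) (hl : 0 ≤ l) : 0 ≤ er σ κ s l := by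
  unfold er
  positivity

theorem er_le {σ κ s l : ℝ} (k0 : 0 ≤ κ) (hs : 0 < s) (hl : s ≤ l) :
    er σ κ s l ≤ s ^ σ * l ^ 2 + s * l := by
  unfold er
  linarith [t2_le k0 hs hl]

theorem er_sq {σ κ s l : ℝ} (s0 : 0 ≤ σ) (k0 : 0 ≤ κ) (hs : 0 < s) (hl : s ≤ l) (s1 : s ≤ 1) :
    er σ κ s l ≤ 2 * l ^ 2 := by
  have h1 := er_le (σ := σ) k0 hs hl
  have h2 : s ^ σ ≤ 1 := rpow_le_one hs.le s1 s0
  have h3 : s ^ σ * l ^ 2 ≤ l ^ 2 := mul_le_of_le_one_left (by positivity) h2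
  nlinarith

theorem er_one {κ s l : ℝ} (k0 : 0 ≤ κ) (hs : 0 < s) (hl : s ≤ l) (l1 : l ≤ 1) :
    er 1 κ s l ≤ 2 * (s * l) := by
  have h1 := er_le (σ := 1) k0 hs hl
  rw [rpow_one] at h1
  have l0 := hs.trans_le hl
  have : s * l ^ 2 ≤ s * l := mul_le_mul_of_nonneg_left (by nlinarith) hs.le
  linarith

variable [Dim] {m m' : MF} {lg lg' : W → V} {β β' : W → V → ℝ} {φ ψ : W → W}

theorem cpt (R : ℝ) : IsCompact {z : W | ‖z‖ ≤ R ∧ ‖z.2‖ = 1} := by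
  have h : IsClosed {z : W | ‖z.2‖ = 1} := isClosed_eq (by fun_prop) continuous_const
  have := (isCompact_closedBall (0 : W) R).inter_right h
  refine this.of_isClosed_subset ?_ fun z hz => ⟨by simpa using hz.1, hz.2⟩
  exact (isClosed_le continuous_norm continuous_const).inter h

theorem bnd (c : Cj m lg β m' lg' β' φ ψ) (R : ℝ) :
    ∃ R' : ℝ, 0 ≤ R' ∧ ∀ z : W, ‖z‖ ≤ R → ‖z.2‖ = 1 → ‖φ z‖ ≤ R' := by
  obtain ⟨C, hC⟩ := (cpt R).exists_bound_of_continuousOn (c.cont.mono fun z hz => hz.2)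
  exact ⟨max C 0, le_max_right _ _, fun z h1 h2 => (hC z ⟨h1, h2⟩).trans (le_max_left _ _)⟩

theorem uc (c : Cj m lg β m' lg' β' φ ψ) (R : ℝ) {ε : ℝ} (hε : 0 < ε) :
    ∃ δ : ℝ, 0 < δ ∧ ∀ z p : W, ‖z‖ ≤ R → ‖p‖ ≤ R → ‖z.2‖ = 1 → ‖p.2‖ = 1 → ‖p - z‖ ≤ δ →
      ‖φ p - φ z‖ ≤ ε := by
  have u := (cpt R).uniformContinuousOn_of_continuous (c.cont.mono fun z hz => hz.2)
  obtain ⟨δ, δ0, h⟩ := Metric.uniformContinuousOn_iff_le.1 u ε hε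
  refine ⟨δ, δ0, fun z p h1 h2 h3 h4 h5 => ?_⟩
  have := h p ⟨h2, h4⟩ z ⟨h1, h3⟩ (by rwa [dist_eq_norm])
  rwa [dist_eq_norm] at this

/-- From small scales to all scales. -/
theorem ext (c : Cj m lg β m' lg' β' φ ψ) {θ : ℝ} (h0 : 0 ≤ θ) (P : W → W → Prop) (R : ℝ)
    (h : ∃ C δ : ℝ, 0 < δ ∧ ∀ z p : W, ‖z‖ ≤ R → ‖p‖ ≤ R → ‖z.2‖ = 1 → ‖p.2‖ = 1 → P z p →
      0 < ‖p - z‖ → ‖p - z‖ ≤ δ → 0 < ‖φ p - φ z‖ → ‖φ p - φ z‖ ≤ C * ‖p - z‖ ^ θ) :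
    ∃ C : ℝ, 0 ≤ C ∧ ∀ z p : W, ‖z‖ ≤ R → ‖p‖ ≤ R → ‖z.2‖ = 1 → ‖p.2‖ = 1 → P z p →
      ‖φ p - φ z‖ ≤ C * ‖p - z‖ ^ θ := by
  obtain ⟨C, δ, δ0, h⟩ := h
  obtain ⟨R', R0, hR⟩ := bnd c R
  have d0 := rpow_pos_of_pos δ0 θ
  have k0 : 0 ≤ 2 * R' / δ ^ θ := by positivity
  refine ⟨max C (2 * R' / δ ^ θ), le_max_of_le_right k0, fun z p h1 h2 h3 h4 h5 => ?_⟩
  have n0 : 0 ≤ ‖p - z‖ ^ θ := by positivity
  rcases (norm_nonneg (φ p - φ z)).eq_or_lt with e | e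
  · rw [← e]
    exact mul_nonneg (le_max_of_le_right k0) n0
  have ne : 0 < ‖p - z‖ := by
    refine norm_pos_iff.2 fun e' => ?_
    rw [sub_eq_zero.1 e', sub_self, norm_zero] at e
    exact lt_irrefl _ e
  rcases le_total ‖p - z‖ δ with l | l
  · exact (h z p h1 h2 h3 h4 h5 ne l e).trans (mul_le_mul_of_nonneg_right (le_max_left _ _) n0)
  · have a := norm_sub_le (φ p) (φ z)
    have b1 := hR z h1 h3
    have b2 := hR p h2 h4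
    calc ‖φ p - φ z‖ ≤ 2 * R' / δ ^ θ * δ ^ θ := by
          rw [div_mul_cancel₀ _ d0.ne']
          linarith
      _ ≤ 2 * R' / δ ^ θ * ‖p - z‖ ^ θ :=
          mul_le_mul_of_nonneg_left (rpow_le_rpow δ0.le l h0) k0
      _ ≤ _ := mul_le_mul_of_nonneg_right (le_max_right _ _) n0

/-- A test vector in the target, compared with its preimage. -/
theorem tr (c1 : Cj m lg β m' lg' β' φ ψ) (c2 : Cj m' lg' β' m lg β ψ φ) {σ κ σ' κ' θ : ℝ}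
    (L : Lf m lg β σ κ) (L' : Lf m' lg' β' σ' κ') (h0 : 0 ≤ θ) (H : HL m' lg' ψ θ) (R : ℝ) :
    ∃ C c l₀ : ℝ, 1 ≤ C ∧ 0 < c ∧ 0 < l₀ ∧ l₀ ≤ 1 ∧ ∀ (z p : W) (r : ℝ), ‖z‖ ≤ R → ‖p‖ ≤ R →
      ‖z.2‖ = 1 → ‖p.2‖ = 1 → Fw m lg p z ∨ Bw m lg p z → 0 < ‖p - z‖ → ‖p - z‖ ≤ l₀ →
      0 < ‖φ p - φ z‖ → ‖φ p - φ z‖ ≤ l₀ → 0 < r → r ≤ l₀ → ∃ ε : ℝ, 0 < ε ∧ ε ≤ 1 ∧
        ε ≤ C * r ^ θ ∧ c * ‖φ p - φ z‖ * r ≤
          C * (‖p - z‖ * ε + er σ κ (min ‖p - z‖ ε) (max ‖p - z‖ ε)) +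
            C * er σ' κ' (min ‖φ p - φ z‖ r) (max ‖φ p - φ z‖ r) := by
  obtain ⟨R', -, hR⟩ := bnd c1 R
  obtain ⟨C1, c, l1, C10, c0, l10, low⟩ := L'.low R'
  obtain ⟨C2, l2, C20, l20, up⟩ := L.up R
  obtain ⟨l3, l30, inv⟩ := c2.inv (R' + 1)
  obtain ⟨C3, C30, hol⟩ := H (R' + 1)
  obtain ⟨δ, δ0, hδ⟩ := uc c2 (R' + 1) (lt_min l20 one_pos)
  obtain ⟨η, η0, η1, η2, η3⟩ : ∃ η : ℝ, 0 < η ∧ η ≤ l3 / 2 ∧ η ≤ δ ∧ η ≤ 1 :=
    ⟨min (l3 / 2) (min δ 1), by positivity, min_le_left _ _,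
      (min_le_right _ _).trans (min_le_left _ _), (min_le_right _ _).trans (min_le_right _ _)⟩
  obtain ⟨K, hK⟩ : ∃ K, K = (C3 + 1) * (C1 + 1) ^ θ := ⟨_, rfl⟩
  have K0 : 0 < K := by rw [hK]; positivity
  have e1 : η / (C1 + 1) ≤ η := div_le_self η0.le (by linarith)
  refine ⟨C1 + C2 + K + 1, c, min (min l1 l2) (η / (C1 + 1)), by linarith, c0, by positivity,
    (min_le_right _ _).trans (e1.trans η3), fun z p r hz hp uz u lf d0 dl d0' dl' r0 rl => ?_⟩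
  simp only [le_min_iff] at dl dl' rl
  have uw := c1.unit z uz
  have u' := c1.unit p u
  obtain ⟨q, t, uq, sq, hq, ht⟩ := low (φ z) (φ p) r (hR z hz uz) uw u'
    (lf.imp (c1.fw p z u uz) (c1.bw p z u uz)) d0' r0 dl'.1.1 rl.1.1
  have q1 : ‖q - φ z‖ ≤ (C1 + 1) * r := by nlinarith
  have q2 : ‖q - φ z‖ ≤ η := by
    have := (le_div_iff₀ (by linarith : 0 < C1 + 1)).1 rl.2
    linarith
  have w1 : ‖φ z‖ ≤ R' + 1 := by linarith [hR z hz uz]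
  have p1 : ‖φ p‖ ≤ R' + 1 := by linarith [hR p hp u]
  have q3 : ‖q‖ ≤ R' + 1 := by
    have := norm_le_norm_add_norm_sub' q (φ z)
    linarith [hR z hz uz]
  have q4 : ‖q - φ p‖ ≤ l3 := by
    have := norm_sub_le_norm_sub_add_norm_sub q (φ z) (φ p)
    rw [norm_sub_rev (φ z)] at this
    linarith [dl'.2]
  have ez := c1.left z uz
  have ep := c1.left p u
  have lq : Fw m' lg' q (φ z) ∨ Bw m' lg' q (φ z) :=
    sq.imp (fun h => h.2.1) fun h => h.2.1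
  have sq' : Sq m lg β z p (ψ q) t := by
    rcases sq with ⟨a1, a2, a3⟩ | ⟨a1, a2, a3⟩
    · have b1 := c2.bw _ _ u' uw a1
      have b2 := c2.fw _ _ uq uw a2
      have b3 := inv (φ p) q p1 u' uq q4
      rw [ez] at b1 b2
      rw [ep] at b1 b3
      exact Or.inl ⟨b1, b2, a3.trans b3.symm⟩
    · have b1 := c2.fw _ _ u' uw a1
      have b2 := c2.bw _ _ uq uw a2
      have b3 := inv q (φ p) q3 uq u' (by rwa [norm_sub_rev])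
      rw [ez] at b1 b2
      rw [ep] at b1 b3
      exact Or.inr ⟨b1, b2, a3.trans b3.symm⟩
  have rp := rpow_pos_of_pos r0 θ
  have g1 : ‖ψ q - z‖ ≤ K * r ^ θ := by
    have a := hol (φ z) q w1 q3 uw uq lq
    rw [ez] at a
    have b : ‖q - φ z‖ ^ θ ≤ (C1 + 1) ^ θ * r ^ θ := by
      rw [← mul_rpow (by linarith) r0.le]
      exact rpow_le_rpow (norm_nonneg _) q1 h0
    rw [hK, mul_assoc]
    exact a.trans (mul_le_mul (by linarith) b (by positivity) (by linarith))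
  have g2 : ‖ψ q - z‖ ≤ min l2 1 := by
    have a := hδ (φ z) q w1 q3 uw uq (q2.trans η2)
    rwa [ez] at a
  have ε0 : 0 < min (K * r ^ θ) (min l2 1) := by positivity
  have a := up z p (ψ q) t ‖p - z‖ _ hz uz u (c2.unit q uq) sq' d0 ε0 dl.1.2
    ((min_le_right _ _).trans (min_le_left _ _)) le_rfl (le_min g1 g2)
  refine ⟨_, ε0, (min_le_right _ _).trans (min_le_right _ _),
    (min_le_left _ _).trans (mul_le_mul_of_nonneg_right (by linarith) rp.le), ht.trans ?_⟩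
  have n1 := er_nonneg (σ := σ) (κ := κ) (lt_min d0 ε0).le (le_max_of_le_left d0.le :
    0 ≤ max ‖p - z‖ (min (K * r ^ θ) (min l2 1)))
  have n2 := er_nonneg (σ := σ') (κ := κ') (lt_min d0' r0).le (le_max_of_le_left d0'.le :
    0 ≤ max ‖φ p - φ z‖ r)
  refine add_le_add (a.trans (mul_le_mul_of_nonneg_right (by linarith) ?_))
    (mul_le_mul_of_nonneg_right (by linarith) n2)
  positivity

end Pool.Agent.MP_3ee8cb_gt.DNB2.H19
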