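import Pool.Agent.MP_3ee8cb_gt.DNB2.H19Base

/-! Comparison of the contact form and of the symplectic form on the two sides. -/

namespace Pool.Agent.MP_3ee8cb_gt.DNB2.H19

open DN (Dim dm)

open Set Filter Topology Real DN DNC0
open scoped RealInnerProductSpace

variable [Dim] {m m' : MF} {lg lg' : W → V} {β β' : W → V → ℝ} {φ ψ : W → W} {σ κ σ' κ' : ℝ}

theorem key0 (c1 : Cj m lg β m' lg' β' φ ψ) (c2 : Cj m' lg' β' m lg β ψ φ) (E : Ex m lg β σ κ)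
    (E' : Ex m' lg' β' σ' κ') (R : ℝ) : ∃ C l₀ : ℝ, 0 ≤ C ∧ 0 < l₀ ∧ l₀ ≤ 1 ∧
      ∀ (z p q : W) (s l s' l' : ℝ), ‖z‖ ≤ R → ‖z.2‖ = 1 → ‖p.2‖ = 1 → ‖q.2‖ = 1 →
        Fw m' lg' q (φ z) ∨ Bw m' lg' q (φ z) → 0 < s → s ≤ l → l ≤ l₀ → 0 < s' → s' ≤ l' →
        l' ≤ l₀ → ‖p - z‖ ≤ s → ‖ψ q - z‖ ≤ l → ‖φ p - φ z‖ ≤ s' → ‖q - φ z‖ ≤ l' →
          |al m' (φ z) (φ p - φ z) + om m' (φ z) (φ p - φ z) (q - φ z) - al m z (p - z) -
            om m z (p - z) (ψ q - z)| ≤ C * (er σ κ s l + er σ' κ' s' l') := by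
  obtain ⟨R', -, hR⟩ := bnd c1 R
  obtain ⟨C1, l1, C10, l10, fw⟩ := E.fw R
  obtain ⟨C2, l2, C20, l20, bw⟩ := E.bw R
  obtain ⟨C3, l3, C30, l30, fw'⟩ := E'.fw R'
  obtain ⟨C4, l4, C40, l40, bw'⟩ := E'.bw R'
  obtain ⟨l5, l50, inv⟩ := c2.inv (R' + 1)
  refine ⟨C1 + C2 + C3 + C4, min (min (min l1 l2) (min l3 l4)) (min (l5 / 2) 1), by positivity,
    by positivity, (min_le_right _ _).trans (min_le_right _ _),
    fun z p q s l s' l' hz uz u uq lf s0 sl hl s0' sl' hl' hp hq hp' hq' => ?_⟩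
  simp only [le_min_iff] at hl hl'
  have uw := c1.unit z uz
  have u' := c1.unit p u
  have uq' := c2.unit q uq
  have w1 := hR z hz uz
  have p1 : ‖φ p‖ ≤ R' + 1 := by
    have := norm_le_norm_add_norm_sub' (φ p) (φ z)
    linarith [hl'.2.2]
  have q3 : ‖q‖ ≤ R' + 1 := by
    have := norm_le_norm_add_norm_sub' q (φ z)
    linarith [hl'.2.2]
  have q4 : ‖q - φ p‖ ≤ l5 := by
    have := norm_sub_le_norm_sub_add_norm_sub q (φ z) (φ p)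
    rw [norm_sub_rev (φ z)] at this
    linarith [hl'.2.1]
  have ez := c1.left z uz
  have ep := c1.left p u
  have n1 := er_nonneg (σ := σ) (κ := κ) s0.le (s0.le.trans sl)
  have n2 := er_nonneg (σ := σ') (κ := κ') s0'.le (s0'.le.trans sl')
  have m1 := mul_nonneg C10 n1
  have m2 := mul_nonneg C20 n1
  have m3 := mul_nonneg C30 n1
  have m4 := mul_nonneg C40 n1
  have m5 := mul_nonneg C10 n2
  have m6 := mul_nonneg C20 n2
  have m7 := mul_nonneg C30 n2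
  have m8 := mul_nonneg C40 n2
  rcases lf with a | a
  · have b := c2.fw _ _ uq uw a
    have i := inv (φ p) q p1 u' uq q4
    rw [ez] at b
    rw [ep] at i
    have x := abs_le.1 (fw z p (ψ q) s l hz uz u uq' b s0 sl hl.1.1.1 hp hq)
    have y := abs_le.1 (fw' (φ z) (φ p) q s' l' w1 uw u' uq a s0' sl' hl'.1.2.1 hp' hq')
    rw [i] at x
    rw [abs_le]
    constructor <;> linarith [x.1, x.2, y.1, y.2]
  · have b := c2.bw _ _ uq uw a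
    have i := inv q (φ p) q3 uq u' (by rwa [norm_sub_rev])
    rw [ez] at b
    rw [ep] at i
    have x := abs_le.1 (bw z p (ψ q) s l hz uz u uq' b s0 sl hl.1.1.2 hp hq)
    have y := abs_le.1 (bw' (φ z) (φ p) q s' l' w1 uw u' uq a s0' sl' hl'.1.2.2 hp' hq')
    rw [i] at x
    rw [abs_le]
    constructor <;> linarith [x.1, x.2, y.1, y.2]

theorem om_zero (m : MF) (z ξ : W) : om m z ξ 0 = 0 := by simp [om]

theorem key (c1 : Cj m lg β m' lg' β' φ ψ) (c2 : Cj m' lg' β' m lg β ψ φ) (E : Ex m lg β σ κ)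
    (E' : Ex m' lg' β' σ' κ') (R : ℝ) : ∃ C l₀ : ℝ, 0 ≤ C ∧ 0 < l₀ ∧ l₀ ≤ 1 ∧
      ∀ (z p q : W) (s l s' l' : ℝ), ‖z‖ ≤ R → ‖z.2‖ = 1 → ‖p.2‖ = 1 → ‖q.2‖ = 1 →
        Fw m' lg' q (φ z) ∨ Bw m' lg' q (φ z) → 0 < s → s ≤ l → l ≤ l₀ → 0 < s' → s' ≤ l' →
        l' ≤ l₀ → ‖p - z‖ ≤ s → ‖ψ q - z‖ ≤ l → ‖φ p - φ z‖ ≤ s' → ‖q - φ z‖ ≤ l' →
          |al m' (φ z) (φ p - φ z) - al m z (p - z)| ≤ C * (s ^ 2 + s' ^ 2) ∧
          |om m' (φ z) (φ p - φ z) (q - φ z) - om m z (p - z) (ψ q - z)| ≤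
            C * (er σ κ s l + er σ' κ' s' l' + s ^ 2 + s' ^ 2) := by
  obtain ⟨C, l₀, C0, l0, l1, h⟩ := key0 c1 c2 E E' R
  refine ⟨2 * C, l₀, by positivity, l0, l1,
    fun z p q s l s' l' hz uz u uq lf s0 sl hl s0' sl' hl' hp hq hp' hq' => ?_⟩
  have a := abs_le.1 (h z p q s l s' l' hz uz u uq lf s0 sl hl s0' sl' hl' hp hq hp' hq')
  have b := h z p (φ z) s s s' s' hz uz u (c1.unit z uz) (Or.inl (E'.refl _).1) s0 le_rfl
    (sl.trans hl) s0' le_rfl (sl'.trans hl') hp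
    (by rw [c1.left z uz, sub_self, norm_zero]; exact s0.le) hp'
    (by rw [sub_self, norm_zero]; exact s0'.le)
  rw [c1.left z uz, sub_self, sub_self, om_zero, om_zero, add_zero, sub_zero] at b
  have e1 := er_sq E.s0.le E.k0.le s0 le_rfl (sl.trans (hl.trans l1))
  have e2 := er_sq E'.s0.le E'.k0.le s0' le_rfl (sl'.trans (hl'.trans l1))
  have b' : |al m' (φ z) (φ p - φ z) - al m z (p - z)| ≤ 2 * C * (s ^ 2 + s' ^ 2) :=
    b.trans (by nlinarith [mul_le_mul_of_nonneg_left (add_le_add e1 e2) C0])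
  have n := mul_nonneg C0 (add_nonneg (er_nonneg (σ := σ) (κ := κ) s0.le (s0.le.trans sl))
    (er_nonneg (σ := σ') (κ := κ') s0'.le (s0'.le.trans sl')))
  refine ⟨b', ?_⟩
  have b'' := abs_le.1 b'
  rw [abs_le]
  constructor <;> linarith [a.1, a.2, b''.1, b''.2]

theorem radial {w p : W} (uw : ‖w.2‖ = 1) (u : ‖p.2‖ = 1) : |⟪(p - w).2, w.2⟫| ≤ ‖p - w‖ ^ 2 := by
  have a := norm_sub_sq_real p.2 w.2
  have b : ‖p.2 - w.2‖ ≤ ‖p - w‖ := norm_snd_le (p - w)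
  have c := pow_le_pow_left₀ (norm_nonneg _) b 2
  have n := sq_nonneg ‖p.2 - w.2‖
  rw [Prod.snd_sub, inner_sub_left, real_inner_self_eq_norm_sq, abs_le]
  rw [uw, u] at a
  rw [uw]
  constructor <;> linarith

end Pool.Agent.MP_3ee8cb_gt.DNB2.H19
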