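import Pool.Agent.MP_3ee8cb_gt.DNB2.H19Base

/-! The bootstrap along leaves. -/

namespace Pool.Agent.MP_3ee8cb_gt.DNB2

open DN (Dim dm)

open Set Filter Topology Real DN DNC0 H19
open scoped RealInnerProductSpace

namespace RBoot

theorem realA {C c d d' r ε σ κ κ' : ℝ} (C1 : 1 ≤ C) (c0 : 0 < c) (s0 : 0 ≤ σ) (k0 : 0 ≤ κ)
    (d0 : 0 < d) (d1 : d ≤ 1) (r0 : 0 < r) (rd : r ≤ d') (e0 : 0 < ε) (e1 : ε ≤ C * d)
    (h1 : d' ≤ c / (4 * C)) (h2 : (r / d') ^ κ' ≤ c / (4 * C))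
    (h : c * d' * r ≤ C * (d * ε + er σ κ (min d ε) (max d ε)) +
      C * er 1 κ' (min d' r) (max d' r)) : d' * r ≤ 6 * C ^ 3 / c * d ^ 2 := by
  have C0 : 0 < C := by linarith
  have d0' := r0.trans_le rd
  rw [min_eq_right rd, max_eq_left rd] at h
  have a1 : er 1 κ' r d' ≤ r * d' * (c / (4 * C) + c / (4 * C)) := by
    unfold er
    rw [t2 κ' r0 d0', rpow_one, mul_add, sq, ← mul_assoc]
    exact add_le_add (mul_le_mul_of_nonneg_left h1 (by positivity))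
      (mul_le_mul_of_nonneg_left h2 (by positivity))
  have a2 : C * (r * d' * (c / (4 * C) + c / (4 * C))) = c * d' * r / 2 := by
    field_simp
    ring
  have a3 := mul_le_mul_of_nonneg_left a1 C0.le
  have b0 : d ≤ C * d := le_mul_of_one_le_left d0.le C1
  have b1 := er_sq s0 k0 (lt_min d0 e0) (min_le_max (a := d) (b := ε)) ((min_le_left _ _).trans d1)
  have b2 : max d ε ^ 2 ≤ (C * d) ^ 2 :=
    pow_le_pow_left₀ (le_max_of_le_left d0.le) (max_le b0 e1) 2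
  have b3 : d * ε ≤ (C * d) ^ 2 := by
    rw [sq]
    exact mul_le_mul b0 e1 e0.le (by positivity)
  have b4 := mul_le_mul_of_nonneg_left
    (show d * ε + er σ κ (min d ε) (max d ε) ≤ 3 * (C * d) ^ 2 by linarith) C0.le
  rw [div_mul_eq_mul_div, le_div_iff₀ c0]
  nlinarith

theorem realB {C c d d' ε σ κ κ' ρ θ : ℝ} (C1 : 1 ≤ C) (c0 : 0 < c) (k0 : 0 ≤ κ')
    (d0 : 0 < d) (d1 : d ≤ 1) (d0' : 0 < d') (d1' : d' ≤ 1) (r1 : ρ ≤ 1) (e0 : 0 < ε) (e1 : ε ≤ 1)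
    (e2 : ε ≤ C * (d' ^ ρ) ^ θ) (h1 : d' ^ (σ - 1 + ρ) ≤ c / (4 * C))
    (h2 : d' ^ ((1 - ρ) * κ) ≤ c / (4 * C))
    (h : c * d' * d' ^ ρ ≤ C * (d * ε + er 1 κ' (min d ε) (max d ε)) +
      C * er σ κ (min d' (d' ^ ρ)) (max d' (d' ^ ρ))) :
    d' ^ (1 + ρ * (1 - θ)) ≤ 6 * C ^ 2 / c * d ^ (1 : ℝ) := by
  have C0 : 0 < C := by linarith
  have r0 := rpow_pos_of_pos d0' ρ
  have rd : d' ≤ d' ^ ρ := by
    have := rpow_le_rpow_of_exponent_ge d0' d1' r1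
    rwa [rpow_one] at this
  rw [min_eq_left rd, max_eq_right rd] at h
  have i1 : d' ^ σ * (d' ^ ρ) ^ 2 = d' * d' ^ ρ * d' ^ (σ - 1 + ρ) := by
    rw [rpow_add d0', rpow_sub d0', rpow_one]
    field_simp
  have i2 : (d' / d' ^ ρ) ^ κ = d' ^ ((1 - ρ) * κ) := by
    rw [rpow_mul d0'.le, rpow_sub d0', rpow_one]
  have a1 : er σ κ d' (d' ^ ρ) ≤ d' * d' ^ ρ * (c / (4 * C) + c / (4 * C)) := by
    unfold er
    rw [t2 κ d0' r0, i1, i2, mul_add]
    exact add_le_add (mul_le_mul_of_nonneg_left h1 (by positivity))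
      (mul_le_mul_of_nonneg_left h2 (by positivity))
  have a2 : C * (d' * d' ^ ρ * (c / (4 * C) + c / (4 * C))) = c * d' * d' ^ ρ / 2 := by
    field_simp
    ring
  have a3 := mul_le_mul_of_nonneg_left a1 C0.le
  have b1 := er_one k0 (lt_min d0 e0) (min_le_max (a := d) (b := ε)) (max_le d1 e1)
  rw [min_mul_max] at b1
  have b2 := mul_le_mul_of_nonneg_left e2 d0.le
  have b4 := mul_le_mul_of_nonneg_left
    (show d * ε + er 1 κ' (min d ε) (max d ε) ≤ 3 * (d * (C * (d' ^ ρ) ^ θ)) by linarith) C0.le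
  have t0 := rpow_pos_of_pos r0 θ
  have i3 : d' ^ (1 + ρ * (1 - θ)) = d' * d' ^ ρ / (d' ^ ρ) ^ θ := by
    rw [rpow_add d0', rpow_mul d0'.le, rpow_sub r0, rpow_one, rpow_one, mul_div_assoc]
  rw [i3, rpow_one, div_le_iff₀ t0, div_mul_eq_mul_div, div_mul_eq_mul_div, le_div_iff₀ c0]
  nlinarith

variable [Dim] {m m' : MF} {lg lg' : W → V} {β β' : W → V → ℝ} {φ ψ : W → W}

theorem mono (c : Cj m lg β m' lg' β' φ ψ) {θ θ' : ℝ} (h0 : 0 ≤ θ') (h : θ' ≤ θ)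
    (H : HL m lg φ θ) : HL m lg φ θ' := by
  intro R
  obtain ⟨C, C0, hC⟩ := H R
  refine ext c h0 (fun z p => Fw m lg p z ∨ Bw m lg p z) R
    ⟨C, 1, one_pos, fun z p hz hp uz u lf d0 d1 _ => (hC z p hz hp uz u lf).trans ?_⟩
  exact mul_le_mul_of_nonneg_left (rpow_le_rpow_of_exponent_ge d0 d1 h) C0

theorem zero (c : Cj m lg β m' lg' β' φ ψ) : HL m lg φ 0 := by
  intro R
  obtain ⟨R', R0, hR⟩ := bnd c R
  refine ⟨2 * R', by positivity, fun z p hz hp uz u _ => ?_⟩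
  have := norm_sub_le (φ p) (φ z)
  rw [rpow_zero]
  linarith [hR z hz uz, hR p hp u]

end RBoot

open RBoot

variable [Dim]

theorem boota : SBOOTA := by
  intro m lg β m' lg' β' φ ψ c1 c2 σ κ κ' θ s0 k0 _ k0' _ L L' h0 h1 H R
  have θ0 : 0 < θ := by linarith
  have i1 : 1 ≤ 1 / θ := (le_div_iff₀ θ0).2 (by linarith)
  have i2 : 1 / θ ≤ 2 := (div_le_iff₀ θ0).2 (by linarith)
  refine ext c1 (by linarith) (fun z p => Fw m lg p z ∨ Bw m lg p z) R ?_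
  obtain ⟨C, c, l₀, C1, c0, l0, l1, tr⟩ := tr c1 c2 L L' θ0.le H R
  have q0 : 0 < c / (4 * C) := by positivity
  obtain ⟨μ, μ0, hμ⟩ := small k0' q0
  obtain ⟨δ, δ0, hδ⟩ := uc c1 R (lt_min l0 q0)
  have m0 : 0 < min μ 1 := by positivity
  refine ⟨max (min μ 1)⁻¹ (6 * C ^ 3 / c), min δ l₀, by positivity,
    fun z p hz hp uz u lf d0 dl d0' => ?_⟩
  have dd := le_min_iff.1 (hδ z p hz hp uz u (dl.trans (min_le_left _ _)))
  have dl' := dl.trans (min_le_right _ _)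
  have tr' := tr z p (‖p - z‖ ^ (1 / θ)) hz hp uz u lf d0 dl' d0' dd.1
  generalize ‖p - z‖ = d at *
  generalize ‖φ p - φ z‖ = d' at *
  have d1 := dl'.trans l1
  have n0 := rpow_pos_of_pos d0 (2 - 1 / θ)
  rcases le_total (min μ 1 * d') d with l | l
  · have a : d ≤ d ^ (2 - 1 / θ) := by
      have := rpow_le_rpow_of_exponent_ge d0 d1 (show 2 - 1 / θ ≤ 1 by linarith)
      rwa [rpow_one] at this
    refine le_trans ?_ (mul_le_mul_of_nonneg_right (le_max_left _ _) n0.le)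
    rw [le_inv_mul_iff₀ m0]
    exact l.trans a
  · have r0 := rpow_pos_of_pos d0 (1 / θ)
    have rd : d ^ (1 / θ) ≤ d := by
      have := rpow_le_rpow_of_exponent_ge d0 d1 i1
      rwa [rpow_one] at this
    obtain ⟨ε, e0, -, e2, h⟩ := tr' r0 (rd.trans dl')
    rw [← rpow_mul d0.le, one_div_mul_cancel θ0.ne', rpow_one] at e2
    have l1 : min μ 1 * d' ≤ d' := mul_le_of_le_one_left d0'.le (min_le_right _ _)
    have l2 : min μ 1 * d' ≤ μ * d' := mul_le_mul_of_nonneg_right (min_le_left _ _) d0'.le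
    have a := realA C1 c0 s0.le k0.le d0 d1 r0 (by linarith) e0 e2 dd.2
      (hμ _ (by positivity) ((div_le_iff₀ d0').2 (by linarith))) h
    refine le_trans ?_ (mul_le_mul_of_nonneg_right (le_max_right _ _) n0.le)
    rw [rpow_sub d0, rpow_two, ← mul_div_assoc, le_div_iff₀ r0]
    exact a

theorem bootb : SBOOTB := by
  intro m lg β m' lg' β' φ ψ c1 c2 σ κ κ' θ ρ k0 _ k0' _ L L' r0 r1 r2 h0 h1 H R
  have a0 : 0 < 1 + ρ * (1 - θ) := by nlinarith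
  refine ext c2 (by positivity) (fun z p => Fw m' lg' p z ∨ Bw m' lg' p z) R ?_
  obtain ⟨C, c, l₀, C1, c0, l0, l1, tr⟩ := tr c2 c1 L' L h0 H R
  have q0 : 0 < c / (4 * C) := by positivity
  obtain ⟨δ1, δ10, h1⟩ := small r0 l0
  obtain ⟨δ2, δ20, h2⟩ := small (show 0 < σ - 1 + ρ by linarith) q0
  obtain ⟨δ3, δ30, h3⟩ := small (mul_pos (sub_pos.2 r2) k0) q0
  obtain ⟨δ, δ0, hδ⟩ := uc c2 R (lt_min (lt_min l0 δ10) (lt_min δ20 δ30))
  refine ⟨(6 * C ^ 2 / c) ^ (1 + ρ * (1 - θ))⁻¹, min δ l₀, by positivity,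
    fun z p hz hp uz u lf d0 dl d0' => ?_⟩
  have dd := hδ z p hz hp uz u (dl.trans (min_le_left _ _))
  simp only [le_min_iff] at dd
  have dl' := dl.trans (min_le_right _ _)
  obtain ⟨ε, e0, e1, e2, h⟩ := tr z p (‖ψ p - ψ z‖ ^ ρ) hz hp uz u lf d0 dl' d0' dd.1.1
    (rpow_pos_of_pos d0' _) (h1 _ d0'.le dd.1.2)
  exact solve d0'.le d0 (dl'.trans l1) (by positivity) a0
    (realB C1 c0 k0'.le d0 (dl'.trans l1) d0' (dd.1.1.trans l1) r2.le e0 e1 e2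
      (h2 _ d0'.le dd.2.1) (h3 _ d0'.le dd.2.2) h) (one_div_mul_cancel a0.ne').le

theorem iter : SITER := by
  intro A B m lg β m' lg' β' φ ψ c1 c2 σ κ κ' s0 s1 k0 k1 k0' k1' L L' θ h0 h1
  obtain ⟨ρ, hρ⟩ : ∃ ρ, ρ = 1 - σ / 2 := ⟨_, rfl⟩
  have r0 : 0 < ρ := by linarith
  have r1 : ρ < 1 := by linarith
  have p0 : ∀ k : ℕ, 0 < ρ ^ k := fun k => pow_pos r0 k
  have p1 : ∀ k : ℕ, ρ ^ k ≤ 1 := fun k => pow_le_one₀ r0.le r1.le
  have st : ∀ k : ℕ, HL m lg φ (1 - ρ ^ k) → HL m' lg' ψ (1 / (1 + ρ ^ (k + 1))) := fun k H => by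
    have := B m lg β m' lg' β' φ ψ c1 c2 σ κ κ' (1 - ρ ^ k) ρ k0 k1 k0' k1' L L' r0 (by linarith)
      r1 (by linarith [p1 k]) (by linarith [p0 k]) H
    rwa [sub_sub_cancel, ← pow_succ'] at this
  have all : ∀ k : ℕ, HL m lg φ (1 - ρ ^ k) := fun k => by
    induction k with
    | zero =>
      rw [pow_zero, sub_self]
      exact zero c1
    | succ k ih =>
      have q0 := p0 (k + 1)
      have q1 : ρ ^ (k + 1) < 1 := pow_lt_one₀ r0.le r1 k.succ_ne_zero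
      have := A m lg β m' lg' β' φ ψ c1 c2 σ κ κ' _ s0 k0 k1 k0' k1' L L'
        (one_div_lt_one_div_of_lt (by linarith) (by linarith))
        ((div_le_one (by linarith)).2 (by linarith)) (st k ih)
      rw [one_div_one_div] at this
      exact mono c1 (by linarith) (by linarith) this
  obtain ⟨k, hk⟩ := exists_pow_lt_of_lt_one (sub_pos.2 h1) r1
  have q0 := p0 (k + 1)
  have q1 : ρ ^ (k + 1) ≤ ρ ^ k := by
    rw [pow_succ]
    exact mul_le_of_le_one_right (p0 k).le r1.le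
  refine ⟨mono c1 h0 (by linarith) (all k), mono c2 h0 ?_ (st k (all k))⟩
  rw [le_div_iff₀ (by linarith)]
  nlinarith

end Pool.Agent.MP_3ee8cb_gt.DNB2
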