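import Pool.Agent.MP_3ee8cb_gt.DNB2.Spec
import Pool.Agent.MP_3ee8cb_gt.DNC0.RBs
import Pool.Agent.MP_3ee8cb_gt.DNC0.RFin

/-! The conjugacy read in frames. -/

namespace Pool.Agent.MP_3ee8cb_gt.DNB2

open DN (Dim dm)

variable [Dim]

open Set Filter Topology Real DN DNC0
open CR (Met UT dd ng bus)
open scoped RealInnerProductSpace

namespace RCj

variable {g h : Met dm} {Φ : ℝ → UT g → UT g} {Ψ : ℝ → UT h → UT h} {m m' : MF} {lg lg' : W → V}
  {β β' : W → V → ℝ}

theorem val (o : m.OK) (p : UT g) : p.1 = ((fz m p).1, m.R (fz m p).1 (fz m p).2) :=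
  Prod.ext rfl (o.RS _ _).symm

theorem exm (l : Ln g Φ m lg β) (l' : Ln h Ψ m' lg' β') (o : m.OK) {F : UT g → UT h}
    (hF : Continuous F) : ∃ φ : W → W, (∀ p, φ (fz m p) = fz m' (F p)) ∧
      ContinuousOn φ {z | ‖z.2‖ = 1} := by
  classical
  choose iv hiv using l.onto
  have c : Continuous fun z : {z : W | ‖z.2‖ = 1} => iv z.1 z.2 := by
    refine continuous_induced_rng.2 ?_
    have e : (Subtype.val ∘ fun z : {z : W | ‖z.2‖ = 1} => iv z.1 z.2) =
        fun z => (z.1.1, m.R z.1.1 z.1.2) := funext fun z => by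
      change (iv z.1 z.2).1 = _
      rw [val o, hiv]
    rw [e]
    have c1 : Continuous fun z : {z : W | ‖z.2‖ = 1} => z.1.1 :=
      continuous_fst.comp continuous_subtype_val
    exact c1.prodMk ((o.cR.continuous.comp c1).clm_apply
      (continuous_snd.comp continuous_subtype_val))
  refine ⟨fun z => if hz : ‖z.2‖ = 1 then fz m' (F (iv z hz)) else z, fun p => ?_, ?_⟩
  · have e : iv (fz m p) (l.unit p) = p := Subtype.ext (by rw [val o, hiv, ← val o])
    simp only [dif_pos (l.unit p), e]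
  · rw [continuousOn_iff_continuous_restrict]
    refine (l'.cont.comp (hF.comp c)).congr fun z => ?_
    have hz : ‖z.1.2‖ = 1 := z.2
    simp only [restrict_apply, dif_pos hz, Function.comp]

theorem dfe (l : Ln g Φ m lg β) (p q : UT g) :
    df m lg (fz m p) (fz m q) = fun t => dd g (Φ t p).1.1 (Φ t q).1.1 := funext fun t => by
  rw [df, l.flow, l.flow, l.dist]
  rfl

theorem gre (l : Ln g Φ m lg β) (p q : UT g) : gr β (fz m q) (fz m p) = Gr g Φ q p :=
  iInf_congr fun y => by rw [← l.neg, ← l.bus, ← l.bus]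

theorem small (o : m.OK) (j : m.Jac) (hd : m.Had lg) (t R : ℝ) {δ : ℝ} (hδ : 0 < δ) :
    ∃ l₀ : ℝ, 0 < l₀ ∧ ∀ p q : W, ‖p‖ ≤ R → ‖q - p‖ ≤ l₀ → df m lg q p t ≤ δ := by
  have cz : Continuous fun z : W => (m.Z t z).1 := continuous_fst.comp (RBs.c1 o t).continuous
  have c : Continuous fun x : W × W => df m lg x.2 x.1 t :=
    (hd.c1.continuous.comp ((cz.comp continuous_snd).prodMk (cz.comp continuous_fst))).norm
  obtain ⟨ε, hε, H⟩ := Metric.uniformContinuousOn_iff_le.1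
    (((isCompact_closedBall (0 : W) R).prod
      (isCompact_closedBall (0 : W) (R + 1))).uniformContinuousOn_of_continuous c.continuousOn) δ hδ
  refine ⟨min ε 1, lt_min hε one_pos, fun p q hp hq => ?_⟩
  have h1 : ‖q‖ ≤ R + 1 := by
    have := norm_add_le p (q - p)
    rw [add_sub_cancel] at this
    linarith [hq.trans (min_le_right _ _)]
  have := H (p, q) ⟨mem_closedBall_zero_iff.2 hp, mem_closedBall_zero_iff.2 h1⟩ (p, p)
    ⟨mem_closedBall_zero_iff.2 hp, mem_closedBall_zero_iff.2 (by linarith)⟩ (by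
      rw [Prod.dist_eq, dist_self, dist_eq_norm]
      exact max_le hε.le (hq.trans (min_le_left _ _)))
  have e : df m lg p p t = 0 := by rw [df, RBs.self o j hd, norm_zero]
  rw [Real.dist_eq, e, sub_zero] at this
  exact (le_abs_self _).trans this

theorem half {a : ℝ} {F : UT g ≃ₜ UT h} (l : Ln g Φ m lg β) (l' : Ln h Ψ m' lg' β') (o : m.OK)
    (j : m.Jac) (hd : m.Had lg) (bz : Bz m lg a β) (G : Grv g Φ) (G' : Grv h Ψ)
    (A : Asp g h Φ Ψ F) {φ ψ : W → W} (e : ∀ p, φ (fz m p) = fz m' (F p))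
    (e' : ∀ p, ψ (fz m' p) = fz m (F.symm p)) (c : ContinuousOn φ {z | ‖z.2‖ = 1}) :
    Cj m lg β m' lg' β' φ ψ := by
  refine ⟨fun z hz => ?_, c, fun z hz => ?_, fun z z' hz hz' H => ?_, fun z z' hz hz' H => ?_,
    fun R => ?_⟩
  · obtain ⟨p, rfl⟩ := l.onto z hz
    rw [e]
    exact l'.unit _
  · obtain ⟨p, rfl⟩ := l.onto z hz
    rw [e, e', F.symm_apply_apply]
  · obtain ⟨p, rfl⟩ := l.onto z hz
    obtain ⟨q, rfl⟩ := l.onto z' hz'
    rw [Fw, dfe l] at H
    rw [e, e, Fw, dfe l']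
    exact (A.top p q).1 H
  · obtain ⟨p, rfl⟩ := l.onto z hz
    obtain ⟨q, rfl⟩ := l.onto z' hz'
    rw [Bw, dfe l] at H
    rw [e, e, Bw, dfe l']
    exact (A.bot p q).1 H
  · obtain ⟨δ, hδ, U⟩ := bz.uni 1 one_pos
    obtain ⟨l0, h0, H0⟩ := small o j hd 0 R hδ
    obtain ⟨l1, h1, H1⟩ := small o j hd 1 R hδ
    refine ⟨min l0 l1, lt_min h0 h1, fun z z' hR hz hz' hl => ?_⟩
    obtain ⟨w, t₀, hw, -, b1, b2⟩ := U z' z hz' hz (H0 z z' hR (hl.trans (min_le_left _ _)))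
      (H1 z z' hR (hl.trans (min_le_right _ _)))
    obtain ⟨p, rfl⟩ := l.onto z hz
    obtain ⟨q, rfl⟩ := l.onto z' hz'
    obtain ⟨u, rfl⟩ := l.onto w hw
    rw [Bw, dfe l] at b1
    rw [l.flow, Fw, dfe l] at b2
    have b3 := (A.top _ _).1 b2
    rw [A.flow] at b3
    rw [e, e, gre l, gre l', (G u q p t₀ b1 b2).1, (G' _ _ _ t₀ ((A.bot _ _).1 b1) b3).1]

end RCj

open RCj in
theorem cj : SCJ := by
  intro g h Φ Ψ m m' lg lg' β β' a a' F l l' o o' j j' hd hd' bz bz' G G' A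
  obtain ⟨φ, e, c⟩ := exm l l' o F.continuous
  obtain ⟨ψ, e', c'⟩ := exm l' l o' F.symm.continuous
  have A' : Asp h g Ψ Φ F.symm := by
    refine ⟨fun t p => F.injective ?_, fun p q => ?_, fun p q => ?_⟩
    · rw [A.flow, F.apply_symm_apply, F.apply_symm_apply]
    · rw [A.top, F.apply_symm_apply, F.apply_symm_apply]
    · rw [A.bot, F.apply_symm_apply, F.apply_symm_apply]
  exact ⟨φ, ψ, half l l' o j hd bz G G' A e e' c, half l' l o' j' hd' bz' G' G A' e' e c', e, e'⟩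

theorem fin : SFIN := by
  intro g h m m' F φ o o' un e c p
  have c1 : ContDiff ℝ 1 fun z : W => ((z.1, m.S z.1 z.2) : W) :=
    contDiff_fst.prodMk (((o.cS.of_le one_le_two).comp contDiff_fst).clm_apply contDiff_snd)
  have c2 : ContDiff ℝ 1 fun z : W => ((z.1, m'.R z.1 z.2) : W) :=
    contDiff_fst.prodMk (((o'.cR.of_le one_le_two).comp contDiff_fst).clm_apply contDiff_snd)
  have h0 : (fz m p).2 ≠ 0 := fun e => by simpa [e] using un p
  have c3 : ContDiffAt ℝ 1 (fun z => φ (nz z)) (fz m p) :=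
    c.contDiffAt ((isOpen_ne_fun continuous_snd continuous_const).mem_nhds h0)
  refine ⟨(fun z : W => ((z.1, m'.R z.1 z.2) : W)) ∘ (fun z => φ (nz z)) ∘
    fun z : W => ((z.1, m.S z.1 z.2) : W), c2.contDiffAt.comp _ (c3.comp p.1 c1.contDiffAt),
    Eventually.of_forall fun q => ?_⟩
  have e1 : nz (fz m q) = fz m q := by rw [nz, un, inv_one, one_smul]
  change _ = ((φ (nz (fz m q))).1, m'.R (φ (nz (fz m q))).1 (φ (nz (fz m q))).2)
  rw [e1, e]
  exact RCj.val o' _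

end Pool.Agent.MP_3ee8cb_gt.DNB2
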