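import Pool.Agent.MP_3ee8cb_gt.DNC0.Spec

/-! A conjugacy is of class `C¹` when one side is quarter pinched: statements of the rows. -/

namespace Pool.Agent.MP_3ee8cb_gt.DNB2

open DN (Dim dm)

variable [Dim]

open Set Filter Topology Real DN DNC0
open CR (Met UT dd ng)
open LV (QP BP ThP LbP Lp1P)
open scoped RealInnerProductSpace ContDiff

noncomputable section

/-- A negatively curved space with a cocompact group; no ratio between `a` and `b`. -/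
structure NV (m : MF) (lg : W → V) (Γ : Type) [Group Γ] [MulAction Γ V]
    (O : Γ → V → V ≃ₗᵢ[ℝ] V) (a b : ℝ) : Prop where
  ok : m.OK
  jac : m.Jac
  had : m.Had lg
  act : Act m Γ O
  a0 : 0 < a
  ab : a ≤ b
  up : m.Up 0
  dn : m.Dn (b ^ 2)
  th : ∀ y u u' : V, ‖u‖ = 1 → ‖u'‖ = 1 → ∀ R T : ℝ, 0 ≤ T → T ≤ R →
    cosh (a * df m lg (y, u) (y, u') (R - T)) ≤
      1 + exp (-(2 * a * T)) * (cosh (a * df m lg (y, u) (y, u') R) - 1)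
  fin : ∀ R : ℝ, {γ : Γ | ∃ x : V, ‖x‖ ≤ R ∧ ‖γ • x‖ ≤ R}.Finite
  qz : Q2 (m.Z 1)
  qa : ∀ γ, ContDiff ℝ 2 (ac O γ)

def OnV (P : ∀ (_ : MF) (_ : W → V) (Γ : Type) [Group Γ] [MulAction Γ V]
    (_ : Γ → V → V ≃ₗᵢ[ℝ] V) (_ _ : ℝ), Prop) : Prop :=
  ∀ (m : MF) (lg : W → V) (Γ : Type) [Group Γ] [MulAction Γ V] (O : Γ → V → V ≃ₗᵢ[ℝ] V)
    (a b : ℝ), NV m lg Γ O a b → P m lg Γ O a b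

/-! ### Rows taken over from the pinched case -/

def SBS : Prop := OnV fun m lg Γ _ _ _ _ _ => Bs m lg Γ
def SJF : Prop := OnV fun m lg _ _ _ _ a b => Jf m lg a b
def SSTEP : Prop := SQ2 → OnV fun m lg _ _ _ O a b => Jf m lg a b → Step m O b
def SMOV : Prop := OnV fun m lg Γ _ _ O a b => Bs m lg Γ → Mov m lg O a b
def SSEG : Prop := OnV fun m lg Γ _ _ _ a b => Bs m lg Γ → Jf m lg a b → Seg m lg a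
def SDER : Prop := OnV fun m lg Γ _ _ _ a b => Bs m lg Γ → Jf m lg a b → Der m lg

/-! ### One space -/

def Fw (m : MF) (lg : W → V) (p q : W) : Prop := Tendsto (df m lg p q) atTop (𝓝 0)

def Bw (m : MF) (lg : W → V) (p q : W) : Prop := Tendsto (df m lg p q) atBot (𝓝 0)

/-- The offset from the past of `q` to the future of `p`. -/
def gr (β : W → V → ℝ) (q p : W) : ℝ := ⨅ y, (β p y + β (fl q) y)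

def al (m : MF) (z ξ : W) : ℝ := ⟪m.hor z ξ, z.2⟫

/-- The error term. -/
def er (σ κ s l : ℝ) : ℝ := s ^ σ * l ^ 2 + s ^ (1 + κ) * l ^ (1 - κ)

/-- Busemann functions in frames. -/
structure Bz (m : MF) (lg : W → V) (a : ℝ) (β : W → V → ℝ) : Prop where
  lim : ∀ (z : W) (y : V), ‖z.2‖ = 1 → Tendsto (fun T : ℕ => bt m lg T z y) atTop (𝓝 (β z y))
  lip : ∀ (z : W) (x y : V), ‖z.2‖ = 1 → β z x - β z y ≤ ‖lg (x, y)‖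
  self : ∀ (z : W) (t : ℝ), ‖z.2‖ = 1 → β z (m.Z t z).1 = -t
  shift : ∀ (z : W) (t : ℝ) (y : V), ‖z.2‖ = 1 → β (m.Z t z) y = β z y + t
  top : ∀ p q : W, ‖p.2‖ = 1 → ‖q.2‖ = 1 → Fw m lg p q → ∀ y, β p y = β q y
  opp : ∀ (z : W) (y : V), ‖z.2‖ = 1 → 0 ≤ β z y + β (fl z) y
  lb : ∀ (z : W) (y : V), ‖z.2‖ = 1 →
    cosh (a * ‖lg (z.1, y)‖) ≤ max (exp (a * β z y)) (exp (a * β (fl z) y))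
  uni : ∀ η : ℝ, 0 < η → ∃ δ : ℝ, 0 < δ ∧ ∀ q p : W, ‖q.2‖ = 1 → ‖p.2‖ = 1 →
    df m lg q p 0 ≤ δ → df m lg q p 1 ≤ δ → ∃ (u : W) (t₀ : ℝ), ‖u.2‖ = 1 ∧
      (∀ T, 0 ≤ T → df m lg u q (-T) ≤ η) ∧ Bw m lg u q ∧ Fw m lg (m.Z t₀ u) p

/-- The core estimate up to time `T`. -/
def TelK (m : MF) (lg : W → V) (a b σ : ℝ) : Prop := ∀ R A : ℝ, ∃ C : ℝ, 0 ≤ C ∧
  ∀ (T : ℕ) (z q ξ : W) (ε : ℝ), ‖z‖ ≤ R → 0 ≤ ε → ε ≤ A → Cl m lg a ε T z q →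
    |en m T z ξ q - om m z ξ (q - z)| ≤ C * nn m b z ξ * ε ^ 2 * exp (b * (1 - σ) * T)

def Mid (m : MF) (lg : W → V) : Prop := ∀ A : ℝ, ∃ C : ℝ, 0 ≤ C ∧ ∀ (u : W) (x : V), ‖u.2‖ = 1 →
  ‖lg (u.1, x)‖ ≤ A →
    ‖lg ((m.Z (-1) u).1, x)‖ + ‖lg ((m.Z 1 u).1, x)‖ ≤ 2 + C * ‖lg (u.1, x)‖ ^ 2

/-- Asymptotes exist and approach exponentially. -/
structure Asy (m : MF) (lg : W → V) (a : ℝ) (β : W → V → ℝ) : Prop where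
  ex : ∀ (z : W) (y : V), ‖z.2‖ = 1 → ∃ u : W, ‖u.2‖ = 1 ∧ Fw m lg u z ∧ (m.Z (-β z y) u).1 = y
  dec : ∀ A : ℝ, ∃ C : ℝ, 0 ≤ C ∧ ∀ z u : W, ‖z.2‖ = 1 → ‖u.2‖ = 1 → Fw m lg u z →
    df m lg z u 0 ≤ A → ∀ t, 0 ≤ t → df m lg z u t ≤ C * df m lg z u 0 * exp (-(a * t))

def Trunc (m : MF) (lg : W → V) (a : ℝ) (β : W → V → ℝ) : Prop := ∃ C : ℝ, 0 ≤ C ∧
  ∀ (z : W) (y : V) (T : ℕ), ‖z.2‖ = 1 → ‖lg (z.1, y)‖ ≤ 1 → 2 ≤ T →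
    |bt m lg T z y - β z y| ≤ C * ‖lg (z.1, y)‖ ^ 2 * exp (-(2 * a * T))

def Grw (m : MF) (lg : W → V) (b : ℝ) : Prop := ∀ R : ℝ, ∃ C : ℝ, 0 ≤ C ∧ ∀ (z p : W) (t : ℝ),
  ‖z‖ ≤ R → ‖z.2‖ = 1 → ‖p.2‖ = 1 → ‖p - z‖ ≤ 1 / 2 → 0 ≤ t →
    df m lg z p t ≤ C * ‖p - z‖ * exp (b * t)

/-- Segments to a nearby geodesic are close to the asymptote. -/
def Clo (m : MF) (lg : W → V) (b κ : ℝ) : Prop := ∀ R : ℝ, ∃ C l₀ : ℝ, 0 ≤ C ∧ 0 < l₀ ∧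
  ∀ (z p u : W) (s l τ : ℝ) (K : ℕ), ‖z‖ ≤ R → ‖z.2‖ = 1 → ‖p.2‖ = 1 → ‖u.2‖ = 1 → Fw m lg u z →
    0 < s → s ≤ l → l ≤ l₀ → ‖p - z‖ ≤ s → ‖u - z‖ ≤ l → |τ| ≤ l → 1 ≤ s * exp (b * K) →
      1 < K ∧ ‖lg (p.1, (m.Z τ u).1)‖ ≤ 1 ∧ ‖lg (p.1, (m.Z τ u).1)‖ ≤ C * l ∧
        ‖sg m lg K p (m.Z τ u).1 - u‖ ≤ C * (s ^ κ * l ^ (1 - κ))

def E1 (m : MF) (lg : W → V) (β : W → V → ℝ) (σ κ : ℝ) : Prop := ∀ R : ℝ, ∃ C l₀ : ℝ, 0 ≤ C ∧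
  0 < l₀ ∧ ∀ (z p u : W) (s l τ : ℝ), ‖z‖ ≤ R → ‖z.2‖ = 1 → ‖p.2‖ = 1 → ‖u.2‖ = 1 →
    Fw m lg u z → 0 < s → s ≤ l → l ≤ l₀ → ‖p - z‖ ≤ s → ‖u - z‖ ≤ l → |τ| ≤ l →
      |β p (m.Z τ u).1 + τ - al m z (p - z) - om m z (p - z) (u - z)| ≤ C * er σ κ s l

def E2 (m : MF) (lg : W → V) (β : W → V → ℝ) (σ κ : ℝ) : Prop := ∀ R : ℝ, ∃ C l₀ : ℝ, 0 ≤ C ∧
  0 < l₀ ∧ ∀ (z p q : W) (s l : ℝ), ‖z‖ ≤ R → ‖z.2‖ = 1 → ‖p.2‖ = 1 → ‖q.2‖ = 1 →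
    Fw m lg q z → 0 < s → s ≤ l → l ≤ l₀ → ‖p - z‖ ≤ s → ‖q - z‖ ≤ l →
      |gr β q p - al m z (p - z) - om m z (p - z) (q - z)| ≤ C * er σ κ s l

/-- Stable test vectors. -/
def Tst (m : MF) (lg : W → V) : Prop := ∀ R : ℝ, ∃ C c : ℝ, 0 ≤ C ∧ 0 < c ∧ ∀ ε : ℝ, 0 < ε →
  ∃ l₀ : ℝ, 0 < l₀ ∧ ∀ (z : W) (e : V) (r : ℝ), ‖z‖ ≤ R → ‖z.2‖ = 1 → ‖e‖ = 1 → ⟪e, z.2⟫ = 0 →
    0 < r → r ≤ l₀ → ∃ q : W, ‖q.2‖ = 1 ∧ Fw m lg q z ∧ ‖q - z‖ ≤ C * r ∧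
      ‖m.hor z (q - z) - r • e‖ ≤ ε * r ∧ ⟪m.ver z (q - z), e⟫ ≤ -(c * r)

def Nrm (m : MF) (lg : W → V) : Prop := ∀ R : ℝ, ∃ C c l₀ : ℝ, 0 ≤ C ∧ 0 < c ∧ 0 < l₀ ∧
  ∀ (z v : W) (r : ℝ), ‖z‖ ≤ R → ‖z.2‖ = 1 → 0 < r → r ≤ l₀ → ∃ q : W, ‖q.2‖ = 1 ∧
    (Fw m lg q z ∨ Bw m lg q z) ∧ ‖q - z‖ ≤ C * r ∧
      c * r * ‖v‖ ≤ r * |al m z v| + r * |⟪v.2, z.2⟫| + |om m z v (q - z)|

/-- All that the bootstrap needs from one space. -/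
structure Ex (m : MF) (lg : W → V) (β : W → V → ℝ) (σ κ : ℝ) : Prop where
  s0 : 0 < σ
  s1 : σ ≤ 1
  k0 : 0 < κ
  k1 : κ ≤ 1
  refl : ∀ z, Fw m lg z z ∧ Bw m lg z z
  zero : ∀ z p q : W, ‖z.2‖ = 1 → ‖p.2‖ = 1 → ‖q.2‖ = 1 →
    (Fw m lg p z ∧ Fw m lg q z) ∨ (Bw m lg p z ∧ Bw m lg q z) → gr β p q = 0
  fw : E2 m lg β σ κ
  bw : ∀ R : ℝ, ∃ C l₀ : ℝ, 0 ≤ C ∧ 0 < l₀ ∧ ∀ (z p q : W) (s l : ℝ), ‖z‖ ≤ R → ‖z.2‖ = 1 →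
    ‖p.2‖ = 1 → ‖q.2‖ = 1 → Bw m lg q z → 0 < s → s ≤ l → l ≤ l₀ → ‖p - z‖ ≤ s → ‖q - z‖ ≤ l →
      |gr β p q + al m z (p - z) + om m z (p - z) (q - z)| ≤ C * er σ κ s l
  nrm : Nrm m lg
  bd : ∀ R : ℝ, ∃ C : ℝ, 0 ≤ C ∧ ∀ z ξ η : W, ‖z‖ ≤ R →
    |al m z ξ| ≤ C * ‖ξ‖ ∧ |om m z ξ η| ≤ C * ‖ξ‖ * ‖η‖

def STELK : Prop := OnV fun m lg Γ _ _ O a b => ∀ σ, σ ≤ 1 → b * σ < 2 * a → Bs m lg Γ →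
  Jf m lg a b → Step m O b → Mov m lg O a b → TelK m lg a b σ
def SMID : Prop := OnV fun m lg Γ _ _ _ _ _ => Bs m lg Γ → Mid m lg
def SASY : Prop := OnV fun m lg Γ _ _ _ a _ => ∀ β, Bs m lg Γ → Seg m lg a → Bz m lg a β →
  Asy m lg a β
def STRUNC : Prop := OnV fun m lg Γ _ _ _ a _ => ∀ β, Bs m lg Γ → Bz m lg a β → Mid m lg →
  Asy m lg a β → Trunc m lg a β
def SGRW : Prop := OnV fun m lg Γ _ _ _ a b => Bs m lg Γ → Jf m lg a b → Der m lg → Grw m lg b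
def SCLO : Prop := OnV fun m lg Γ _ _ _ a b => ∀ β, Bs m lg Γ → Jf m lg a b → Seg m lg a →
  Asy m lg a β → Grw m lg b → Clo m lg b (a / (a + b))
def SE1 : Prop := OnV fun m lg Γ _ _ _ a b => ∀ β σ κ, 0 < σ → σ ≤ 1 → b * σ < 2 * a → 0 < κ →
  κ ≤ 1 → Bs m lg Γ → Jf m lg a b → Seg m lg a → Der m lg → Bz m lg a β → TelK m lg a b σ →
  Trunc m lg a β → Clo m lg b κ → E1 m lg β σ κ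
def SE2 : Prop := OnV fun m lg Γ _ _ _ a b => ∀ β σ κ, 0 < σ → σ ≤ 1 → 0 < κ → κ ≤ 1 →
  Bs m lg Γ → Jf m lg a b → Bz m lg a β → Asy m lg a β → E1 m lg β σ κ → E2 m lg β σ κ
def STST : Prop := OnV fun m lg Γ _ _ _ a b => ∀ β, Bs m lg Γ → Jf m lg a b → Bz m lg a β →
  Mid m lg → Asy m lg a β → Tst m lg
def SNRM : Prop := OnV fun m lg Γ _ _ _ a b => Bs m lg Γ → Jf m lg a b → Tst m lg → Nrm m lg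
def SEX : Prop := OnV fun m lg Γ _ _ _ a b => ∀ β σ κ, 0 < σ → σ ≤ 1 → 0 < κ → κ ≤ 1 →
  Bs m lg Γ → Jf m lg a b → Bz m lg a β → E2 m lg β σ κ → Nrm m lg → Ex m lg β σ κ

/-! ### The bootstrap -/

/-- `p` and `q` lie on opposite leaves through `z`, and `t` is their offset. -/
def Sq (m : MF) (lg : W → V) (β : W → V → ℝ) (z p q : W) (t : ℝ) : Prop :=
  (Bw m lg p z ∧ Fw m lg q z ∧ t = gr β q p) ∨ (Fw m lg p z ∧ Bw m lg q z ∧ t = gr β p q)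

structure Lf (m : MF) (lg : W → V) (β : W → V → ℝ) (σ κ : ℝ) : Prop where
  up : ∀ R : ℝ, ∃ C l₀ : ℝ, 0 ≤ C ∧ 0 < l₀ ∧ ∀ (z p q : W) (t d r : ℝ), ‖z‖ ≤ R → ‖z.2‖ = 1 →
    ‖p.2‖ = 1 → ‖q.2‖ = 1 → Sq m lg β z p q t → 0 < d → 0 < r → d ≤ l₀ → r ≤ l₀ →
    ‖p - z‖ ≤ d → ‖q - z‖ ≤ r → |t| ≤ C * (d * r + er σ κ (min d r) (max d r))
  low : ∀ R : ℝ, ∃ C c l₀ : ℝ, 0 ≤ C ∧ 0 < c ∧ 0 < l₀ ∧ ∀ (z p : W) (r : ℝ), ‖z‖ ≤ R →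
    ‖z.2‖ = 1 → ‖p.2‖ = 1 → Fw m lg p z ∨ Bw m lg p z → 0 < ‖p - z‖ → 0 < r → ‖p - z‖ ≤ l₀ →
    r ≤ l₀ → ∃ (q : W) (t : ℝ), ‖q.2‖ = 1 ∧ Sq m lg β z p q t ∧ ‖q - z‖ ≤ C * r ∧
      c * ‖p - z‖ * r ≤ |t| + C * er σ κ (min ‖p - z‖ r) (max ‖p - z‖ r)

/-- `φ` respects leaves and offsets, `ψ` is a left inverse. -/
structure Cj (m : MF) (lg : W → V) (β : W → V → ℝ) (m' : MF) (lg' : W → V) (β' : W → V → ℝ)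
    (φ ψ : W → W) : Prop where
  unit : ∀ z : W, ‖z.2‖ = 1 → ‖(φ z).2‖ = 1
  cont : ContinuousOn φ {z | ‖z.2‖ = 1}
  left : ∀ z : W, ‖z.2‖ = 1 → ψ (φ z) = z
  fw : ∀ p q : W, ‖p.2‖ = 1 → ‖q.2‖ = 1 → Fw m lg p q → Fw m' lg' (φ p) (φ q)
  bw : ∀ p q : W, ‖p.2‖ = 1 → ‖q.2‖ = 1 → Bw m lg p q → Bw m' lg' (φ p) (φ q)
  inv : ∀ R : ℝ, ∃ l₀ : ℝ, 0 < l₀ ∧ ∀ p q : W, ‖p‖ ≤ R → ‖p.2‖ = 1 → ‖q.2‖ = 1 →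
    ‖q - p‖ ≤ l₀ → gr β' (φ q) (φ p) = gr β q p

/-- Hölder bound along leaves. -/
def HL (m : MF) (lg : W → V) (φ : W → W) (θ : ℝ) : Prop := ∀ R : ℝ, ∃ C : ℝ, 0 ≤ C ∧
  ∀ z p : W, ‖z‖ ≤ R → ‖p‖ ≤ R → ‖z.2‖ = 1 → ‖p.2‖ = 1 → Fw m lg p z ∨ Bw m lg p z →
    ‖φ p - φ z‖ ≤ C * ‖p - z‖ ^ θ

/-- Hölder bound for all pairs. -/
def HG (φ : W → W) (θ : ℝ) : Prop := ∀ R : ℝ, ∃ C : ℝ, 0 ≤ C ∧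
  ∀ z p : W, ‖z‖ ≤ R → ‖p‖ ≤ R → ‖z.2‖ = 1 → ‖p.2‖ = 1 → ‖φ p - φ z‖ ≤ C * ‖p - z‖ ^ θ

/-- Linear approximation at every scale. -/
def Lin (φ : W → W) : Prop := ∃ η : ℝ, 0 < η ∧ ∀ R : ℝ, ∃ C d₀ : ℝ, 0 < d₀ ∧ ∀ (z : W) (d : ℝ),
  ‖z‖ ≤ R → ‖z.2‖ = 1 → 0 < d → d ≤ d₀ → ∃ A : W →L[ℝ] W, ∀ ξ : W, ‖ξ‖ ≤ d →
    ‖φ (nz (z + ξ)) - φ z - A ξ‖ ≤ C * d ^ (1 + η)

/-- A statement about a pair of inverse maps. -/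
def OnP (P : MF → (W → V) → (W → V → ℝ) → MF → (W → V) → (W → V → ℝ) → (W → W) → (W → W) →
    Prop) : Prop := ∀ m lg β m' lg' β' φ ψ, Cj m lg β m' lg' β' φ ψ → Cj m' lg' β' m lg β ψ φ →
  P m lg β m' lg' β' φ ψ

def SLF : Prop := ∀ m lg β σ κ, Ex m lg β σ κ → Lf m lg β σ κ
def SBOOTA : Prop := OnP fun m lg β m' lg' β' φ ψ => ∀ σ κ κ' θ : ℝ, 0 < σ → 0 < κ → κ ≤ 1 →
  0 < κ' → κ' ≤ 1 → Lf m lg β σ κ → Lf m' lg' β' 1 κ' → 1 / 2 < θ → θ ≤ 1 → HL m' lg' ψ θ →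
  HL m lg φ (2 - 1 / θ)
def SBOOTB : Prop := OnP fun m lg β m' lg' β' φ ψ => ∀ σ κ κ' θ ρ : ℝ, 0 < κ → κ ≤ 1 →
  0 < κ' → κ' ≤ 1 → Lf m lg β σ κ → Lf m' lg' β' 1 κ' → 0 < ρ → 1 - σ < ρ → ρ < 1 → 0 ≤ θ →
  θ ≤ 1 → HL m lg φ θ → HL m' lg' ψ (1 / (1 + ρ * (1 - θ)))
def SITER : Prop := SBOOTA → SBOOTB → OnP fun m lg β m' lg' β' φ ψ => ∀ σ κ κ' : ℝ, 0 < σ →
  σ ≤ 1 → 0 < κ → κ ≤ 1 → 0 < κ' → κ' ≤ 1 → Lf m lg β σ κ → Lf m' lg' β' 1 κ' →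
  ∀ θ, 0 ≤ θ → θ < 1 → HL m lg φ θ ∧ HL m' lg' ψ θ
def SGEN : Prop := OnP fun m lg β m' lg' β' φ ψ => ∀ σ κ σ' κ' : ℝ, Ex m lg β σ κ →
  Ex m' lg' β' σ' κ' → (∀ θ, 0 ≤ θ → θ < 1 → HL m' lg' ψ θ) → ∀ θ, 0 ≤ θ → θ < 1 → HG φ θ
def SLINA : Prop := OnP fun m lg β m' lg' β' φ ψ => ∀ σ κ σ' κ' : ℝ, Ex m lg β σ κ →
  Ex m' lg' β' σ' κ' → (∀ θ, 0 ≤ θ → θ < 1 → HL m' lg' ψ θ) → (∀ θ, 0 ≤ θ → θ < 1 → HG φ θ) →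
  Lin φ
def SLIN : Prop := ∀ φ : W → W, Lin φ → ContDiffOn ℝ 1 (fun z => φ (nz z)) {z | z.2 ≠ 0}

/-! ### Links with the world of metrics -/

def SBR : Prop := STAY → On1 fun g C Γ _ _ Φ => ∀ (m : MF) (lg : W → V) O (a b : ℝ),
  (∀ γ : Γ, ContDiff ℝ ∞ fun x : V => γ • x) → m.OK → m.Jac → Lk g C Φ m → ContDiff ℝ 2 m.om →
  m.Had lg → (∀ y z, ‖lg (y, z)‖ = dd g y z) → Act m Γ O → 0 < a →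
  Pin g C (a ^ 2) (b ^ 2) → ThP g Φ a → NV m lg Γ O a (max |b| a)

def SBZ : Prop := On1 fun g C _ _ _ Φ => ∀ (m : MF) (lg : W → V) (a : ℝ), m.OK → m.Jac →
  Lk g C Φ m → m.Had lg → (∀ y z, ‖lg (y, z)‖ = dd g y z) → 0 < a → TB.CurvLe g a →
  ∃ β, Ln g Φ m lg β ∧ Bz m lg a β

def SCJ : Prop := ∀ (g h : Met dm) (Φ : ℝ → UT g → UT g) (Ψ : ℝ → UT h → UT h) (m m' : MF)
  (lg lg' : W → V) (β β' : W → V → ℝ) (a a' : ℝ) (F : UT g ≃ₜ UT h), Ln g Φ m lg β →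
  Ln h Ψ m' lg' β' → m.OK → m'.OK → m.Jac → m'.Jac → m.Had lg → m'.Had lg' → Bz m lg a β →
  Bz m' lg' a' β' → Grv g Φ → Grv h Ψ → Asp g h Φ Ψ F → ∃ φ ψ : W → W, Cj m lg β m' lg' β' φ ψ ∧
    Cj m' lg' β' m lg β ψ φ ∧ (∀ p, φ (fz m p) = fz m' (F p)) ∧ ∀ p, ψ (fz m' p) = fz m (F.symm p)

def SFIN : Prop := ∀ (g h : Met dm) (m m' : MF) (F : UT g → UT h) (φ : W → W), m.OK → m'.OK →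
  (∀ p : UT g, ‖(fz m p).2‖ = 1) → (∀ p, φ (fz m p) = fz m' (F p)) →
  ContDiffOn ℝ 1 (fun z => φ (nz z)) {z | z.2 ≠ 0} → DNIN.C1F F

/-- Part B with quarter pinching on the target only. -/
def PartB2 : Prop := DNIN.On3 fun g h _ _ _ _ _ _ _ F => ∀ a b a' b' : ℝ, 0 < a → 0 < a' →
  b ^ 2 < 4 * a ^ 2 → DNIN.Pinch g a' b' → DNIN.Pinch h a b → DNIN.C1F F ∧ DNIN.C1F F.symm

end

end Pool.Agent.MP_3ee8cb_gt.DNB2
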