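import Pool.Agent.MP_3ee8cb_gt.DNB2.Spec
import Pool.Agent.MP_3ee8cb_gt.DNC0.All

/-! A conjugacy is of class `C¹` when one side is quarter pinched: assembly of the rows. -/

namespace Pool.Agent.MP_3ee8cb_gt.DNB2

open DN (Dim dm)

variable [Dim]

open Set Filter Topology Real DN DNC0
open CR (Met UT dd ng)

/-- The rows about one space. -/
structure Rows1 : Prop where
  bs : SBS
  jf : SJF
  step : SSTEP
  mov : SMOV
  seg : SSEG
  der : SDER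
  telk : STELK
  mid : SMID
  asy : SASY
  trunc : STRUNC
  grw : SGRW
  clo : SCLO
  e1 : SE1
  e2 : SE2
  tst : STST
  nrm : SNRM
  ex : SEX
  br : SBR
  bz : SBZ

/-- The rows about a pair. -/
structure Rows2 : Prop where
  lf : SLF
  boota : SBOOTA
  bootb : SBOOTB
  iter : SITER
  gen : SGEN
  lina : SLINA
  lin : SLIN
  cj : SCJ
  fin : SFIN

theorem world (r : Rows1) {m : MF} {lg : W → V} {Γ : Type} [Group Γ] [MulAction Γ V]
    {O : Γ → V → V ≃ₗᵢ[ℝ] V} {a b σ : ℝ} {β : W → V → ℝ} (w : NV m lg Γ O a b)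
    (bz : Bz m lg a β) (s0 : 0 < σ) (s1 : σ ≤ 1) (hs : b * σ < 2 * a) :
    Ex m lg β σ (a / (a + b)) := by
  have ha := w.a0
  have hb := w.ab
  have k0 : 0 < a / (a + b) := div_pos ha (by linarith)
  have k1 : a / (a + b) ≤ 1 := (div_le_one (by linarith)).2 (by linarith)
  have bs := r.bs m lg Γ O a b w
  have jf := r.jf m lg Γ O a b w
  have mov := r.mov m lg Γ O a b w bs
  have tel := r.telk m lg Γ O a b w σ s1 hs bs jf (r.step sq2 m lg Γ O a b w jf) mov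
  have seg := r.seg m lg Γ O a b w bs jf
  have der := r.der m lg Γ O a b w bs jf
  have mid := r.mid m lg Γ O a b w bs
  have asy := r.asy m lg Γ O a b w β bs seg bz
  have e1 := r.e1 m lg Γ O a b w β σ _ s0 s1 hs k0 k1 bs jf seg der bz tel
    (r.trunc m lg Γ O a b w β bs bz mid asy)
    (r.clo m lg Γ O a b w β bs jf seg asy (r.grw m lg Γ O a b w bs jf der))
  exact r.ex m lg Γ O a b w β σ _ s0 s1 k0 k1 bs jf bz
    (r.e2 m lg Γ O a b w β σ _ s0 s1 k0 k1 bs jf bz asy e1)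
    (r.nrm m lg Γ O a b w bs jf (r.tst m lg Γ O a b w β bs jf bz mid asy))

theorem one (r : Rows1) {g : Met dm} {Γ : Type} [Group Γ] [MulAction Γ V]
    {Φ : ℝ → UT g → UT g} {a b : ℝ} (sm : DNIN.SM g Γ Φ) (ha : 0 < a) (hp : DNIN.Pinch g a b) :
    ∃ (C : TB.Chr dm) (m : MF) (lg : W → V) (β : W → V → ℝ), TB.IsChr g C ∧ m.OK ∧ m.Jac ∧
      m.Had lg ∧ Pk g Φ a ∧ Ln g Φ m lg β ∧ Bz m lg a β ∧ ∀ σ : ℝ, 0 < σ → σ ≤ 1 →
        max |b| a * σ < 2 * a → Ex m lg β σ (a / (a + max |b| a)) := by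
  obtain ⟨C, hC, hc⟩ := hp
  have cl : TB.CurvLe g a := ⟨C, hC, fun x u v => (hc x u v).1⟩
  have pk := DNC0.pk DNC0.near g C Γ Φ sm.qp hC a ha cl
  obtain ⟨m, ok, lk, c2⟩ := DNC0.frm3 g C Γ Φ sm.qp hC sm.sm
  have jac := DN.sJAC m ok
  obtain ⟨lg, had, hd⟩ := DNFL.had g C Γ Φ sm.qp hC m a ok jac lk ha cl
  obtain ⟨O, act⟩ := DN.sACT g C Γ Φ sm.qp hC m ok lk (d2_of sm)
  have w := r.br stay g C Γ Φ sm.qp hC m lg O a b sm.act ok jac lk c2 had hd act ha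
    (fun x u v => ⟨(hc x u v).2, (hc x u v).1⟩) pk.th
  obtain ⟨β, ln, bz⟩ := r.bz g C Γ Φ sm.qp hC m lg a ok jac lk had hd ha cl
  exact ⟨C, m, lg, β, hC, ok, jac, had, pk, ln, bz, fun σ s0 s1 hs => world r w bz s0 s1 hs⟩

theorem partB2_of (r : Rows1) (s : Rows2) : PartB2 := by
  intro g h Γ Λ _ _ _ _ Φ Ψ ρ F sg sh cj a b a' b' ha ha' hb pg ph
  obtain ⟨C, m, lg, β, hC, ok, jac, had, pk, ln, bz, ex⟩ := one r sg ha' pg
  obtain ⟨C', m', lg', β', hC', ok', jac', had', pk', ln', bz', ex'⟩ := one r sh ha ph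
  have hm : a' ≤ max |b'| a' := le_max_right _ _
  have hm0 : 0 < max |b'| a' := ha'.trans_le hm
  have ex1 := ex (a' / max |b'| a') (div_pos ha' hm0) ((div_le_one hm0).2 hm)
    (by rw [mul_div_cancel₀ _ hm0.ne']; linarith)
  have ex2 := ex' 1 one_pos le_rfl (by
    rw [mul_one]
    refine max_lt (abs_lt_of_sq_lt_sq (by linarith) (by linarith)) (by linarith))
  have asp := DNC0.asp g h C C' Γ Λ Φ Ψ ρ F sg.qp sh.qp hC hC' (d2_of sg) (d2_of sh) cj a' a pk pk'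
  obtain ⟨φ, ψ, c1, c2, e1, e2⟩ := s.cj g h Φ Ψ m m' lg lg' β β' a' a F ln ln' ok ok' jac jac'
    had had' bz bz' (DNC0.inv.1 dm g Φ pk.bp) (DNC0.inv.1 dm h Ψ pk'.bp) asp
  have it := s.iter s.boota s.bootb m lg β m' lg' β' φ ψ c1 c2 _ _ _ ex1.s0 ex1.s1 ex1.k0 ex1.k1
    ex2.k0 ex2.k1 (s.lf _ _ _ _ _ ex1) (s.lf _ _ _ _ _ ex2)
  have i1 := fun θ h0 h1 => (it θ h0 h1).1
  have i2 := fun θ h0 h1 => (it θ h0 h1).2
  exact ⟨s.fin g h m m' F φ ok ok' ln.unit e1 (s.lin φ (s.lina m lg β m' lg' β' φ ψ c1 c2 _ _ _ _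
      ex1 ex2 i2 (s.gen m lg β m' lg' β' φ ψ c1 c2 _ _ _ _ ex1 ex2 i2))),
    s.fin h g m' m F.symm ψ ok' ok ln'.unit e2 (s.lin ψ (s.lina m' lg' β' m lg β ψ φ c2 c1 _ _ _ _
      ex2 ex1 i1 (s.gen m' lg' β' m lg β ψ φ c2 c1 _ _ _ _ ex2 ex1 i1)))⟩

end Pool.Agent.MP_3ee8cb_gt.DNB2
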